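import Pool.Agent.Lib.MP_ccffa6_gt.Defs

open Set Filter Topology
open scoped ContDiff

noncomputable section

namespace Pool.Agent.Lib.MP_ccffa6_gt

variable {E : Type} [NormedAddCommGroup E] [NormedSpace ℝ E] [FiniteDimensional ℝ E]
  {E' : Type} [NormedAddCommGroup E'] [NormedSpace ℝ E'] [FiniteDimensional ℝ E']
  {F : Type} [NormedAddCommGroup F] [NormedSpace ℝ F] [FiniteDimensional ℝ F]

theorem Tan.map {S : Set E} {S' : Set E'} {f : E → E'} {x v : E} (hf : DifferentiableAt ℝ f x)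
    (h : ∀ᶠ y in 𝓝[S] x, f y ∈ S') (hv : v ∈ Tan S x) : fderiv ℝ f x v ∈ Tan S' (f x) := by
  have h1 : Tan S x = Tan (S ∩ {y | y ∈ S → f y ∈ S'}) x := by
    unfold Tan
    rw [tangentConeAt_inter_nhds (eventually_nhdsWithin_iff.1 h)]
  rw [h1] at hv
  refine Submodule.span_induction (fun u hu => Submodule.subset_span ?_) (by simp)
    (fun a b _ _ ha hb => by rw [map_add]; exact add_mem ha hb)
    (fun c a _ ha => by rw [map_smul]; exact Submodule.smul_mem _ _ ha) hv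
  refine tangentConeAt_mono ?_ (hf.hasFDerivAt.hasFDerivWithinAt.mapsTo_tangent_cone hu)
  rintro _ ⟨y, hy, rfl⟩
  exact hy.2 hy.1

theorem Tan.fderiv_congr {S : Set E} {f g : E → E'} {x v : E} (hx : x ∈ S)
    (hf : DifferentiableAt ℝ f x) (hg : DifferentiableAt ℝ g x) (h : f =ᶠ[𝓝[S] x] g)
    (hv : v ∈ Tan S x) : fderiv ℝ f x v = fderiv ℝ g x v := by
  have h1 : HasFDerivWithinAt f (fderiv ℝ g x) S x :=
    hg.hasFDerivAt.hasFDerivWithinAt.congr_of_eventuallyEq h (h.self_of_nhdsWithin hx)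
  exact Submodule.span_induction
    (fun u hu => hf.hasFDerivAt.hasFDerivWithinAt.unique_on h1 hu) (by simp)
    (fun a b _ _ ha hb => by rw [map_add, map_add, ha, hb])
    (fun c a _ ha => by rw [map_smul, map_smul, ha]) hv

theorem Tan.congr {S S' : Set E} {x : E} (h : S =ᶠ[𝓝 x] S') : Tan S x = Tan S' x := by
  unfold Tan
  rw [tangentConeAt_congr (nhdsWithin_eq_iff_eventuallyEq.2 h)]

theorem Tan.mono {S S' : Set E} {x : E} (h : S ⊆ S') : Tan S x ≤ Tan S' x :=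
  Submodule.span_mono (tangentConeAt_mono h)

theorem Tan.of_mem_nhds {S : Set E} {x : E} (h : S ∈ 𝓝 x) : Tan S x = ⊤ := by
  unfold Tan
  rw [tangentConeAt_of_mem_nhds h, Submodule.span_univ]

theorem Tan.curve {S : Set E} {γ : ℝ → E} {t : ℝ} {v : E} (h : HasDerivAt γ v t)
    (hS : ∀ᶠ s in 𝓝 t, γ s ∈ S) : v ∈ Tan S (γ t) := by
  have h1 := Tan.map (S := univ) (S' := S) (v := (1 : ℝ)) h.differentiableAt
    (hS.filter_mono nhdsWithin_le_nhds) (by rw [Tan.of_mem_nhds univ_mem]; trivial)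
  rwa [h.hasFDerivAt.fderiv, ContinuousLinearMap.toSpanSingleton_apply, one_smul] at h1

theorem Chart.self {S : Set E} {x : E} {φ : F → E} {ψ : E → F} (h : Chart S x φ ψ) (hx : x ∈ S) :
    φ (ψ x) = x :=
  h.left.self_of_nhdsWithin hx

theorem Chart.left_inv_fderiv {S : Set E} {x : E} {φ : F → E} {ψ : E → F} (h : Chart S x φ ψ)
    (hx : x ∈ S) (z : F) : fderiv ℝ ψ x (fderiv ℝ φ (ψ x) z) = z := by
  have h1 : HasFDerivAt (ψ ∘ φ) ((fderiv ℝ ψ x).comp (fderiv ℝ φ (ψ x))) (ψ x) := by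
    refine HasFDerivAt.comp _ ?_ (h.smφ.differentiable (by simp) _).hasFDerivAt
    rw [h.self hx]
    exact (h.smψ.differentiable (by simp) _).hasFDerivAt
  have h2 : HasFDerivAt (ψ ∘ φ) (ContinuousLinearMap.id ℝ F) (ψ x) :=
    (hasFDerivAt_id _).congr_of_eventuallyEq (h.right.mono fun z hz => hz.2)
  exact congrArg (fun A : F →L[ℝ] F => A z) (h1.unique h2)

theorem Chart.mem_tan {S : Set E} {x : E} {φ : F → E} {ψ : E → F} (h : Chart S x φ ψ)
    (hx : x ∈ S) (v : E) : v ∈ Tan S x ↔ ∃ z, fderiv ℝ φ (ψ x) z = v := by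
  have hφ := h.smφ.differentiable (by simp)
  have hψ := h.smψ.differentiable (by simp)
  constructor
  · intro hv
    refine ⟨fderiv ℝ ψ x v, ?_⟩
    have h1 := Tan.fderiv_congr (f := φ ∘ ψ) (g := id) hx ((hφ _).comp x (hψ x))
      differentiableAt_id h.left hv
    rwa [fderiv_comp x (hφ _) (hψ x), fderiv_id] at h1
  · rintro ⟨z, rfl⟩
    have h1 := Tan.map (S := univ) (S' := S) (v := z) (hφ (ψ x))
      ((h.right.mono fun z hz => hz.1).filter_mono nhdsWithin_le_nhds)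
      (by rw [Tan.of_mem_nhds univ_mem]; trivial)
    rwa [h.self hx] at h1

theorem Chart.right_inv_fderiv {S : Set E} {x : E} {φ : F → E} {ψ : E → F} (h : Chart S x φ ψ)
    (hx : x ∈ S) {v : E} (hv : v ∈ Tan S x) : fderiv ℝ φ (ψ x) (fderiv ℝ ψ x v) = v := by
  obtain ⟨z, rfl⟩ := (h.mem_tan hx v).1 hv
  rw [h.left_inv_fderiv hx]

theorem Chart.eventually {S : Set E} {x : E} {φ : F → E} {ψ : E → F} (h : Chart S x φ ψ) :
    ∀ᶠ y in 𝓝[S] x, Chart S y φ ψ := by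
  filter_upwards [eventually_eventually_nhdsWithin.2 h.left,
    ((h.smψ.continuous.tendsto x).eventually h.right.eventually_nhds).filter_mono
      nhdsWithin_le_nhds] with y h1 h2
  exact ⟨h.smφ, h.smψ, h1, h2⟩

theorem Chart.finrank {S : Set E} {x : E} {φ : F → E} {ψ : E → F} (h : Chart S x φ ψ)
    (hx : x ∈ S) : Module.finrank ℝ (Tan S x) = Module.finrank ℝ F := by
  have h1 : Tan S x = LinearMap.range (fderiv ℝ φ (ψ x)).toLinearMap := by
    ext v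
    exact h.mem_tan hx v
  rw [h1]
  exact LinearMap.finrank_range_of_inj
    (Function.LeftInverse.injective (g := fderiv ℝ ψ x) (h.left_inv_fderiv hx))

theorem IsSub.finrank {d : ℕ} {S : Set E} (h : IsSub d S) {x : E} (hx : x ∈ S) :
    Module.finrank ℝ (Tan S x) = d := by
  obtain ⟨φ, ψ, hc⟩ := h x hx
  rw [hc.finrank hx, finrank_euclideanSpace_fin]

theorem tan_equiv {S : Set E} {x : E} {φ : F → E} {ψ : E → F} (h : Chart S x φ ψ)
    (e : F ≃L[ℝ] E') : Chart S x (φ ∘ e.symm) (e ∘ ψ) := by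
  refine ⟨h.smφ.comp e.symm.contDiff, e.contDiff.comp h.smψ, by simpa using h.left, ?_⟩
  have h1 : Tendsto e.symm (𝓝 (e (ψ x))) (𝓝 (ψ x)) := by
    simpa using e.symm.continuous.tendsto (e (ψ x))
  filter_upwards [h1.eventually h.right] with z hz
  exact ⟨hz.1, by simp [hz.2]⟩

theorem tan_shift {S : Set E} {x : E} {φ : F → E} {ψ : E → F} (h : Chart S x φ ψ) :
    Chart S x (fun z => φ (z + ψ x)) (fun y => ψ y - ψ x) := by
  refine ⟨h.smφ.comp (contDiff_id.add contDiff_const), h.smψ.sub contDiff_const,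
    by simpa using h.left, ?_⟩
  have h1 : Tendsto (fun z : F => z + ψ x) (𝓝 (ψ x - ψ x)) (𝓝 (ψ x)) := by
    simpa using (continuous_add_const (ψ x)).tendsto (ψ x - ψ x)
  filter_upwards [h1.eventually h.right] with z hz
  exact ⟨hz.1, by simp [hz.2]⟩

/-- Charts may be modelled on any space of the right dimension. -/
theorem Chart.toRd {S : Set E} {x : E} {φ : F → E} {ψ : E → F} (h : Chart S x φ ψ) {d : ℕ}
    (hd : Module.finrank ℝ F = d) : ∃ (φ' : Rd d → E) (ψ' : E → Rd d), Chart S x φ' ψ' :=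
  ⟨_, _, tan_equiv h (ContinuousLinearEquiv.ofFinrankEq (by rw [hd, finrank_euclideanSpace_fin]))⟩

theorem IsSub.chart {d : ℕ} {S : Set E} (h : IsSub d S) (hd : Module.finrank ℝ F = d) {x : E}
    (hx : x ∈ S) : ∃ (φ : F → E) (ψ : E → F), Chart S x φ ψ ∧ ψ x = 0 := by
  obtain ⟨φ, ψ, hc⟩ := h x hx
  have h1 := tan_equiv hc
    (ContinuousLinearEquiv.ofFinrankEq (F := F) (by rw [hd, finrank_euclideanSpace_fin]))
  exact ⟨_, _, tan_shift h1, sub_self _⟩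

theorem IsSub.exists_curve {d : ℕ} {S : Set E} (h : IsSub d S) {x v : E} (hx : x ∈ S)
    (hv : v ∈ Tan S x) : ∃ γ : ℝ → E, ContDiff ℝ ∞ γ ∧ γ 0 = x ∧ HasDerivAt γ v 0 ∧
      ∀ᶠ t in 𝓝 (0 : ℝ), γ t ∈ S := by
  obtain ⟨φ, ψ, hc⟩ := h x hx
  obtain ⟨z, rfl⟩ := (hc.mem_tan hx v).1 hv
  have h1 : HasDerivAt (fun t : ℝ => ψ x + t • z) z 0 := by
    simpa using ((hasDerivAt_id (0 : ℝ)).smul_const z).const_add (ψ x)
  refine ⟨fun t => φ (ψ x + t • z), hc.smφ.comp (contDiff_const.add (contDiff_id.smul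
    contDiff_const)), by simpa using hc.self hx, ?_, ?_⟩
  · exact HasFDerivAt.comp_hasDerivAt_of_eq 0
      (hc.smφ.differentiable (by simp) (ψ x)).hasFDerivAt h1 (by simp)
  · have h2 : Tendsto (fun t : ℝ => ψ x + t • z) (𝓝 0) (𝓝 (ψ x)) := by
      simpa using h1.continuousAt.tendsto
    exact h2.eventually (hc.right.mono fun z hz => hz.1)

theorem Chart.congr {S S' : Set E} {x : E} {φ : F → E} {ψ : E → F} (h : Chart S x φ ψ)
    (hx : x ∈ S) (hS : S =ᶠ[𝓝 x] S') : Chart S' x φ ψ := by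
  refine ⟨h.smφ, h.smψ, nhdsWithin_eq_iff_eventuallyEq.2 hS ▸ h.left, ?_⟩
  have h1 : Tendsto φ (𝓝 (ψ x)) (𝓝 x) := by
    simpa only [h.self hx] using h.smφ.continuous.tendsto (ψ x)
  filter_upwards [h.right, h1.eventually hS] with z h2 h3
  exact ⟨h3.mp h2.1, h2.2⟩

theorem IsSub.of_local {d : ℕ} {S : Set E}
    (h : ∀ x ∈ S, ∃ S' : Set E, IsSub d S' ∧ S =ᶠ[𝓝 x] S') : IsSub d S := fun x hx => by
  obtain ⟨S', h1, h2⟩ := h x hx
  have hx' : x ∈ S' := h2.self_of_nhds.mp hx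
  obtain ⟨φ, ψ, hc⟩ := h1 x hx'
  exact ⟨φ, ψ, hc.congr hx' h2.symm⟩

theorem IsSub.inter_open {d : ℕ} {S U : Set E} (h : IsSub d S) (hU : IsOpen U) :
    IsSub d (S ∩ U) :=
  IsSub.of_local fun x hx => ⟨S, h, by
    filter_upwards [hU.mem_nhds hx.2] with y hy
    exact propext ⟨fun h => h.1, fun h => ⟨h, hy⟩⟩⟩

theorem isSub_of_isOpen {U : Set E} (hU : IsOpen U) : IsSub (Module.finrank ℝ E) U := fun _ hx =>
  Chart.toRd (φ := id) (ψ := id) ⟨contDiff_id, contDiff_id, Eventually.of_forall fun _ => rfl,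
    Filter.Eventually.mono (hU.mem_nhds hx) fun _ hz => ⟨hz, rfl⟩⟩ rfl

theorem tan_chart_prod {G : Type} [NormedAddCommGroup G] [NormedSpace ℝ G] {S : Set E} {S' : Set E'}
    {x : E} {y : E'} {φ : F → E} {ψ : E → F} {φ' : G → E'} {ψ' : E' → G} (h : Chart S x φ ψ)
    (h' : Chart S' y φ' ψ') : Chart (S ×ˢ S') (x, y) (Prod.map φ φ') (Prod.map ψ ψ') := by
  refine ⟨h.smφ.prodMap h'.smφ, h.smψ.prodMap h'.smψ, ?_, ?_⟩
  · rw [nhdsWithin_prod_eq]
    exact (h.left.prod_mk h'.left).mono fun p hp => Prod.ext hp.1 hp.2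
  · filter_upwards [prod_mem_nhds h.right h'.right] with p hp
    exact ⟨⟨hp.1.1, hp.2.1⟩, Prod.ext hp.1.2 hp.2.2⟩

theorem IsSub.prod {d d' : ℕ} {S : Set E} {S' : Set E'} (h : IsSub d S) (h' : IsSub d' S') :
    IsSub (d + d') (S ×ˢ S') := by
  rintro ⟨x, y⟩ ⟨hx, hy⟩
  obtain ⟨φ, ψ, hc⟩ := h x hx
  obtain ⟨φ', ψ', hc'⟩ := h' y hy
  exact (tan_chart_prod hc hc').toRd (by simp)

theorem IsSub.tan_prod {d d' : ℕ} {S : Set E} {S' : Set E'} (h : IsSub d S) (h' : IsSub d' S')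
    {x : E} {y : E'} (hx : x ∈ S) (hy : y ∈ S') :
    Tan (S ×ˢ S') (x, y) = (Tan S x).prod (Tan S' y) := by
  obtain ⟨φ, ψ, hc⟩ := h x hx
  obtain ⟨φ', ψ', hc'⟩ := h' y hy
  ext v
  rw [(tan_chart_prod hc hc').mem_tan (mk_mem_prod hx hy), Submodule.mem_prod, hc.mem_tan hx,
    hc'.mem_tan hy]
  have h1 : fderiv ℝ (Prod.map φ φ') (Prod.map ψ ψ' (x, y)) =
      (fderiv ℝ φ (ψ x)).prodMap (fderiv ℝ φ' (ψ' y)) :=
    (HasFDerivAt.prodMap (ψ x, ψ' y) (hc.smφ.differentiable (by simp) _).hasFDerivAt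
      (hc'.smφ.differentiable (by simp) _).hasFDerivAt).fderiv
  rw [h1]
  constructor
  · rintro ⟨z, rfl⟩
    exact ⟨⟨z.1, rfl⟩, z.2, rfl⟩
  · rintro ⟨⟨a, ha⟩, b, hb⟩
    exact ⟨(a, b), Prod.ext ha hb⟩

/-- A submanifold is locally closed. -/
theorem IsSub.locally_compact {d : ℕ} {S : Set E} (h : IsSub d S) {x : E} (hx : x ∈ S) :
    ∃ ε > 0, IsCompact (S ∩ Metric.closedBall x ε) := by
  obtain ⟨φ, ψ, hc⟩ := h x hx
  obtain ⟨r, hr, hB⟩ := Metric.nhds_basis_closedBall.mem_iff.1 hc.right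
  have h1 : ∀ᶠ y in 𝓝 x, (y ∈ S → φ (ψ y) = y) ∧ ψ y ∈ Metric.closedBall (ψ x) r :=
    (eventually_nhdsWithin_iff.1 hc.left).and
      (hc.smψ.continuous.tendsto x (Metric.closedBall_mem_nhds _ hr))
  obtain ⟨ε, hε, h2⟩ := Metric.nhds_basis_closedBall.mem_iff.1 h1
  refine ⟨ε, hε, ?_⟩
  have h3 : S ∩ Metric.closedBall x ε =
      φ '' Metric.closedBall (ψ x) r ∩ Metric.closedBall x ε := by
    ext y
    constructor
    · rintro ⟨hy, hy'⟩
      exact ⟨⟨ψ y, (h2 hy').2, (h2 hy').1 hy⟩, hy'⟩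
    · rintro ⟨⟨z, hz, rfl⟩, hy'⟩
      exact ⟨(hB hz).1, hy'⟩
  rw [h3]
  exact ((isCompact_closedBall _ _).image hc.smφ.continuous).inter_right Metric.isClosed_closedBall

/-- A compact part of a submanifold has a compact neighbourhood in it. -/
theorem IsSub.exists_compact_nhds {d : ℕ} {S A : Set E} (h : IsSub d S) (hA : IsCompact A)
    (hAS : A ⊆ S) : ∃ U B : Set E, IsOpen U ∧ A ⊆ U ∧ IsCompact B ∧ B ⊆ S ∧ S ∩ U ⊆ B := by
  choose! ε hε hc using fun x (hx : x ∈ A) => h.locally_compact (hAS hx)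
  obtain ⟨t, ht, hcov⟩ := hA.elim_nhds_subcover (fun x => Metric.ball x (ε x))
    fun x hx => Metric.ball_mem_nhds x (hε x hx)
  refine ⟨⋃ x ∈ t, Metric.ball x (ε x), ⋃ x ∈ t, S ∩ Metric.closedBall x (ε x),
    isOpen_biUnion fun _ _ => Metric.isOpen_ball, hcov,
    t.isCompact_biUnion fun x hx => hc x (ht x hx),
    iUnion₂_subset fun _ _ => inter_subset_left, ?_⟩
  rintro y ⟨hy, hy'⟩
  obtain ⟨x, hx, hxy⟩ := mem_iUnion₂.1 hy'
  exact mem_iUnion₂.2 ⟨x, hx, hy, Metric.ball_subset_closedBall hxy⟩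

end Pool.Agent.Lib.MP_ccffa6_gt
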