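import Pool.Agent.Lib.MP_ccffa6_gt.K.Tan

open Set Filter Topology
open scoped ContDiff

noncomputable section

namespace Pool.Agent.Lib.MP_ccffa6_gt

variable {E : Type} [NormedAddCommGroup E] [NormedSpace ℝ E] [FiniteDimensional ℝ E]
  {E' : Type} [NormedAddCommGroup E'] [NormedSpace ℝ E'] [FiniteDimensional ℝ E']
  {F : Type} [NormedAddCommGroup F] [NormedSpace ℝ F] [FiniteDimensional ℝ F]

theorem Diff.refl (S : Set E) : Diff S S id id :=
  ⟨contDiff_id, contDiff_id, mapsTo_id _, mapsTo_id _, fun _ _ => rfl, fun _ _ => rfl⟩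

theorem Diff.symm {S : Set E} {S' : Set E'} {φ : E → E'} {ψ : E' → E} (h : Diff S S' φ ψ) :
    Diff S' S ψ φ :=
  ⟨h.smψ, h.smφ, h.mapψ, h.mapφ, h.right, h.left⟩

theorem Diff.trans {S : Set E} {S' : Set E'} {S'' : Set F} {φ : E → E'} {ψ : E' → E}
    {φ' : E' → F} {ψ' : F → E'} (h : Diff S S' φ ψ) (h' : Diff S' S'' φ' ψ') :
    Diff S S'' (φ' ∘ φ) (ψ ∘ ψ') :=
  ⟨h'.smφ.comp h.smφ, h.smψ.comp h'.smψ, h'.mapφ.comp h.mapφ, h.mapψ.comp h'.mapψ,
    fun x hx => (congrArg ψ (h'.left _ (h.mapφ hx))).trans (h.left x hx),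
    fun y hy => (congrArg φ' (h.right _ (h'.mapψ hy))).trans (h'.right y hy)⟩

theorem Diff.image {S : Set E} {φ : E → E'} {ψ : E' → E} (hφ : ContDiff ℝ ∞ φ)
    (hψ : ContDiff ℝ ∞ ψ) (h : ∀ x ∈ S, ψ (φ x) = x) : Diff S (φ '' S) φ ψ := by
  refine ⟨hφ, hψ, mapsTo_image _ _, ?_, h, ?_⟩
  · rintro _ ⟨x, hx, rfl⟩
    rwa [h x hx]
  · rintro _ ⟨x, hx, rfl⟩
    rw [h x hx]

theorem Diff.of_equiv (S : Set E) (e : E ≃L[ℝ] E') : Diff S (e '' S) e e.symm :=
  Diff.image e.contDiff e.symm.contDiff fun x _ => e.symm_apply_apply x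

theorem Diff.image_eq {S : Set E} {S' : Set E'} {φ : E → E'} {ψ : E' → E} (h : Diff S S' φ ψ) :
    φ '' S = S' :=
  h.mapφ.image_subset.antisymm fun y hy => ⟨ψ y, h.mapψ hy, h.right y hy⟩

theorem Diff.chart {S : Set E} {S' : Set E'} {φ : E → E'} {ψ : E' → E} (h : Diff S S' φ ψ)
    {x : E} (hx : x ∈ S) {c : F → E} {c' : E → F} (hc : Chart S x c c') :
    Chart S' (φ x) (φ ∘ c) (c' ∘ ψ) := by
  refine ⟨h.smφ.comp hc.smφ, hc.smψ.comp h.smψ, ?_, ?_⟩
  · have h1 := (h.smψ.continuous.continuousWithinAt (x := φ x)).tendsto_nhdsWithin h.mapψ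
    rw [h.left x hx] at h1
    filter_upwards [h1.eventually hc.left, self_mem_nhdsWithin] with y e hy
    exact (congrArg φ e).trans (h.right y hy)
  · rw [Function.comp_apply, h.left x hx]
    filter_upwards [hc.right] with z hz
    exact ⟨h.mapφ hz.1, (congrArg c' (h.left _ hz.1)).trans hz.2⟩

theorem Diff.isSub {d : ℕ} {S : Set E} {S' : Set E'} {φ : E → E'} {ψ : E' → E}
    (h : Diff S S' φ ψ) (hS : IsSub d S) : IsSub d S' := fun y hy => by
  obtain ⟨c, c', hc⟩ := hS _ (h.mapψ hy)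
  have := h.chart (h.mapψ hy) hc
  rw [h.right y hy] at this
  exact ⟨_, _, this⟩

theorem Diff.closed {d : ℕ} {S : Set E} {S' : Set E'} {φ : E → E'} {ψ : E' → E}
    (h : Diff S S' φ ψ) (hS : Closed d S) : Closed d S' :=
  ⟨h.isSub hS.sub, h.image_eq ▸ hS.cpt.image h.smφ.continuous⟩

theorem Diff.tan_left {S : Set E} {S' : Set E'} {φ : E → E'} {ψ : E' → E} (h : Diff S S' φ ψ)
    {x : E} (hx : x ∈ S) {v : E} (hv : v ∈ Tan S x) :
    fderiv ℝ ψ (φ x) (fderiv ℝ φ x v) = v := by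
  have h1 := h.smφ.differentiable (by simp) x
  have h2 := h.smψ.differentiable (by simp) (φ x)
  have h3 := Tan.fderiv_congr hx (h2.comp x h1) differentiableAt_id
    (eventually_nhdsWithin_of_forall h.left) hv
  rwa [fderiv_comp x h2 h1, fderiv_id] at h3

theorem Diff.tan_bijOn {S : Set E} {S' : Set E'} {φ : E → E'} {ψ : E' → E} (h : Diff S S' φ ψ)
    {x : E} (hx : x ∈ S) : BijOn (fderiv ℝ φ x) (Tan S x) (Tan S' (φ x)) := by
  refine InvOn.bijOn (f' := fderiv ℝ ψ (φ x)) ⟨fun v hv => h.tan_left hx hv, fun w hw => ?_⟩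
    (fun v hv => Tan.map (h.smφ.differentiable (by simp) x)
      (eventually_nhdsWithin_of_forall h.mapφ) hv) fun w hw => ?_
  · have := h.symm.tan_left (h.mapφ hx) hw
    rwa [h.left x hx] at this
  · have := Tan.map (h.smψ.differentiable (by simp) (φ x))
      (eventually_nhdsWithin_of_forall h.mapψ) hw
    rwa [h.left x hx] at this

theorem Diff.cMap {S : Set E} {S' : Set E'} {φ : E → E'} {ψ : E' → E} (h : Diff S S' φ ψ)
    {α : Form1 E} {β : Form1 E'} (he : EqT S α (pb φ β)) {U : Set F} {lam : Form1 F} {f : F → E}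
    (hf : CMap S α U lam f) : CMap S' β U lam (φ ∘ f) := by
  have h1 : ∀ y ∈ U, DifferentiableAt ℝ f y := fun y hy =>
    (hf.sm.contDiffAt (hf.op.mem_nhds hy)).differentiableAt (by simp)
  have h2 : ∀ y ∈ U, ∀ v, fderiv ℝ f y v ∈ Tan S (f y) := fun y hy v =>
    Tan.map (S := U) (h1 y hy) (eventually_nhdsWithin_of_forall hf.map)
      (by rw [Tan.of_mem_nhds (hf.op.mem_nhds hy)]; trivial)
  have h3 : ∀ y ∈ U, ∀ v, fderiv ℝ (φ ∘ f) y v = fderiv ℝ φ (f y) (fderiv ℝ f y v) :=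
    fun y hy v => by
      rw [fderiv_comp y (h.smφ.differentiable (by simp) _) (h1 y hy)]
      rfl
  refine ⟨hf.op, h.smφ.comp_contDiffOn hf.sm, h.mapφ.comp hf.map, fun y hy v w e => ?_,
    fun y hy v => ?_⟩
  · rw [h3 y hy, h3 y hy] at e
    exact hf.inj y hy ((h.tan_bijOn (hf.map hy)).injOn (h2 y hy v) (h2 y hy w) e)
  · rw [← hf.ker y hy, he _ (hf.map hy) _ (h2 y hy v), h3 y hy]
    rfl

end Pool.Agent.Lib.MP_ccffa6_gt
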