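import Pool.Agent.Lib.MP_ccffa6_gt.Defs

open Set Filter Topology
open scoped ContDiff

noncomputable section

namespace Pool.Agent.Lib.MP_ccffa6_gt

variable {E : Type} [NormedAddCommGroup E] [NormedSpace ℝ E] [FiniteDimensional ℝ E]
  {E' : Type} [NormedAddCommGroup E'] [NormedSpace ℝ E'] [FiniteDimensional ℝ E']
  {F : Type} [NormedAddCommGroup F] [NormedSpace ℝ F] [FiniteDimensional ℝ F]

theorem ext_between {A U : Set E} (hA : IsClosed A) (hU : IsOpen U) (h : A ⊆ U) :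
    ∃ B : Set E, IsClosed B ∧ A ⊆ interior B ∧ B ⊆ U ∧ (IsCompact A → IsCompact B) := by
  by_cases hc : IsCompact A
  · obtain ⟨B, h1, h2, h3⟩ := exists_compact_between hc hU h
    exact ⟨B, h1.isClosed, h2, h3, fun _ => h1⟩
  · obtain ⟨V, h1, h2, h3⟩ := normal_exists_closure_subset hA hU h
    exact ⟨closure V, isClosed_closure, h2.trans (interior_maximal subset_closure h1), h3,
      fun h => absurd h hc⟩

theorem ext_smul {U : Set E} (hU : IsOpen U) {χ : E → ℝ} (hχ : ContDiff ℝ ∞ χ)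
    (hs : tsupport χ ⊆ U) {f : E → F} (hf : ContDiffOn ℝ ∞ f U) :
    ContDiff ℝ ∞ fun x => χ x • f x := by
  refine contDiff_iff_contDiffAt.2 fun x => ?_
  by_cases hx : x ∈ tsupport χ
  · exact hχ.contDiffAt.smul (hf.contDiffAt (hU.mem_nhds (hs hx)))
  · refine (contDiffAt_const (c := (0 : F))).congr_of_eventuallyEq ?_
    filter_upwards [notMem_tsupport_iff_eventuallyEq.1 hx] with y hy
    simp [hy]

theorem exists_cutoff {A U : Set E} (hA : IsClosed A) (hU : IsOpen U) (h : A ⊆ U) :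
    ∃ χ : E → ℝ, ContDiff ℝ ∞ χ ∧ (∀ x, χ x ∈ Icc (0 : ℝ) 1) ∧ (∀ᶠ x in 𝓝ˢ A, χ x = 1) ∧
      tsupport χ ⊆ U ∧ (IsCompact A → HasCompactSupport χ) := by
  obtain ⟨B, hB, h1, h2, h3⟩ := ext_between hA hU h
  obtain ⟨f, f1, f0, f2⟩ := exists_contMDiffMap_one_nhds_of_subset_interior (n := ⊤)
    (modelWithCornersSelf ℝ E) hA h1
  have h4 : tsupport f ⊆ B := closure_minimal (fun x hx => by_contra fun h => hx (f0 x h)) hB
  exact ⟨f, f.contMDiff.contDiff, f2, f1, h4.trans h2,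
    fun hc => (h3 hc).of_isClosed_subset (isClosed_tsupport _) h4⟩

theorem exists_smooth_nhdsSet {A U : Set E} (hA : IsClosed A) (hU : IsOpen U) (h : A ⊆ U)
    {f : E → F} (hf : ContDiffOn ℝ ∞ f U) :
    ∃ g : E → F, ContDiff ℝ ∞ g ∧ (∀ᶠ x in 𝓝ˢ A, g x = f x) ∧ tsupport g ⊆ U ∧
      (IsCompact A → HasCompactSupport g) := by
  obtain ⟨χ, h1, -, h2, h3, h4⟩ := exists_cutoff hA hU h
  refine ⟨fun x => χ x • f x, ext_smul hU h1 h3 hf, h2.mono fun x hx => by simp [hx],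
    (tsupport_smul_subset_left _ _).trans h3, fun hc => (h4 hc).smul_right⟩

theorem exists_smooth_nhds {U : Set E} (hU : IsOpen U) {x : E} (hx : x ∈ U) {f : E → F}
    (hf : ContDiffOn ℝ ∞ f U) : ∃ g : E → F, ContDiff ℝ ∞ g ∧ g =ᶠ[𝓝 x] f := by
  obtain ⟨g, h1, h2, -⟩ := exists_smooth_nhdsSet isClosed_singleton hU
    (singleton_subset_iff.2 hx) hf
  exact ⟨g, h1, by rwa [nhdsSet_singleton] at h2⟩

theorem ext_imp {p : Prop} {C : Set F} (h : Convex ℝ C) : Convex ℝ {y | p → y ∈ C} :=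
  fun _ hx _ hy _ _ ha hb hab hp => h (hx hp) (hy hp) ha hb hab

theorem ext_convex {S A : Set E} (hA : IsClosed A) {C : E → Set F}
    (hC : ∀ x, Convex ℝ (C x))
    (hf : ∀ x ∈ A, ∃ g : E → F, ContDiff ℝ ∞ g ∧ ∀ᶠ y in 𝓝[S] x, g y ∈ C y) :
    ∃ (g : E → F) (U : Set E), ContDiff ℝ ∞ g ∧ IsOpen U ∧ A ⊆ U ∧ (∀ y ∈ S ∩ U, g y ∈ C y) ∧
      (IsCompact A → HasCompactSupport g) := by
  have hO : IsOpen {x | ∃ g : E → F, ContDiff ℝ ∞ g ∧ ∀ᶠ y in 𝓝 x, y ∈ S → g y ∈ C y} := by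
    refine isOpen_iff_mem_nhds.2 ?_
    rintro x ⟨g, h1, h2⟩
    exact h2.eventually_nhds.mono fun y hy => ⟨g, h1, hy⟩
  obtain ⟨B, hB, h1, h2, h3⟩ := ext_between hA hO fun x hx =>
    (hf x hx).imp fun _ hg => ⟨hg.1, eventually_nhdsWithin_iff.1 hg.2⟩
  obtain ⟨g, hg⟩ := exists_contMDiffMap_forall_mem_convex_of_local (n := ⊤)
    (modelWithCornersSelf ℝ E) (t := fun x => {y | x ∈ B → x ∈ S → y ∈ C x})
    (fun x => ext_imp (ext_imp (hC x)))
    (fun x => by
      by_cases hx : x ∈ B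
      · obtain ⟨g, g1, g2⟩ := h2 hx
        exact ⟨_, g2, g, g1.contMDiff.contMDiffOn, fun y hy _ => hy⟩
      · exact ⟨Bᶜ, hB.isOpen_compl.mem_nhds hx, fun _ => 0, contMDiffOn_const,
          fun y hy h => absurd h hy⟩)
  obtain ⟨g', k1, k2, -, k3⟩ := exists_smooth_nhdsSet hA isOpen_interior h1
    g.contMDiff.contDiff.contDiffOn
  obtain ⟨V, v1, v2, v3⟩ := mem_nhdsSet_iff_exists.1 k2
  refine ⟨g', V ∩ interior B, k1, v1.inter isOpen_interior, subset_inter v2 h1, fun y hy => ?_, k3⟩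
  rw [show g' y = g y from v3 hy.2.1]
  exact hg y (interior_subset hy.2.2) hy.1

/-- What is locally, along `S`, the restriction of a smooth function near each point of the closed
set `A` is the restriction of a global smooth function on a neighbourhood of `A` in `S`. -/
theorem exists_smooth_ext {S A : Set E} (hA : IsClosed A) {f : E → F}
    (hf : ∀ x ∈ A, ∃ g : E → F, ContDiff ℝ ∞ g ∧ f =ᶠ[𝓝[S] x] g) :
    ∃ (g : E → F) (U : Set E), ContDiff ℝ ∞ g ∧ IsOpen U ∧ A ⊆ U ∧ EqOn g f (S ∩ U) ∧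
      (IsCompact A → HasCompactSupport g) :=
  ext_convex hA (C := fun y => {f y}) (fun _ => convex_singleton _) fun x hx =>
    (hf x hx).imp fun _ hg => ⟨hg.1, hg.2.symm⟩

/-- Gluing local solutions of a convex problem. -/
theorem exists_smooth_convex {S A : Set E} (hA : IsClosed A) {C : E → Set F}
    (hC : ∀ x, Convex ℝ (C x))
    (hf : ∀ x ∈ A, ∃ g : E → F, ContDiff ℝ ∞ g ∧ ∀ᶠ y in 𝓝[S] x, g y ∈ C y) :
    ∃ (g : E → F) (U : Set E), ContDiff ℝ ∞ g ∧ IsOpen U ∧ A ⊆ U ∧ (∀ y ∈ S ∩ U, g y ∈ C y) ∧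
      (IsCompact A → HasCompactSupport g) :=
  ext_convex hA hC hf

/-- Smooth approximation, relative to a closed set `B` near which `f` is already smooth. -/
theorem exists_smooth_approx {A B : Set E} (hA : IsClosed A) (hB : IsClosed B) {f h : E → F}
    (hf : ContinuousOn f A) (hh : ContDiff ℝ ∞ h) (hB' : ∀ᶠ x in 𝓝ˢ B, x ∈ A → f x = h x)
    {ε : ℝ} (hε : 0 < ε) :
    ∃ g : E → F, ContDiff ℝ ∞ g ∧ (∀ x ∈ A, ‖g x - f x‖ < ε) ∧ ∀ᶠ x in 𝓝ˢ B, g x = h x := by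
  obtain ⟨O, hO, hBO, h1⟩ := mem_nhdsSet_iff_exists.1 hB'
  obtain ⟨B', hc, h2, h3, -⟩ := ext_between hB hO hBO
  obtain ⟨g, U, g1, -, g2, g3, -⟩ := ext_convex (S := univ) isClosed_univ
    (C := fun x => {y | (x ∈ A → y ∈ Metric.ball (f x) ε) ∧ (x ∈ B' → y = h x)})
    (fun x => (ext_imp (convex_ball (f x) ε)).inter (ext_imp (convex_singleton (h x))))
    (fun x _ => by
      rw [nhdsWithin_univ]
      by_cases hx : x ∈ B'
      · refine ⟨h, hh, ?_⟩
        filter_upwards [hO.mem_nhds (h3 hx)] with y hy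
        exact ⟨fun hy' => by rw [h1 hy hy']; exact Metric.mem_ball_self hε, fun _ => rfl⟩
      · refine ⟨fun _ => f x, contDiff_const, ?_⟩
        have h4 : ∀ᶠ y in 𝓝 x, y ∈ A → f x ∈ Metric.ball (f y) ε := by
          by_cases hx' : x ∈ A
          · filter_upwards [eventually_nhdsWithin_iff.1
              ((hf x hx').eventually (Metric.ball_mem_nhds _ hε))] with y hy hy'
            exact Metric.mem_ball_comm.1 (hy hy')
          · filter_upwards [hA.isOpen_compl.mem_nhds hx'] with y hy hy'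
            exact absurd hy' hy
        filter_upwards [h4, hc.isOpen_compl.mem_nhds hx] with y hy hy'
        exact ⟨hy, fun h => absurd h hy'⟩)
  have g4 := fun x => g3 x ⟨mem_univ x, g2 (mem_univ x)⟩
  refine ⟨g, g1, fun x hx => by simpa [dist_eq_norm] using (g4 x).1 hx, ?_⟩
  filter_upwards [isOpen_interior.mem_nhdsSet.2 h2] with x hx
  exact (g4 x).2 (interior_subset hx)

theorem exists_cont_ext {A : Set E} (hA : IsClosed A) {f : E → F} (hf : ContinuousOn f A) :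
    ∃ g : E → F, Continuous g ∧ EqOn g f A := by
  obtain ⟨g, hg⟩ := ContinuousMap.exists_restrict_eq hA ⟨A.domRestrict f, hf.domRestrict⟩
  exact ⟨g, g.continuous, fun x hx => congrArg (fun k : C(A, F) => k ⟨x, hx⟩) hg⟩

end Pool.Agent.Lib.MP_ccffa6_gt
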