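import Pool.Agent.Lib.MP_ccffa6_gt.K.Lin
import Pool.Agent.Lib.MP_ccffa6_gt.K.Diffeo0
import Pool.Agent.Lib.MP_ccffa6_gt.K.Ext

open Set Filter Topology
open scoped ContDiff

noncomputable section

namespace Pool.Agent.Lib.MP_ccffa6_gt

variable {E : Type} [NormedAddCommGroup E] [NormedSpace ℝ E] [FiniteDimensional ℝ E]
  {E' : Type} [NormedAddCommGroup E'] [NormedSpace ℝ E'] [FiniteDimensional ℝ E']
  {F : Type} [NormedAddCommGroup F] [NormedSpace ℝ F] [FiniteDimensional ℝ F]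

theorem contDiff_dF {α : Form1 E} (h : ContDiff ℝ ∞ α) : ContDiff ℝ ∞ (dF α) := by
  have h1 : ContDiff ℝ ∞ (fderiv ℝ α) := h.fderiv_right (by simp)
  refine contDiff_clm_apply_iff.2 fun u => contDiff_clm_apply_iff.2 fun v => ?_
  simp only [dF_apply]
  exact ((h1.clm_apply contDiff_const).clm_apply contDiff_const).sub
    ((h1.clm_apply contDiff_const).clm_apply contDiff_const)

theorem contDiff_symz {α : Form1 E} (h : ContDiff ℝ ∞ α) : ContDiff ℝ ∞ (symz α) := by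
  refine contDiff_clm_apply_iff.2 fun u => contDiff_clm_apply_iff.2 fun v => ?_
  simp only [symz_apply]
  exact (((contDiff_dF h).clm_apply contDiff_const).clm_apply contDiff_const).add
    ((contDiff_const.mul (h.clm_apply contDiff_const)).sub
      ((h.clm_apply contDiff_const).mul contDiff_const))

theorem contDiff_pb {φ : E → E'} {α : Form1 E'} (hφ : ContDiff ℝ ∞ φ) (h : ContDiff ℝ ∞ α) :
    ContDiff ℝ ∞ (pb φ α) :=
  (h.comp hφ).clm_comp (hφ.fderiv_right (by simp))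

theorem dF_pb {φ : E → E'} {α : Form1 E'} {x : E} (hφ : ContDiffAt ℝ 2 φ x)
    (h : DifferentiableAt ℝ α (φ x)) (u v : E) :
    dF (pb φ α) x u v = dF α (φ x) (fderiv ℝ φ x u) (fderiv ℝ φ x v) := by
  have h1 := h.hasFDerivAt.comp x (hφ.differentiableAt two_ne_zero).hasFDerivAt
  have h2 := ((hφ.fderiv_right (m := 1) le_rfl).differentiableAt one_ne_zero).hasFDerivAt
  have h3 : fderiv ℝ (pb φ α) x = _ := (h1.clm_comp h2).fderiv
  have h4 := hφ.isSymmSndFDerivAt (by simp) u v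
  rw [dF_apply, dF_apply, h3]
  simp [h4]

theorem dF_fderiv {g : E → ℝ} {x : E} (hg : ContDiffAt ℝ 2 g x) : dF (fderiv ℝ g) x = 0 := by
  ext u v
  rw [dF_apply, hg.isSymmSndFDerivAt (by simp) u v, sub_self]
  rfl

theorem dF_add {α β : Form1 E} {x : E} (h : DifferentiableAt ℝ α x) (h' : DifferentiableAt ℝ β x) :
    dF (fun y => α y + β y) x = dF α x + dF β x := by
  ext u v
  simp only [dF_apply, add_apply, fderiv_fun_add h h']
  ring

theorem dF_smul {g : E → ℝ} {α : Form1 E} {x : E} (hg : DifferentiableAt ℝ g x)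
    (h : DifferentiableAt ℝ α x) (u v : E) : dF (fun y => g y • α y) x u v =
      fderiv ℝ g x u * α x v - fderiv ℝ g x v * α x u + g x * dF α x u v := by
  simp only [dF_apply, fderiv_fun_smul hg h, add_apply,
    smul_apply, ContinuousLinearMap.smulRight_apply, smul_eq_mul]
  ring

/-- `d` only depends on the restriction to the submanifold. -/
theorem Chart.dF_congr {S : Set E} {x : E} {φ : F → E} {ψ : E → F} (h : Chart S x φ ψ)
    (hx : x ∈ S) {α β : Form1 E} (hα : DifferentiableAt ℝ α x) (hβ : DifferentiableAt ℝ β x)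
    (he : ∀ᶠ y in 𝓝[S] x, ∀ v ∈ Tan S y, α y v = β y v) {u v : E} (hu : u ∈ Tan S x)
    (hv : v ∈ Tan S x) : dF α x u v = dF β x u v := by
  obtain ⟨a, rfl⟩ := (h.mem_tan hx u).1 hu
  obtain ⟨b, rfl⟩ := (h.mem_tan hx v).1 hv
  have e := h.self hx
  have h1 : ContDiffAt ℝ 2 φ (ψ x) := h.smφ.contDiffAt.of_le (by norm_cast)
  have h2 : Tendsto φ (𝓝 (ψ x)) (𝓝[S] x) := tendsto_nhdsWithin_iff.2
    ⟨h.smφ.continuous.tendsto' _ _ e, h.right.mono fun _ h => h.1⟩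
  have h3 : pb φ α =ᶠ[𝓝 (ψ x)] pb φ β := by
    filter_upwards [h2.eventually he, h.right.eventually_nhds] with z h4 h5
    refine ContinuousLinearMap.ext fun w => h4 _ (Tan.map (S := univ)
      (h.smφ.differentiable (by simp) z) (nhdsWithin_le_nhds (h5.mono fun _ h => h.1)) ?_)
    rw [Tan.of_mem_nhds univ_mem]
    trivial
  have h4 := dF_pb h1 (e.symm ▸ hα) a b
  have h5 := dF_pb h1 (e.symm ▸ hβ) a b
  rw [e] at h4 h5
  rw [← h4, ← h5, dF, dF, h3.fderiv_eq]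

theorem EqT.dF_eq {d : ℕ} {S : Set E} (hS : IsSub d S) {α β : Form1 E} (hα : ContDiff ℝ ∞ α)
    (hβ : ContDiff ℝ ∞ β) (he : EqT S α β) {x : E} (hx : x ∈ S) {u v : E} (hu : u ∈ Tan S x)
    (hv : v ∈ Tan S x) : dF α x u v = dF β x u v := by
  obtain ⟨φ, ψ, h⟩ := hS x hx
  exact h.dF_congr hx (hα.differentiable (by simp) x) (hβ.differentiable (by simp) x)
    (eventually_nhdsWithin_of_forall he) hu hv

theorem symz_pb {φ : E → E'} {α : Form1 E'} (hφ : ContDiff ℝ ∞ φ) (h : ContDiff ℝ ∞ α) (x : E) :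
    symz (pb φ α) x = pb2 φ (symz α) x := by
  refine ContinuousLinearMap.ext fun u => ContinuousLinearMap.ext fun v => ?_
  rw [pb2_apply, symz_apply, symz_apply,
    dF_pb (hφ.contDiffAt.of_le (by norm_cast)) (h.differentiable (by simp) _)]
  rfl

theorem CMan.congr {n : ℕ} {S : Set E} {α β : Form1 E} (h : CMan n S α) (hβ : ContDiff ℝ ∞ β)
    (he : EqT S α β) : CMan n S β :=
  ⟨h.cl, hβ, fun x hx => (h.nd x hx).congr fun u hu v hv => by
    rw [mem_T1] at hu hv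
    rw [symz_apply, symz_apply, he.dF_eq h.cl.sub h.sm hβ hx hu hv, he x hx _ hu, he x hx _ hv]⟩

theorem CMan.diff {n : ℕ} {S : Set E} {S' : Set E'} {φ : E → E'} {ψ : E' → E} (hd : Diff S S' φ ψ)
    {β : Form1 E'} (h : CMan n S' β) : CMan n S (pb φ β) := by
  refine ⟨hd.symm.closed h.cl, contDiff_pb hd.smφ h.sm, fun x hx => ?_⟩
  have hb := hd.tan_bijOn hx
  rw [symz_pb hd.smφ h.sm]
  refine (h.nd _ (hd.mapφ hx)).comp ⟨fun u hu => mem_T1.2 (hb.mapsTo (mem_T1.1 hu)),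
    fun u hu v hv e => Prod.ext (hb.injOn (mem_T1.1 hu) (mem_T1.1 hv) (congrArg Prod.fst e))
      (congrArg Prod.snd e :), fun v hv => ?_⟩
  obtain ⟨u, hu, e⟩ := hb.surjOn (mem_T1.1 hv)
  exact ⟨(u, v.2), mem_T1.2 hu, Prod.ext e rfl⟩

theorem CMan.smul {n : ℕ} {S : Set E} {α : Form1 E} (h : CMan n S α) {g : E → ℝ}
    (hg : ContDiff ℝ ∞ g) (h0 : ∀ x ∈ S, g x ≠ 0) : CMan n S (fun x => g x • α x) := by
  refine ⟨h.cl, hg.smul h.sm, fun x hx => ?_⟩
  obtain ⟨⟨v, hv, h1⟩, h2⟩ := nd_symz_iff.1 (h.nd x hx)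
  have h3 := h0 x hx
  refine nd_symz_iff.2 ⟨⟨v, hv, mul_ne_zero h3 h1⟩, fun u hu h4 h5 => ?_⟩
  have h6 : α x u = 0 := (mul_eq_zero.1 h4).resolve_left h3
  refine h2 u hu h6 fun w hw h7 => ?_
  have h8 := h5 w hw (mul_eq_zero_of_right _ h7)
  rw [dF_smul (hg.differentiable (by simp) x) (h.sm.differentiable (by simp) x), h6, h7] at h8
  simpa [h3] using h8

theorem CMan.formal {n : ℕ} {S : Set E} {α : Form1 E} (h : CMan n S α) : Formal S (symz α) :=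
  ⟨(contDiff_symz h.sm).continuous.continuousOn, h.nd⟩

theorem Hyp.congr {d : ℕ} {S : Set E} (hS : IsSub d S) {α β : Form1 E} (hα : ContDiff ℝ ∞ α)
    (hβ : ContDiff ℝ ∞ β) (he : EqT S α β) (h : Hyp S α) : Hyp S β := fun γ γ' T h0 h1 h2 h3 h4 =>
  h γ γ' T h0 h1 h2 h3 fun t => ⟨(h4 t).1, (he _ (h2 t) _ (h4 t).1).trans (h4 t).2.1,
    fun w hw => (he.dF_eq hS hα hβ (h2 t) (h4 t).1 hw).trans ((h4 t).2.2 w hw)⟩

theorem Hyp.diff {S : Set E} {S' : Set E'} {φ : E → E'} {ψ : E' → E} (hd : Diff S S' φ ψ)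
    {β : Form1 E'} (hβ : ContDiff ℝ ∞ β) (h : Hyp S' β) : Hyp S (pb φ β) := by
  intro γ γ' T h0 h1 h2 h3 h4
  have hφ : ∀ x, ContDiffAt ℝ 2 φ x := fun x => hd.smφ.contDiffAt.of_le (by norm_cast)
  obtain ⟨θ, h5, h6, h7⟩ := h (fun t => φ (γ t)) (fun t => fderiv ℝ φ (γ t) (γ' t)) T h0
    (fun t => congrArg φ (h1 t)) (fun t => hd.mapφ (h2 t))
    (fun t => (hd.smφ.differentiable (by simp) _).hasFDerivAt.comp_hasDerivAt t (h3 t))
    fun t => ⟨(hd.tan_bijOn (h2 t)).mapsTo (h4 t).1, (h4 t).2.1, fun w hw => by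
      obtain ⟨u, hu, rfl⟩ := (hd.tan_bijOn (h2 t)).surjOn hw
      exact (dF_pb (hφ _) (hβ.differentiable (by simp) _) _ _).symm.trans ((h4 t).2.2 u hu)⟩
  exact ⟨pb φ θ, contDiff_pb hd.smφ h5, fun x hx u hu v hv =>
    (dF_pb (hφ x) (h5.differentiable (by simp) _) u v).trans (h6 _ (hd.mapφ hx) _
      ((hd.tan_bijOn hx).mapsTo hu) _ ((hd.tan_bijOn hx).mapsTo hv)), h7⟩

theorem kforms_loc {S : Set E} {x : E} {φ : F → E} {ψ : E → F} (h : Chart S x φ ψ) (hx : x ∈ S)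
    {w : E → Bil E} (hw : ContDiff ℝ ∞ w) (hn : ND (Tan S x) (w x))
    (ha : ∀ x ∈ S, ∀ u ∈ Tan S x, w x u u = 0) {g : Form1 E} (hg : ContDiff ℝ ∞ g) :
    ∃ X : E → E, ContDiff ℝ ∞ X ∧ ∀ᶠ y in 𝓝[S] x,
      ND (Tan S y) (w y) ∧ X y ∈ Tan S y ∧ ∀ v ∈ Tan S y, w y (X y) v = g y v := by
  let W : F → F →L[ℝ] F →L[ℝ] ℝ := fun z => (w (φ z)).bilinearComp (fderiv ℝ φ z) (fderiv ℝ φ z)
  have hD : ContDiff ℝ ∞ (fderiv ℝ φ) := h.smφ.fderiv_right (by simp)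
  have hW : ContDiff ℝ ∞ W := contDiff_clm_apply_iff.2 fun u => contDiff_clm_apply_iff.2 fun v =>
    ((hw.comp h.smφ).clm_apply (hD.clm_apply contDiff_const)).clm_apply
      (hD.clm_apply contDiff_const)
  have hU : IsOpen {y | (W (ψ y)).IsInvertible} :=
    ContinuousLinearEquiv.isOpen.preimage (hW.continuous.comp h.smψ.continuous)
  have h0 : (W (ψ x)).IsInvertible := by
    have hi : Function.Injective (W (ψ x)) := (injective_iff_map_eq_zero _).2 fun a e => by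
      have h1 := hn.2 _ ((h.mem_tan hx _).2 ⟨a, rfl⟩) fun v hv => by
        obtain ⟨b, rfl⟩ := (h.mem_tan hx v).1 hv
        have := DFunLike.congr_fun e b
        rwa [ContinuousLinearMap.bilinearComp_apply, h.self hx] at this
      rw [← h.left_inv_fderiv hx a, h1, map_zero]
    exact ⟨((W (ψ x) : F →ₗ[ℝ] F →L[ℝ] ℝ).linearEquivOfInjective hi
      (Subspace.dual_finrank_eq.symm.trans
        LinearMap.toContinuousLinearMap.finrank_eq)).toContinuousLinearEquiv, rfl⟩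
  obtain ⟨X, h1, h2⟩ := exists_smooth_nhds hU h0
    (f := fun y => fderiv ℝ φ (ψ y) ((W (ψ y)).inverse (pb φ g (ψ y)))) fun y hy =>
      ((hD.comp h.smψ).contDiffAt.clm_apply ((ContDiffAt.comp (f := W ∘ ψ) y
        (ContinuousLinearMap.IsInvertible.contDiffAt_map_inverse hy)
        (hW.comp h.smψ).contDiffAt).clm_apply
          ((contDiff_pb h.smφ hg).comp h.smψ).contDiffAt)).contDiffWithinAt
  refine ⟨X, h1, ?_⟩
  filter_upwards [h.eventually, self_mem_nhdsWithin, nhdsWithin_le_nhds h2,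
    nhdsWithin_le_nhds (hU.mem_nhds h0)] with y h3 hy h4 h5
  refine ⟨⟨ha y hy, fun u hu h6 => ?_⟩, (h3.mem_tan hy _).2 ⟨_, h4.symm⟩, fun v hv => ?_⟩
  · obtain ⟨a, rfl⟩ := (h3.mem_tan hy u).1 hu
    have h7 : W (ψ y) a = 0 := ContinuousLinearMap.ext fun b => by
      rw [ContinuousLinearMap.bilinearComp_apply, h3.self hy]
      exact h6 _ ((h3.mem_tan hy _).2 ⟨b, rfl⟩)
    rw [h5.injective (h7.trans (map_zero _).symm), map_zero]
  · obtain ⟨b, rfl⟩ := (h3.mem_tan hy v).1 hv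
    have h7 := DFunLike.congr_fun (h5.self_apply_inverse (pb φ g (ψ y))) b
    rwa [ContinuousLinearMap.bilinearComp_apply, ← h4, pb, h3.self hy] at h7

/-- Smooth dual vector field near a compact part (parameters: use `S ×ˢ univ`). -/
theorem IsSub.exists_dual {d : ℕ} {S A : Set E} (h : IsSub d S) (hA : IsCompact A) (hAS : A ⊆ S)
    {w : E → Bil E} (hw : ContDiff ℝ ∞ w) (hn : ∀ x ∈ A, ND (Tan S x) (w x))
    (ha : ∀ x ∈ S, ∀ u ∈ Tan S x, w x u u = 0) {g : Form1 E} (hg : ContDiff ℝ ∞ g) :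
    ∃ (X : E → E) (U : Set E), ContDiff ℝ ∞ X ∧ HasCompactSupport X ∧ IsOpen U ∧ A ⊆ U ∧
      ∀ x ∈ S ∩ U, ND (Tan S x) (w x) ∧ X x ∈ Tan S x ∧ ∀ v ∈ Tan S x, w x (X x) v = g x v := by
  obtain ⟨X, U, h1, h2, h3, h4, h5⟩ := exists_smooth_convex (S := S) hA.isClosed
    (C := fun x => {X | ND (Tan S x) (w x) ∧ X ∈ Tan S x ∧ ∀ v ∈ Tan S x, w x X v = g x v})
    (fun x X hX Y hY a b _ _ hab => ⟨hX.1, add_mem (Submodule.smul_mem _ a hX.2.1)
      (Submodule.smul_mem _ b hY.2.1), fun v hv => by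
        simp only [map_add, map_smul, add_apply,
          smul_apply, hX.2.2 v hv, hY.2.2 v hv, smul_eq_mul]
        rw [← add_mul, hab, one_mul]⟩)
    fun x hx => (h x (hAS hx)).elim fun _ h => h.elim fun _ h =>
      kforms_loc h (hAS hx) hw (hn x hx) ha hg
  exact ⟨X, U, h1, h5 hA, h2, h3, h4⟩

theorem kforms_dual {n : ℕ} {S : Set E} {α : Form1 E} (h : CMan n S α) {G : E → E × ℝ →L[ℝ] ℝ}
    (hG : ContDiff ℝ ∞ G) : ∃ Y : E → E × ℝ, ContDiff ℝ ∞ Y ∧ ∀ x ∈ S, (Y x).1 ∈ Tan S x ∧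
      ∀ v : E × ℝ, v.1 ∈ Tan S x → symz α x (Y x) v = G x v := by
  have hR : IsSub _ (univ : Set ℝ) := isSub_of_isOpen isOpen_univ
  have hT : ∀ p ∈ S ×ˢ (univ : Set ℝ), Tan (S ×ˢ univ) p = T1 S p.1 := fun p hp => by
    rw [h.cl.sub.tan_prod hR hp.1 hp.2, Tan.of_mem_nhds univ_mem]
    rfl
  obtain ⟨X, U, h1, -, -, h2, h3⟩ := (h.cl.sub.prod hR).exists_dual
    (h.cl.cpt.prod (isCompact_singleton (x := (0 : ℝ)))) (prod_mono_right (subset_univ _))
    (w := fun p => symz α p.1) ((contDiff_symz h.sm).comp contDiff_fst)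
    (fun p hp => hT p ⟨hp.1, trivial⟩ ▸ h.nd _ hp.1)
    (fun p hp u hu => (h.nd _ hp.1).1 u (hT p hp ▸ hu)) (g := fun p => G p.1) (hG.comp contDiff_fst)
  refine ⟨fun x => X (x, 0), h1.comp (contDiff_id.prodMk contDiff_const), fun x hx => ?_⟩
  have h4 := (h3 (x, 0) ⟨⟨hx, trivial⟩, h2 ⟨hx, rfl⟩⟩).2
  rw [hT (x, 0) ⟨hx, trivial⟩] at h4
  exact ⟨mem_T1.1 h4.1, fun v hv => h4.2 v (mem_T1.2 hv)⟩

theorem CMan.exists_reeb {n : ℕ} {S : Set E} {α : Form1 E} (h : CMan n S α) :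
    ∃ R : E → E, ContDiff ℝ ∞ R ∧ ∀ x ∈ S, IsReeb S α x (R x) := by
  obtain ⟨Y, h1, h2⟩ := kforms_dual h (G := fun _ => -ContinuousLinearMap.snd ℝ E ℝ) contDiff_const
  refine ⟨fun x => (Y x).1, h1.fst, fun x hx => ?_⟩
  obtain ⟨h3, h4⟩ := h2 x hx
  have h5 : α x (Y x).1 = 1 := by simpa [symz_apply] using h4 (0, 1) (zero_mem _)
  have h6 : (Y x).2 = 0 := by simpa [symz_apply, dF_apply, h5] using h4 ((Y x).1, 0) h3
  exact ⟨h3, h5, fun w hw => by simpa [symz_apply, h6] using h4 (w, 0) hw⟩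

theorem CMan.reeb_unique {n : ℕ} {S : Set E} {α : Form1 E} (h : CMan n S α) {x u v : E}
    (hx : x ∈ S) (hu : IsReeb S α x u) (hv : IsReeb S α x v) : u = v :=
  sub_eq_zero.1 ((nd_symz_iff.1 (h.nd x hx)).2 _ (sub_mem hu.1 hv.1)
    (by rw [map_sub, hu.2.1, hv.2.1, sub_self]) fun w hw _ => by
      rw [map_sub, sub_apply, hu.2.2 w hw, hv.2.2 w hw, sub_self])

theorem CMan.exists_ham {n : ℕ} {S : Set E} {α : Form1 E} (h : CMan n S α) {g : Form1 E}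
    (hg : ContDiff ℝ ∞ g) : ∃ X : E → E, ContDiff ℝ ∞ X ∧ ∀ x ∈ S, IsHam S α x (g x) (X x) := by
  obtain ⟨Y, h1, h2⟩ := kforms_dual h
    (G := fun x => (g x).comp (ContinuousLinearMap.fst ℝ E ℝ)) (hg.clm_comp contDiff_const)
  refine ⟨fun x => (Y x).1, h1.fst, fun x hx => ?_⟩
  obtain ⟨h3, h4⟩ := h2 x hx
  exact ⟨h3, by simpa [symz_apply] using h4 (0, 1) (zero_mem _),
    fun w hw h5 => by simpa [symz_apply, h5] using h4 (w, 0) hw⟩

theorem CMan.ham_unique {n : ℕ} {S : Set E} {α : Form1 E} (h : CMan n S α) {x u v : E}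
    {g : E →L[ℝ] ℝ} (hx : x ∈ S) (hu : IsHam S α x g u) (hv : IsHam S α x g v) : u = v :=
  sub_eq_zero.1 ((nd_symz_iff.1 (h.nd x hx)).2 _ (sub_mem hu.1 hv.1)
    (by rw [map_sub, hu.2.1, hv.2.1, sub_self]) fun w hw h0 => by
      rw [map_sub, sub_apply, hu.2.2 w hw h0, hv.2.2 w hw h0, sub_self])

end Pool.Agent.Lib.MP_ccffa6_gt
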