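import Pool.Agent.Lib.MP_ccffa6_gt.K.Ext

open Set Filter Topology
open scoped ContDiff

noncomputable section

namespace Pool.Agent.Lib.MP_ccffa6_gt

variable {E : Type} [NormedAddCommGroup E] [NormedSpace ℝ E] [FiniteDimensional ℝ E]
  {E' : Type} [NormedAddCommGroup E'] [NormedSpace ℝ E'] [FiniteDimensional ℝ E']
  {F : Type} [NormedAddCommGroup F] [NormedSpace ℝ F] [FiniteDimensional ℝ F]

omit [FiniteDimensional ℝ E] [FiniteDimensional ℝ F] in
theorem contDiff_cutoff_smul {U : Set E} (hU : IsOpen U) {χ : E → ℝ} (hχ : ContDiff ℝ ∞ χ)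
    (hs : tsupport χ ⊆ U) {f : E → F} (hf : ContDiffOn ℝ ∞ f U) :
    ContDiff ℝ ∞ fun x => χ x • f x := by
  refine contDiff_iff_contDiffAt.2 fun x => ?_
  by_cases hx : x ∈ tsupport χ
  · exact hχ.contDiffAt.smul (hf.contDiffAt (hU.mem_nhds (hs hx)))
  · refine (contDiffAt_const (c := (0 : F))).congr_of_eventuallyEq ?_
    filter_upwards [notMem_tsupport_iff_eventuallyEq.1 hx] with y hy
    rw [hy, Pi.zero_apply, zero_smul]

/-- Germ version. NB `ContDiffAt ℝ ∞ f x` alone is not enough. -/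
theorem exists_smooth_germ {x : E} {f : E → F} (hf : ∀ᶠ y in 𝓝 x, ContDiffAt ℝ ∞ f y) :
    ∃ g : E → F, ContDiff ℝ ∞ g ∧ g =ᶠ[𝓝 x] f := by
  obtain ⟨U, h1, h2, h3⟩ := mem_nhds_iff.1 hf
  exact exists_smooth_nhds h2 h3 fun y hy =>
    ContDiffAt.contDiffWithinAt (show ContDiffAt ℝ ∞ f y from h1 hy)

/-- Smooth approximation of a continuous section of a family of convex sets: through every value
`f x` there has to be a local smooth section. -/
theorem exists_smooth_approx_convex {A : Set E} (hA : IsClosed A) {C : E → Set F}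
    (hC : ∀ x, Convex ℝ (C x)) {f : E → F} (hf : ContinuousOn f A)
    (hl : ∀ x ∈ A, ∃ g : E → F, ContDiff ℝ ∞ g ∧ g x = f x ∧ ∀ᶠ y in 𝓝[A] x, g y ∈ C y)
    {ε : E → ℝ} (hε : ContinuousOn ε A) (h0 : ∀ x ∈ A, 0 < ε x) :
    ∃ g : E → F, ContDiff ℝ ∞ g ∧ ∀ x ∈ A, g x ∈ C x ∧ ‖g x - f x‖ < ε x := by
  obtain ⟨g, U, h1, _, h2, h3, _⟩ := exists_smooth_convex (S := A) hA
    (C := fun x => C x ∩ Metric.ball (f x) (ε x))
    (fun x => (hC x).inter (convex_ball _ _)) fun x hx => by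
      obtain ⟨g, h1, h2, h3⟩ := hl x hx
      refine ⟨g, h1, h3.and ?_⟩
      have h4 : ContinuousWithinAt (fun y => ε y - ‖g y - f y‖) A x :=
        (hε x hx).sub (h1.continuous.continuousWithinAt.sub (hf x hx)).norm
      have h5 : 0 < ε x - ‖g x - f x‖ := by
        rw [h2, sub_self, norm_zero, sub_zero]
        exact h0 x hx
      filter_upwards [h4.eventually (lt_mem_nhds h5)] with y hy
      rw [mem_ball_iff_norm]
      exact sub_pos.1 hy
  exact ⟨g, h1, fun x hx => ⟨(h3 x ⟨hx, h2 hx⟩).1, mem_ball_iff_norm.1 (h3 x ⟨hx, h2 hx⟩).2⟩⟩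

/-- Tietze extension on any normal space. -/
theorem exists_cont_ext' {X : Type} [TopologicalSpace X] [NormalSpace X] {A : Set X}
    (hA : IsClosed A) {f : X → F} (hf : ContinuousOn f A) :
    ∃ g : X → F, Continuous g ∧ EqOn g f A := by
  have := TietzeExtension.of_tvs ℝ (E := F)
  obtain ⟨g, hg⟩ := ContinuousMap.exists_restrict_eq hA ⟨A.domRestrict f, hf.domRestrict⟩
  exact ⟨g, g.continuous, fun x hx => DFunLike.congr_fun hg ⟨x, hx⟩⟩

/-- A closed neighbourhood of a closed set inside an open set. -/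
theorem exists_closed_between {A U : Set E} (hA : IsClosed A) (hU : IsOpen U) (h : A ⊆ U) :
    ∃ B : Set E, IsClosed B ∧ A ⊆ interior B ∧ B ⊆ U ∧ (IsCompact A → IsCompact B) := by
  obtain ⟨χ, _, _, h1, h2, h3⟩ := exists_cutoff hA hU h
  refine ⟨tsupport χ, isClosed_tsupport χ, ?_, h2, h3⟩
  refine subset_interior_iff_mem_nhdsSet.2 (h1.mono fun x hx => subset_tsupport χ ?_)
  rw [Function.mem_support, hx]
  exact one_ne_zero

end Pool.Agent.Lib.MP_ccffa6_gt
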