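import Pool.Agent.Lib.MP_ccffa6_gt.K.TanX
import Pool.Agent.Lib.MP_ccffa6_gt.K.ExtX

open Set Filter Topology
open scoped ContDiff

noncomputable section

namespace Pool.Agent.Lib.MP_ccffa6_gt

variable {E : Type} [NormedAddCommGroup E] [NormedSpace ℝ E] [FiniteDimensional ℝ E]
  {E' : Type} [NormedAddCommGroup E'] [NormedSpace ℝ E'] [FiniteDimensional ℝ E']
  {F : Type} [NormedAddCommGroup F] [NormedSpace ℝ F] [FiniteDimensional ℝ F]

theorem projy_conj {S : Set E} {Q : E → F →L[ℝ] F} (hQ : ContDiff ℝ ∞ Q)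
    (hi : ∀ x ∈ S, ∀ v, Q x (Q x v) = Q x v) {x : E} (hx : x ∈ S) :
    ∃ U V : E → F →L[ℝ] F, ContDiff ℝ ∞ U ∧ ContDiff ℝ ∞ V ∧ U x = 1 ∧
      (∀ y ∈ S, ∀ v, Q y (U y v) = U y (Q x v)) ∧
      ∀ᶠ y in 𝓝 x, (∀ v, U y (V y v) = v) ∧ ∀ v, V y (U y v) = v := by
  have : CompleteSpace F := FiniteDimensional.complete ℝ F
  let U : E → F →L[ℝ] F := fun y => Q y * Q x + (1 - Q y) * (1 - Q x)
  have hU : ContDiff ℝ ∞ U :=
    (hQ.mul contDiff_const).add ((contDiff_const.sub hQ).mul contDiff_const)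
  have h1 : U x = 1 := by
    ext v
    simp [U, hi x hx]
  have h2 : ∀ᶠ y in 𝓝 x, IsUnit (U y) :=
    hU.continuous.continuousAt.eventually (Units.isOpen.mem_nhds (by simp [h1]))
  obtain ⟨V, hV, hV'⟩ := exists_smooth_germ (x := x) (f := fun y => Ring.inverse (U y)) (by
    filter_upwards [h2] with y hy
    obtain ⟨u, hu⟩ := hy
    exact (hu ▸ contDiffAt_ringInverse ℝ u).comp y hU.contDiffAt)
  refine ⟨U, V, hU, hV, h1, fun y hy v => by simp [U, hi y hy, hi x hx], ?_⟩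
  filter_upwards [h2, hV'] with y hy hy'
  rw [hy']
  exact ⟨fun v => congrArg (fun A : F →L[ℝ] F => A v) (Ring.mul_inverse_cancel _ hy),
    fun v => congrArg (fun A : F →L[ℝ] F => A v) (Ring.inverse_mul_cancel _ hy)⟩

theorem projy_chart {d : ℕ} {S : Set E} {Q : E → F →L[ℝ] F} (hQ : ContDiff ℝ ∞ Q)
    (hi : ∀ x ∈ S, ∀ v, Q x (Q x v) = Q x v) {x : E} (hx : x ∈ S) {φ : Rd d → E} {ψ : E → Rd d}
    (hc : Chart S x φ ψ) : ∃ (U : E → F →L[ℝ] F) (β : E × F → (Q x).range), ContDiff ℝ ∞ U ∧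
      U x = 1 ∧ β (x, 0) = 0 ∧ ∀ v, Chart {p : E × F | p.1 ∈ S ∧ Q p.1 p.2 = p.2} (x, v)
        (fun q : Rd d × (Q x).range => (φ q.1, U (φ q.1) q.2)) fun p => (ψ p.1, β p) := by
  obtain ⟨U, V, hU, hV, h1, h2, h3⟩ := projy_conj hQ hi hx
  let π : F →L[ℝ] (Q x).range := (Q x).codRestrict _ fun v => ⟨v, rfl⟩
  have hπ : ∀ w : (Q x).range, Q x w = w := by
    rintro ⟨_, v, rfl⟩
    exact hi x hx v
  refine ⟨U, fun p => π (V p.1 p.2), hU, h1, by simp, fun v => ⟨?_, ?_, ?_, ?_⟩⟩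
  · exact (hc.smφ.comp contDiff_fst).prodMk ((hU.comp (hc.smφ.comp contDiff_fst)).clm_apply
      ((Q x).range.subtypeL.contDiff.comp contDiff_snd))
  · exact (hc.smψ.comp contDiff_fst).prodMk
      (π.contDiff.comp ((hV.comp contDiff_fst).clm_apply contDiff_snd))
  · have h4 : Tendsto (Prod.fst : E × F → E)
        (𝓝[{p : E × F | p.1 ∈ S ∧ Q p.1 p.2 = p.2}] (x, v)) (𝓝[S] x) :=
      (continuous_fst.continuousWithinAt (x := (x, v))).tendsto_nhdsWithin fun p hp => hp.1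
    filter_upwards [h4.eventually hc.left, (h4.mono_right nhdsWithin_le_nhds).eventually h3,
      self_mem_nhdsWithin] with p p1 p2 p3
    refine Prod.ext p1 ?_
    show U (φ (ψ p.1)) (Q x (V p.1 p.2)) = p.2
    rw [p1, ← h2 _ p3.1, p2.1, p3.2]
  · have h4 : Tendsto (Prod.fst : Rd d × (Q x).range → Rd d) (𝓝 (ψ x, π (V x v))) (𝓝 (ψ x)) :=
      continuous_fst.tendsto _
    filter_upwards [h4.eventually hc.right,
      h4.eventually (((hc.tendsto hx).mono_right nhdsWithin_le_nhds).eventually h3)] with q q1 q2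
    refine ⟨⟨q1.1, ?_⟩, Prod.ext q1.2 (Subtype.ext ?_)⟩
    · show Q (φ q.1) (U (φ q.1) q.2) = U (φ q.1) q.2
      rw [h2 _ q1.1, hπ]
    · show Q x (V (φ q.1) (U (φ q.1) q.2)) = q.2
      rw [q2.2, hπ]

/-- The total space of the range of a smooth field of projectors of rank `k`. -/
theorem IsSub.bundle {d k : ℕ} {S : Set E} (h : IsSub d S) {Q : E → F →L[ℝ] F}
    (hQ : ContDiff ℝ ∞ Q) (hi : ∀ x ∈ S, ∀ v, Q x (Q x v) = Q x v)
    (hk : ∀ x ∈ S, Module.finrank ℝ (Q x).range = k) :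
    IsSub (d + k) {p : E × F | p.1 ∈ S ∧ Q p.1 p.2 = p.2} ∧ ∀ x ∈ S, ∀ u : E × F,
      u ∈ Tan {p : E × F | p.1 ∈ S ∧ Q p.1 p.2 = p.2} (x, 0) ↔
        u.1 ∈ Tan S x ∧ Q x u.2 = u.2 := by
  refine ⟨fun p hp => ?_, fun x hx u => ?_⟩
  · obtain ⟨φ, ψ, hc⟩ := h p.1 hp.1
    obtain ⟨U, β, -, -, -, h1⟩ := projy_chart hQ hi hp.1 hc
    exact (h1 p.2).toRd (by rw [Module.finrank_prod, finrank_euclideanSpace_fin, hk _ hp.1])
  · obtain ⟨φ, ψ, hc⟩ := h x hx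
    obtain ⟨U, β, hU, h1, h2, h3⟩ := projy_chart hQ hi hx hc
    rw [(h3 0).mem_tan ⟨hx, map_zero _⟩, hc.mem_tan hx, h2]
    have h4 : HasFDerivAt (fun q : Rd d × (Q x).range => φ q.1)
        ((fderiv ℝ φ (ψ x)).comp (ContinuousLinearMap.fst ℝ _ _)) (ψ x, 0) :=
      HasFDerivAt.comp (ψ x, (0 : (Q x).range)) (g := φ)
        (hc.smφ.differentiable (by simp) _).hasFDerivAt hasFDerivAt_fst
    have h5 := (HasFDerivAt.comp (ψ x, (0 : (Q x).range))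
      (hU.differentiable (by simp) _).hasFDerivAt h4).clm_apply
      (((Q x).range.subtypeL.comp (ContinuousLinearMap.snd ℝ (Rd d) _)).hasFDerivAt)
    have h6 : fderiv ℝ (fun q : Rd d × (Q x).range => (φ q.1, U (φ q.1) q.2)) (ψ x, 0) = _ :=
      (h4.prodMk h5).fderiv
    have h7 : ∀ q : Rd d × (Q x).range, fderiv ℝ (fun q : Rd d × (Q x).range =>
        (φ q.1, U (φ q.1) q.2)) (ψ x, 0) q = (fderiv ℝ φ (ψ x) q.1, (q.2 : F)) := fun q => by
      rw [h6]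
      simp [hc.self hx, h1]
    simp only [h7]
    constructor
    · rintro ⟨⟨z, _, v, rfl⟩, rfl⟩
      exact ⟨⟨z, rfl⟩, hi x hx v⟩
    · rintro ⟨⟨z, hz⟩, h8⟩
      exact ⟨(z, ⟨u.2, u.2, h8⟩), Prod.ext hz rfl⟩

/-- The derivative of a retraction is a projector onto the tangent space. -/
theorem retr_fderiv {S U : Set E} (hU : IsOpen U) {r : E → E} (hr : ContDiff ℝ ∞ r)
    (hm : MapsTo r U S) (hi : ∀ x ∈ S ∩ U, r x = x) {x : E} (hx : x ∈ S ∩ U) :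
    (∀ v, fderiv ℝ r x v ∈ Tan S x) ∧ ∀ v ∈ Tan S x, fderiv ℝ r x v = v := by
  have h1 := hr.differentiable (by simp) x
  refine ⟨fun v => ?_, fun v hv => ?_⟩
  · have h2 := Tan.fderiv_mem (S := S) h1 (mem_of_superset (hU.mem_nhds hx.2) hm) v
    rwa [hi x hx] at h2
  · have h2 : r =ᶠ[𝓝[S] x] id := by
      filter_upwards [self_mem_nhdsWithin, mem_nhdsWithin_of_mem_nhds (hU.mem_nhds hx.2)]
        with y h3 h4 using hi y ⟨h3, h4⟩
    simpa using Tan.fderiv_congr hx.1 h1 differentiableAt_id h2 hv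

end Pool.Agent.Lib.MP_ccffa6_gt
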