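import Pool.Agent.Lib.MP_ccffa6_gt.K.TanX
import Pool.Agent.Lib.MP_ccffa6_gt.K.ExtX

open Set Filter Topology
open scoped ContDiff

noncomputable section

namespace Pool.Agent.Lib.MP_ccffa6_gt

variable {E : Type} [NormedAddCommGroup E] [NormedSpace ℝ E] [FiniteDimensional ℝ E]
  {E' : Type} [NormedAddCommGroup E'] [NormedSpace ℝ E'] [FiniteDimensional ℝ E']
  {F : Type} [NormedAddCommGroup F] [NormedSpace ℝ F] [FiniteDimensional ℝ F]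

/-- Smooth field of projectors onto the tangent spaces, near a closed part. -/
theorem IsSub.exists_proj_closed {d : ℕ} {S A : Set E} (h : IsSub d S) (hA : IsClosed A)
    (hAS : A ⊆ S) : ∃ (P : E → E →L[ℝ] E) (U : Set E), ContDiff ℝ ∞ P ∧ IsOpen U ∧ A ⊆ U ∧
      ∀ x ∈ S ∩ U, (∀ v, P x v ∈ Tan S x) ∧ ∀ v ∈ Tan S x, P x v = v := by
  obtain ⟨P, U, h1, h2, h3, h4, -⟩ := exists_smooth_convex (S := S) hA
    (C := fun x => {Q : E →L[ℝ] E | (∀ v, Q v ∈ Tan S x) ∧ ∀ v ∈ Tan S x, Q v = v})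
    (fun x Q hQ Q' hQ' a b _ _ hab => ⟨fun v =>
      add_mem (Submodule.smul_mem _ a (hQ.1 v)) (Submodule.smul_mem _ b (hQ'.1 v)), fun v hv => by
        change a • Q v + b • Q' v = v
        rw [hQ.2 v hv, hQ'.2 v hv, ← add_smul, hab, one_smul]⟩)
    fun x hx => h.exists_proj_local (hAS hx)
  exact ⟨P, U, h1, h2, h3, h4⟩

theorem Closed.exists_proj {d : ℕ} {S : Set E} (h : Closed d S) :
    ∃ P : E → E →L[ℝ] E, ContDiff ℝ ∞ P ∧
      ∀ x ∈ S, (∀ v, P x v ∈ Tan S x) ∧ ∀ v ∈ Tan S x, P x v = v := by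
  obtain ⟨P, U, h1, -, h3, h4⟩ := h.sub.exists_proj_closed h.cpt.isClosed subset_rfl
  exact ⟨P, h1, fun x hx => h4 x ⟨hx, h3 hx⟩⟩

theorem projx_local {d : ℕ} {S : Set E} (h : IsSub d S) {x₀ : E} (hx₀ : x₀ ∈ S) :
    ∃ K ε : ℝ, 0 ≤ K ∧ 0 < ε ∧ ∀ x ∈ S ∩ Metric.ball x₀ ε, ∀ y ∈ S ∩ Metric.ball x₀ ε,
      ∃ w ∈ Tan S x, ‖y - x - w‖ ≤ K * ‖y - x‖ ^ 2 := by
  obtain ⟨φ, ψ, c⟩ := h x₀ hx₀
  have hr : ContDiff ℝ ∞ (φ ∘ ψ) := c.smφ.comp c.smψ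
  have hd : ContDiff ℝ 1 (fderiv ℝ (φ ∘ ψ)) := hr.fderiv_right (by norm_cast)
  obtain ⟨K, t, ht, hK⟩ := (hd.contDiffAt (x := x₀)).exists_lipschitzOnWith
  obtain ⟨ε, hε, he⟩ := Metric.mem_nhds_iff.1
    (inter_mem ht (eventually_nhdsWithin_iff.1 c.eventually))
  refine ⟨K, ε, K.2, hε, fun x hx y hy => ⟨fderiv ℝ (φ ∘ ψ) x (y - x), ?_, ?_⟩⟩
  · rw [fderiv_comp x (c.smφ.differentiable (by simp) _) (c.smψ.differentiable (by simp) _)]
    exact (((he hx.2).2 hx.1).mem_tan hx.1 _).2 ⟨_, rfl⟩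
  · have h1 := Convex.norm_image_sub_le_of_norm_hasFDerivWithin_le' (𝕜 := ℝ) (f := φ ∘ ψ)
      (s := Metric.ball x₀ ε ∩ Metric.closedBall x ‖y - x‖) (C := K * ‖y - x‖)
      (φ := fderiv ℝ (φ ∘ ψ) x)
      (fun z _ => (hr.differentiable (by simp) z).hasFDerivAt.hasFDerivWithinAt)
      (fun z hz => (hK.norm_sub_le (he hz.1).1 (he hx.2).1).trans
        (mul_le_mul_of_nonneg_left (mem_closedBall_iff_norm.1 hz.2) K.2))
      ((convex_ball _ _).inter (convex_closedBall _ _))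
      ⟨hx.2, Metric.mem_closedBall_self (norm_nonneg _)⟩ ⟨hy.2, mem_closedBall_iff_norm.2 le_rfl⟩
    rw [Function.comp_apply, Function.comp_apply, ((he hx.2).2 hx.1).self hx.1,
      ((he hy.2).2 hy.1).self hy.1] at h1
    exact h1.trans_eq (by ring)

/-- Local form of the quadratic estimate, near a compact part of `S`. -/
theorem IsSub.quad_bound {d : ℕ} {S A : Set E} (h : IsSub d S) (hA : IsCompact A) (hAS : A ⊆ S)
    {P : E → E →L[ℝ] E} (hP : ContinuousOn P A) (hT : ∀ x ∈ A, ∀ v ∈ Tan S x, P x v = v) :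
    ∃ C δ : ℝ, 0 < δ ∧ ∀ x ∈ A, ∀ y ∈ S, ‖y - x‖ < δ →
      ‖(y - x) - P x (y - x)‖ ≤ C * ‖y - x‖ ^ 2 := by
  obtain ⟨K, δ, hK, hδ, h1⟩ : ∃ K δ : ℝ, 0 ≤ K ∧ 0 < δ ∧ ∀ x ∈ A, ∀ y ∈ S, ‖y - x‖ < δ →
      ∃ w ∈ Tan S x, ‖y - x - w‖ ≤ K * ‖y - x‖ ^ 2 := by
    refine hA.induction_on (p := fun t => ∃ K δ : ℝ, 0 ≤ K ∧ 0 < δ ∧ ∀ x ∈ t, ∀ y ∈ S,
      ‖y - x‖ < δ → ∃ w ∈ Tan S x, ‖y - x - w‖ ≤ K * ‖y - x‖ ^ 2)
      ⟨0, 1, le_rfl, one_pos, fun x hx => hx.elim⟩ ?_ ?_ fun x₀ hx₀ => ?_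
    · rintro s t hst ⟨K, δ, a, b, c⟩
      exact ⟨K, δ, a, b, fun x hx => c x (hst hx)⟩
    · rintro s t ⟨K, δ, a, b, c⟩ ⟨K', δ', a', b', c'⟩
      refine ⟨max K K', min δ δ', le_max_of_le_left a, lt_min b b', fun x hx y hy hxy => ?_⟩
      rcases hx with hx | hx
      · obtain ⟨w, hw, e⟩ := c x hx y hy (hxy.trans_le (min_le_left _ _))
        exact ⟨w, hw, e.trans (by gcongr; exact le_max_left _ _)⟩
      · obtain ⟨w, hw, e⟩ := c' x hx y hy (hxy.trans_le (min_le_right _ _))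
        exact ⟨w, hw, e.trans (by gcongr; exact le_max_right _ _)⟩
    · obtain ⟨K, ε, a, b, c⟩ := projx_local h (hAS hx₀)
      refine ⟨A ∩ Metric.ball x₀ (ε / 2), inter_mem_nhdsWithin _ (Metric.ball_mem_nhds _ (half_pos b)),
        K, ε / 2, a, half_pos b, fun x hx y hy hxy => c x
          ⟨hAS hx.1, Metric.ball_subset_ball (half_le_self b.le) hx.2⟩ y ⟨hy, ?_⟩⟩
      have h2 := mem_ball_iff_norm.1 hx.2
      have h3 := norm_add_le (y - x) (x - x₀)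
      rw [sub_add_sub_cancel] at h3
      exact mem_ball_iff_norm.2 (by linarith)
  obtain ⟨B, hB⟩ := hA.exists_bound_of_continuousOn hP
  refine ⟨(1 + B) * K, δ, hδ, fun x hx y hy hxy => ?_⟩
  obtain ⟨w, hw, e⟩ := h1 x hx y hy hxy
  have e1 : (y - x) - P x (y - x) = (y - x - w) - P x (y - x - w) := by
    rw [map_sub (P x) (y - x) w, hT x hx w hw]
    abel
  have h2 : ‖P x (y - x - w)‖ ≤ B * ‖y - x - w‖ := (P x).le_of_opNorm_le (hB x hx) _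
  have h3 : 0 ≤ B := (norm_nonneg _).trans (hB x hx)
  rw [e1]
  calc _ ≤ ‖y - x - w‖ + B * ‖y - x - w‖ := (norm_sub_le _ _).trans (by linarith)
    _ = (1 + B) * ‖y - x - w‖ := by ring
    _ ≤ (1 + B) * (K * ‖y - x‖ ^ 2) := by gcongr
    _ = _ := by ring

/-- A continuous tangent field along a closed part is close to a smooth one. -/
theorem IsSub.exists_smooth_field {d : ℕ} {S A : Set E} (h : IsSub d S) (hA : IsClosed A)
    (hAS : A ⊆ S) {V : E → E} (hV : ContinuousOn V A) (hT : ∀ x ∈ A, V x ∈ Tan S x) {ε : ℝ}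
    (hε : 0 < ε) : ∃ (V' : E → E) (U : Set E), ContDiff ℝ ∞ V' ∧ IsOpen U ∧ A ⊆ U ∧
      (∀ x ∈ S ∩ U, V' x ∈ Tan S x) ∧ ∀ x ∈ A, ‖V' x - V x‖ < ε := by
  obtain ⟨P, U, h1, h2, h3, h4⟩ := h.exists_proj_closed hA hAS
  have hp : ∀ x, 0 < 1 + ‖P x‖ := fun x => by positivity
  obtain ⟨g, g1, g2⟩ := exists_smooth_approx_convex hA (C := fun _ => univ) (fun _ => convex_univ) hV
    (fun x _ => ⟨fun _ => V x, contDiff_const, rfl, Eventually.of_forall fun _ => mem_univ _⟩)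
    (ε := fun x => ε / (1 + ‖P x‖)) (continuousOn_const.div
      (continuous_const.add h1.continuous.norm).continuousOn fun x _ => (hp x).ne')
    fun x _ => div_pos hε (hp x)
  refine ⟨fun x => P x (g x), U, h1.clm_apply g1, h2, h3, fun x hx => (h4 x hx).1 _, fun x hx => ?_⟩
  have e : P x (g x) - V x = P x (g x - V x) := by
    rw [map_sub, (h4 x ⟨hAS hx, h3 hx⟩).2 _ (hT x hx)]
  have h5 := (lt_div_iff₀ (hp x)).1 (g2 x hx).2
  have h6 := (P x).le_opNorm (g x - V x)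
  rw [e]
  nlinarith [norm_nonneg (g x - V x)]

end Pool.Agent.Lib.MP_ccffa6_gt
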