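import Pool.Agent.Lib.MP_ccffa6_gt.K.Level
import Pool.Agent.Lib.MP_ccffa6_gt.K.Bundle
import Pool.Agent.Lib.MP_ccffa6_gt.K.ProjX

open Set Filter Topology
open scoped ContDiff

noncomputable section

namespace Pool.Agent.Lib.MP_ccffa6_gt

variable {E : Type} [NormedAddCommGroup E] [NormedSpace ℝ E] [FiniteDimensional ℝ E]
  {E' : Type} [NormedAddCommGroup E'] [NormedSpace ℝ E'] [FiniteDimensional ℝ E']
  {F : Type} [NormedAddCommGroup F] [NormedSpace ℝ F] [FiniteDimensional ℝ F]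

/-- Smooth field of projectors onto the tangent spaces, near a compact part. -/
theorem IsSub.exists_proj {d : ℕ} {S A : Set E} (h : IsSub d S) (hA : IsCompact A) (hAS : A ⊆ S) :
    ∃ (P : E → E →L[ℝ] E) (U : Set E), ContDiff ℝ ∞ P ∧ IsOpen U ∧ A ⊆ U ∧
      ∀ x ∈ S ∩ U, (∀ v, P x v ∈ Tan S x) ∧ ∀ v ∈ Tan S x, P x v = v :=
  h.exists_proj_closed hA.isClosed hAS

/-- Retraction along the kernels of a field of projectors. -/
theorem IsSub.exists_retr_proj {d : ℕ} {S A O : Set E} (h : IsSub d S) (hA : IsCompact A)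
    (hAS : A ⊆ S) {P : E → E →L[ℝ] E} (hP : ContDiff ℝ ∞ P) (hO : IsOpen O) (hAO : A ⊆ O)
    (hT : ∀ x ∈ S ∩ O, (∀ v, P x v ∈ Tan S x) ∧ ∀ v ∈ Tan S x, P x v = v) :
    ∃ (r : E → E) (U : Set E), ContDiff ℝ ∞ r ∧ IsOpen U ∧ A ⊆ U ∧
      (∀ y ∈ U, r y ∈ S ∩ O ∧ P (r y) (y - r y) = 0) ∧ ∀ x ∈ S ∩ U, r x = x := by
  have hr : ∀ x ∈ S ∩ O, Module.finrank ℝ (1 - P x).range + d = Module.finrank ℝ E := by
    intro x hx
    have h1 : (1 - P x).ker = Tan S x := by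
      ext v
      refine ⟨fun hv => ?_, fun hv => ?_⟩
      · have h2 : v - P x v = 0 := hv
        rw [sub_eq_zero.1 h2]
        exact (hT x hx).1 v
      · exact sub_eq_zero.2 ((hT x hx).2 v hv).symm
    rw [← h.finrank hx.1, ← h1]
    exact LinearMap.finrank_range_add_finrank_ker _
  obtain ⟨hN, hTN⟩ := (h.inter_open hO).bundle (Q := fun x => 1 - P x)
    (k := Module.finrank ℝ E - d) (contDiff_const.sub hP)
    (fun x hx v => by simp [(hT x hx).2 _ ((hT x hx).1 v)])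
    (fun x hx => by rw [← hr x hx, Nat.add_sub_cancel])
  set N := {p : E × E | p.1 ∈ S ∩ O ∧ (1 - P p.1) p.2 = p.2} with hNd
  have hf : ContDiff ℝ ∞ fun p : E × E => p.1 + p.2 := contDiff_fst.add contDiff_snd
  have hm : ∀ x ∈ S ∩ O, (x, (0 : E)) ∈ N := fun x hx => ⟨hx, map_zero _⟩
  have hi : ∀ x ∈ A, ∀ v ∈ Tan N (x, 0), fderiv ℝ (fun p : E × E => p.1 + p.2) (x, 0) v = 0 →
      v = 0 := by
    intro x hx v hv h0
    rw [show fderiv ℝ (fun p : E × E => p.1 + p.2) (x, 0) = _ from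
      (hasFDerivAt_fst.add (hasFDerivAt_snd (𝕜 := ℝ) (p := (x, (0 : E))))).fderiv] at h0
    have h1 : v.1 + v.2 = 0 := h0
    obtain ⟨h2, h3⟩ := (hTN x ⟨hAS hx, hAO hx⟩ v).1 hv
    have h4 : P x v.2 = 0 := by simpa using h3
    have h5 : v.1 = 0 := by
      have h6 := congrArg (P x) h1
      rwa [map_add, h4, add_zero, map_zero,
        (hT x ⟨hAS hx, hAO hx⟩).2 _ (Tan.mono inter_subset_left h2)] at h6
    exact Prod.ext h5 (by simpa [h5] using h1)
  obtain ⟨g, V, hg, hV, hAV, hgV⟩ := hN.left_inverse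
    (hA.image (f := fun x => (x, (0 : E))) (continuous_id.prodMk continuous_const))
    (by rintro _ ⟨x, hx, rfl⟩; exact hm x ⟨hAS hx, hAO hx⟩) hf
    (by rintro _ ⟨x, hx, rfl⟩; exact hi x hx)
    (by rintro _ ⟨x, hx, rfl⟩ _ ⟨y, hy, rfl⟩ hxy; simpa using hxy)
  have key : ∀ x ∈ A, ∀ᶠ z in 𝓝 x, g z ∈ N ∧ (g z).1 + (g z).2 = z := by
    intro x hx
    have hx' : x ∈ S ∩ O := ⟨hAS hx, hAO hx⟩
    have hu : IsSub (d + (Module.finrank ℝ E - d)) (univ : Set E) := by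
      rw [← hr x hx', Nat.add_sub_cancel, add_comm, hr x hx']
      exact isSub_of_isOpen isOpen_univ
    obtain ⟨g', k1, k2, k3⟩ := hN.local_inverse hu hf (hm x hx')
      (Eventually.of_forall fun _ => mem_univ _) (hi x hx)
    have k4 : g' x = (x, 0) := by simpa using k2.self_of_nhdsWithin (hm x hx')
    rw [nhdsWithin_univ, add_zero] at k3
    filter_upwards [k3, k1.continuous.continuousAt.eventually
      (hV.mem_nhds (k4 ▸ hAV ⟨x, hx, rfl⟩))] with z z1 z2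
    have z3 := hgV _ ⟨z1.1, z2⟩
    rw [z1.2] at z3
    rw [z3]
    exact z1
  refine ⟨fun z => (g z).1, interior {z | g z ∈ N ∧ (g z).1 + (g z).2 = z} ∩ O ∩
    (fun x => (x, (0 : E))) ⁻¹' V, contDiff_fst.comp hg, (isOpen_interior.inter hO).inter
      (hV.preimage (continuous_id.prodMk continuous_const)),
    fun x hx => ⟨⟨mem_interior_iff_mem_nhds.2 (key x hx), hAO hx⟩, hAV ⟨x, hx, rfl⟩⟩,
    fun y hy => ?_, fun x hx => ?_⟩
  · obtain ⟨⟨h1, h2⟩, h3⟩ := interior_subset hy.1.1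
    refine ⟨h1, ?_⟩
    rw [← sub_eq_iff_eq_add'.2 h3.symm] at h2
    simpa using h2
  · have h1 := hgV _ ⟨hm x ⟨hx.1, hx.2.1.2⟩, hx.2.2⟩
    rw [add_zero] at h1
    exact congrArg Prod.fst h1

/-- Smooth retraction onto `S`, near a compact part. -/
theorem IsSub.exists_retr {d : ℕ} {S A : Set E} (h : IsSub d S) (hA : IsCompact A) (hAS : A ⊆ S) :
    ∃ (r : E → E) (U : Set E), ContDiff ℝ ∞ r ∧ IsOpen U ∧ A ⊆ U ∧ MapsTo r U S ∧
      ∀ x ∈ S ∩ U, r x = x := by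
  obtain ⟨P, O, h1, h2, h3, h4⟩ := h.exists_proj hA hAS
  obtain ⟨r, U, k1, k2, k3, k4, k5⟩ := h.exists_retr_proj hA hAS h1 h2 h3 h4
  exact ⟨r, U, k1, k2, k3, fun y hy => (k4 y hy).1.1, k5⟩

theorem Closed.quad_bound {d : ℕ} {S : Set E} (h : Closed d S) {P : E → E →L[ℝ] E}
    (hP : ContinuousOn P S) (hT : ∀ x ∈ S, ∀ v ∈ Tan S x, P x v = v) :
    ∃ C : ℝ, ∀ x ∈ S, ∀ y ∈ S, ‖(y - x) - P x (y - x)‖ ≤ C * ‖y - x‖ ^ 2 := by
  obtain ⟨C, δ, hδ, h1⟩ := h.sub.quad_bound h.cpt subset_rfl hP hT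
  obtain ⟨M, hM⟩ := h.cpt.exists_bound_of_continuousOn hP
  refine ⟨max C ((1 + M) / δ), fun x hx y hy => ?_⟩
  rcases lt_or_ge ‖y - x‖ δ with h2 | h2
  · exact (h1 x hx y hy h2).trans (mul_le_mul_of_nonneg_right (le_max_left _ _) (sq_nonneg _))
  · refine le_trans ?_ (mul_le_mul_of_nonneg_right (le_max_right _ _) (sq_nonneg _))
    have h3 : ‖P x (y - x)‖ ≤ M * ‖y - x‖ :=
      ((P x).le_opNorm _).trans (mul_le_mul_of_nonneg_right (hM x hx) (norm_nonneg _))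
    have h4 : 0 ≤ M := (norm_nonneg _).trans (hM x hx)
    have h5 := norm_sub_le (y - x) (P x (y - x))
    rw [div_mul_eq_mul_div, le_div_iff₀ hδ]
    have h6 : (1 + M) * ‖y - x‖ * δ ≤ (1 + M) * ‖y - x‖ * ‖y - x‖ :=
      mul_le_mul_of_nonneg_left h2 (by positivity)
    nlinarith

section inner

variable {H : Type} [NormedAddCommGroup H] [InnerProductSpace ℝ H] [FiniteDimensional ℝ H]

theorem proj_orth {T : Submodule ℝ H} {P : H →L[ℝ] H}
    (h : (∀ v, P v ∈ T) ∧ ∀ v ∈ T, P v = v) : IsUnit (P + P.adjoint - 1) ∧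
      P * Ring.inverse (P + P.adjoint - 1) = T.starProjection := by
  have h0 : ∀ u, ∀ t ∈ T, inner ℝ (P.adjoint u - u) t = 0 := fun u t ht => by
    rw [inner_sub_left, ContinuousLinearMap.adjoint_inner_left, h.2 t ht, sub_self]
  have h1 : IsUnit (P + P.adjoint - 1) := by
    rw [ContinuousLinearMap.isUnit_iff_bijective]
    have h2 : Function.Injective (P + P.adjoint - 1 : H →L[ℝ] H).toLinearMap := by
      refine (injective_iff_map_eq_zero _).2 fun u hu => ?_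
      have h3 : P.adjoint u - u = -P u := by
        have h4 : P u + P.adjoint u - u = 0 := hu
        rw [eq_neg_iff_add_eq_zero, ← h4]
        abel
      have h4 : P u = 0 := by simpa [h3] using h0 u _ (h.1 u)
      have h5 : P.adjoint u = u := by rwa [h4, neg_zero, sub_eq_zero] at h3
      rw [← inner_self_eq_zero (𝕜 := ℝ)]
      calc inner ℝ u u = inner ℝ (P.adjoint u) u := by rw [h5]
        _ = 0 := by rw [ContinuousLinearMap.adjoint_inner_left, h4, inner_zero_right]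
    exact ⟨h2, LinearMap.injective_iff_surjective.1 h2⟩
  refine ⟨h1, ContinuousLinearMap.ext fun v => ?_⟩
  refine (Submodule.eq_starProjection_of_mem_of_inner_eq_zero (h.1 _) fun t ht => ?_).symm
  set u := Ring.inverse (P + P.adjoint - 1) v
  have h2 : P u + P.adjoint u - u = v :=
    congrArg (fun A : H →L[ℝ] H => A v) (Ring.mul_inverse_cancel _ h1)
  have h3 : v - P u = P.adjoint u - u := by
    rw [← h2]
    abel
  exact h3 ▸ h0 u t ht

/-- The orthogonal projector field. -/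
theorem IsSub.exists_orthProj {d : ℕ} {S A : Set H} (h : IsSub d S) (hA : IsCompact A)
    (hAS : A ⊆ S) : ∃ (P : H → H →L[ℝ] H) (U : Set H), ContDiff ℝ ∞ P ∧ IsOpen U ∧ A ⊆ U ∧
      ∀ x ∈ S ∩ U, P x = (Tan S x).starProjection := by
  obtain ⟨P, O, h1, h2, h3, h4⟩ := h.exists_proj hA hAS
  let ad : (H →L[ℝ] H) →ₗ[ℝ] (H →L[ℝ] H) :=
    { toFun := fun A => A.adjoint
      map_add' := fun A B => map_add _ A B
      map_smul' := fun c A => by simp }
  have hM : ContDiff ℝ ∞ fun x => P x + (P x).adjoint - 1 :=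
    (h1.add (ad.toContinuousLinearMap.contDiff.comp h1)).sub contDiff_const
  have hV : IsOpen {x | IsUnit (P x + (P x).adjoint - 1)} := Units.isOpen.preimage hM.continuous
  obtain ⟨g, g1, g2, -⟩ := exists_smooth_nhdsSet hA.isClosed hV
    (fun x hx => (proj_orth (h4 x ⟨hAS hx, h3 hx⟩)).1)
    (f := fun x => P x * Ring.inverse (P x + (P x).adjoint - 1)) (fun x hx => by
      obtain ⟨u, hu⟩ := hx
      have h5 : ContDiffAt ℝ ∞ Ring.inverse (P x + (P x).adjoint - 1) :=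
        hu ▸ contDiffAt_ringInverse ℝ u
      exact (h1.contDiffAt.mul (h5.comp x hM.contDiffAt)).contDiffWithinAt)
  obtain ⟨U, u1, u2, u3⟩ := mem_nhdsSet_iff_exists.1 g2
  exact ⟨g, U ∩ O, g1, u1.inter h2, subset_inter u2 h3,
    fun x hx => (u3 hx.2.1).trans (proj_orth (h4 x ⟨hx.1, hx.2.2⟩)).2⟩

/-- Normal (nearest point) retraction. -/
theorem IsSub.exists_orthRetr {d : ℕ} {S A : Set H} (h : IsSub d S) (hA : IsCompact A)
    (hAS : A ⊆ S) : ∃ (r : H → H) (U : Set H), ContDiff ℝ ∞ r ∧ IsOpen U ∧ A ⊆ U ∧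
      MapsTo r U S ∧ (∀ x ∈ S ∩ U, r x = x) ∧ ∀ y ∈ U, y - r y ∈ (Tan S (r y))ᗮ := by
  obtain ⟨P, O, h1, h2, h3, h4⟩ := h.exists_orthProj hA hAS
  obtain ⟨r, U, k1, k2, k3, k4, k5⟩ := h.exists_retr_proj hA hAS h1 h2 h3 fun x hx => by
    rw [h4 x hx]
    exact ⟨fun v => Submodule.starProjection_apply_mem _ v,
      fun v hv => Submodule.starProjection_eq_self_iff.2 hv⟩
  refine ⟨r, U, k1, k2, k3, fun y hy => (k4 y hy).1.1, k5, fun y hy => ?_⟩
  have h5 := (k4 y hy).2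
  rw [h4 _ (k4 y hy).1] at h5
  exact (Submodule.starProjection_apply_eq_zero_iff _).1 h5

end inner

end Pool.Agent.Lib.MP_ccffa6_gt
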