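import Pool.Agent.Lib.MP_ccffa6_gt.Defs

open Set Filter Topology
open scoped ContDiff

noncomputable section

namespace Pool.Agent.Lib.MP_ccffa6_gt

variable {E : Type} [NormedAddCommGroup E] [NormedSpace ℝ E] [FiniteDimensional ℝ E]
  {E' : Type} [NormedAddCommGroup E'] [NormedSpace ℝ E'] [FiniteDimensional ℝ E']
  {F : Type} [NormedAddCommGroup F] [NormedSpace ℝ F] [FiniteDimensional ℝ F]

@[simp] theorem mem_pl {T : Submodule ℝ E} {v : E × F} : v ∈ pl T F ↔ v.1 ∈ T := by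
  simp [pl, Submodule.mem_prod]

@[simp] theorem mem_T1 {S : Set E} {x : E} {v : E × ℝ} : v ∈ T1 S x ↔ v.1 ∈ Tan S x := mem_pl

theorem dF_apply (α : Form1 E) (x u v : E) :
    dF α x u v = fderiv ℝ α x u v - fderiv ℝ α x v u := by simp [dF]

@[simp] theorem osum_apply (w : Bil E) (η : Bil F) (u v : E × F) :
    osum w η u v = w u.1 v.1 + η u.2 v.2 := by simp [osum]

theorem symz_apply (α : Form1 E) (x : E) (u v : E × ℝ) :
    symz α x u v = dF α x u.1 v.1 + (u.2 * α x v.1 - α x u.1 * v.2) := by simp [symz]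

theorem pb2_apply (φ : E → E') (Ω : E' → Bil (E' × ℝ)) (x : E) (u v : E × ℝ) :
    pb2 φ Ω x u v = Ω (φ x) (fderiv ℝ φ x u.1, u.2) (fderiv ℝ φ x v.1, v.2) := rfl

@[simp] theorem incl_apply (ν : E) (v : (E × ℝ) × F) :
    incl ν F v = (v.1.1 + v.1.2 • ν, v.2) := rfl

theorem ND.skew {T : Submodule ℝ E} {w : Bil E} (h : ND T w) {u v : E} (hu : u ∈ T) (hv : v ∈ T) :
    w u v = -w v u := by
  have h1 := h.1 (u + v) (T.add_mem hu hv)
  simp only [map_add, add_apply, h.1 u hu, h.1 v hv] at h1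
  linarith

theorem ND.congr {T : Submodule ℝ E} {w w' : Bil E} (h : ND T w)
    (he : ∀ u ∈ T, ∀ v ∈ T, w u v = w' u v) : ND T w' := by
  refine ⟨fun u hu => (he u hu u hu).symm.trans (h.1 u hu), fun u hu h0 => h.2 u hu fun v hv => ?_⟩
  rw [he u hu v hv]
  exact h0 v hv

theorem ND.plus {T : Submodule ℝ E} {w : Bil E} {η : Bil F} (h : ND T w) (h' : ND ⊤ η) :
    ND (pl T F) (osum w η) := by
  refine ⟨fun u hu => ?_, fun u hu h0 => Prod.ext ?_ ?_⟩
  · rw [osum_apply, h.1 u.1 (mem_pl.1 hu), h'.1 u.2 trivial, add_zero]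
  · refine h.2 u.1 (mem_pl.1 hu) fun v hv => ?_
    simpa using h0 (v, 0) (mem_pl.2 hv)
  · refine h'.2 u.2 trivial fun v _ => ?_
    simpa using h0 (0, v) (mem_pl.2 T.zero_mem)

theorem ND.of_plus {T : Submodule ℝ E} {w : Bil E} {η : Bil F} (h : ND (pl T F) (osum w η)) :
    ND T w ∧ ND ⊤ η := by
  refine ⟨⟨fun u hu => ?_, fun u hu h0 => ?_⟩, ⟨fun u _ => ?_, fun u _ h0 => ?_⟩⟩
  · simpa using h.1 (u, 0) (mem_pl.2 hu)
  · have := h.2 (u, 0) (mem_pl.2 hu) fun v hv => by simpa using h0 v.1 (mem_pl.1 hv)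
    exact congrArg Prod.fst this
  · simpa using h.1 (0, u) (mem_pl.2 T.zero_mem)
  · have := h.2 (0, u) (mem_pl.2 T.zero_mem) fun v _ => by simpa using h0 v.2 trivial
    exact congrArg Prod.snd this

theorem ND.comp {T : Submodule ℝ E} {T' : Submodule ℝ E'} {w : Bil E'} (h : ND T' w)
    {A : E →L[ℝ] E'} (hA : BijOn A T T') : ND T (w.bilinearComp A A) := by
  refine ⟨fun u hu => h.1 (A u) (hA.1 hu), fun u hu h0 => ?_⟩
  have h1 : A u = 0 := by
    refine h.2 (A u) (hA.1 hu) fun v hv => ?_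
    obtain ⟨v', hv', rfl⟩ := hA.2.2 hv
    exact h0 v' hv'
  exact hA.2.1 hu T.zero_mem (h1.trans (map_zero A).symm)

theorem ND.smul {T : Submodule ℝ E} {w : Bil E} (h : ND T w) {c : ℝ} (hc : c ≠ 0) :
    ND T (c • w) := by
  refine ⟨fun u hu => ?_, fun u hu h0 => h.2 u hu fun v hv => ?_⟩
  · simp [h.1 u hu]
  · have := h0 v hv
    simp only [smul_apply, smul_eq_mul] at this
    exact (mul_eq_zero.1 this).resolve_left hc

theorem ND.exists_dual {T : Submodule ℝ E} {w : Bil E} (h : ND T w) (g : E →L[ℝ] ℝ) :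
    ∃! X, X ∈ T ∧ ∀ v ∈ T, w X v = g v := by
  let B : T →ₗ[ℝ] Module.Dual ℝ T :=
    (w.toLinearMap₁₂).compl₁₂ T.subtype T.subtype
  have hB : ∀ u v : T, B u v = w u v := fun _ _ => rfl
  have hi : Function.Injective B := by
    rw [injective_iff_map_eq_zero]
    intro u hu
    refine Subtype.ext (h.2 u u.2 fun v hv => ?_)
    rw [← hB u ⟨v, hv⟩, hu]
    rfl
  have hs : Function.Surjective B :=
    (LinearMap.injective_iff_surjective_of_finrank_eq_finrank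
      (Subspace.dual_finrank_eq).symm).1 hi
  obtain ⟨X, hX⟩ := hs ((g : E →ₗ[ℝ] ℝ).comp T.subtype)
  have hX' : ∀ v ∈ T, w X v = g v := fun v hv => by
    rw [← hB X ⟨v, hv⟩, hX]
    rfl
  refine ⟨X, ⟨X.2, hX'⟩, fun Y hY => ?_⟩
  refine sub_eq_zero.1 (h.2 _ (T.sub_mem hY.1 X.2) fun v hv => ?_)
  rw [map_sub, sub_apply, hY.2 v hv, hX' v hv, sub_self]

/-- Symplectic coordinates on a subspace, by induction on the dimension. -/
theorem ND.lin_coord {w : Bil E} (n : ℕ) : ∀ T : Submodule ℝ E, Module.finrank ℝ T ≤ n → ND T w →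
    ∃ (b : ℕ) (e : E →ₗ[ℝ] (Fin b → ℂ)), (∀ z, ∃ u ∈ T, e u = z) ∧
      ∀ u ∈ T, ∀ v ∈ T, w u v = ∑ i, ((starRingEnd ℂ) (e u i) * e v i).im := by
  have base : ∀ T : Submodule ℝ E, T = ⊥ →
      ∃ (b : ℕ) (e : E →ₗ[ℝ] (Fin b → ℂ)), (∀ z, ∃ u ∈ T, e u = z) ∧
        ∀ u ∈ T, ∀ v ∈ T, w u v = ∑ i, ((starRingEnd ℂ) (e u i) * e v i).im := by
    rintro T rfl
    refine ⟨0, 0, fun z => ⟨0, Submodule.zero_mem _, Subsingleton.elim _ _⟩, fun u hu v _ => ?_⟩
    rw [(Submodule.mem_bot ℝ).1 hu]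
    simp
  induction n with
  | zero =>
    intro T hT _
    exact base T (Submodule.finrank_eq_zero.1 (Nat.le_zero.1 hT))
  | succ n ih =>
    intro T hT h
    by_cases h0 : T = ⊥
    · exact base T h0
    obtain ⟨p, hp, hp0⟩ := Submodule.exists_mem_ne_zero_of_ne_bot h0
    obtain ⟨q, hq, hpq⟩ : ∃ q ∈ T, w p q = 1 := by
      by_contra hn
      refine hp0 (h.2 p hp fun v hv => ?_)
      by_contra hv0
      refine hn ⟨(w p v)⁻¹ • v, T.smul_mem _ hv, ?_⟩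
      rw [map_smul, smul_eq_mul, inv_mul_cancel₀ hv0]
    have hqp : w q p = -1 := by rw [h.skew hq hp, hpq]
    have hpp := h.1 p hp
    have hqq := h.1 q hq
    let a : E →ₗ[ℝ] ℝ := (w.flip q : E →L[ℝ] ℝ)
    let c : E →ₗ[ℝ] ℝ := (w.flip p : E →L[ℝ] ℝ)
    have ha : ∀ u, a u = w u q := fun _ => rfl
    have hc : ∀ u, c u = w u p := fun _ => rfl
    let T' : Submodule ℝ E := T ⊓ (LinearMap.ker a ⊓ LinearMap.ker c)
    have hT' : ∀ u, u ∈ T' ↔ u ∈ T ∧ w u q = 0 ∧ w u p = 0 := fun u => Iff.rfl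
    let π : E →ₗ[ℝ] E := LinearMap.id - a.smulRight p + c.smulRight q
    have hπ : ∀ u, π u = u - w u q • p + w u p • q := fun _ => rfl
    have hπT : ∀ u ∈ T, π u ∈ T' := by
      intro u hu
      rw [hT', hπ]
      refine ⟨T.add_mem (T.sub_mem hu (T.smul_mem _ hp)) (T.smul_mem _ hq), ?_, ?_⟩
      all_goals simp [hpq, hqq, hqp, hpp]
    have hw : ∀ u ∈ T, ∀ v ∈ T, w (π u) (π v) = w u v - (w u p * w v q - w u q * w v p) := by
      intro u _ v hv
      have h1 := h.skew hp hv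
      have h2 := h.skew hq hv
      simp only [hπ, map_add, map_sub, map_smul, add_apply,
        sub_apply, smul_apply, smul_eq_mul, hpq, hqp, hpp,
        hqq, h1, h2]
      ring
    have hnd : ND T' w := by
      refine ⟨fun u hu => h.1 u hu.1, fun u hu hu0 => h.2 u hu.1 fun v hv => ?_⟩
      have h1 := hu0 _ (hπT v hv)
      obtain ⟨-, h2, h3⟩ := (hT' u).1 hu
      simpa [hπ, h2, h3] using h1
    have hlt : T' < T := by
      refine lt_of_le_of_ne inf_le_left fun he => ?_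
      have h1 := ((hT' p).1 (he ▸ hp)).2.1
      rw [hpq] at h1
      exact one_ne_zero h1
    obtain ⟨b, e, he1, he2⟩ := ih T'
      (Nat.lt_succ_iff.1 ((Submodule.finrank_lt_finrank_of_lt hlt).trans_le hT)) hnd
    let f0 : E →ₗ[ℝ] ℂ := a.smulRight 1 - c.smulRight Complex.I
    have hf0 : ∀ u, f0 u = (w u q : ℂ) - (w u p : ℂ) * Complex.I := fun u => by
      simp [f0, ha, hc]
    let g : Fin (b + 1) → E →ₗ[ℝ] ℂ :=
      Fin.cons f0 fun i => (LinearMap.proj i).comp (e.comp π)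
    refine ⟨b + 1, LinearMap.pi g, fun z => ?_, fun u hu v hv => ?_⟩
    · obtain ⟨u, hu, hz⟩ := he1 fun i => z i.succ
      obtain ⟨hu1, hu2, hu3⟩ := (hT' u).1 hu
      have e1 : w (u + (z 0).re • p + (z 0).im • q) q = (z 0).re := by simp [hu2, hpq, hqq]
      have e2 : w (u + (z 0).re • p + (z 0).im • q) p = -(z 0).im := by simp [hu3, hqp, hpp]
      refine ⟨u + (z 0).re • p + (z 0).im • q,
        T.add_mem (T.add_mem hu1 (T.smul_mem _ hp)) (T.smul_mem _ hq), funext fun i => ?_⟩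
      refine Fin.cases ?_ (fun j => ?_) i
      · show f0 _ = _
        rw [hf0, e1, e2]
        apply Complex.ext <;> simp
      · show e (π _) j = _
        have e3 : π (u + (z 0).re • p + (z 0).im • q) = u := by
          rw [hπ, e1, e2]
          module
        rw [e3, hz]
    · rw [Fin.sum_univ_succ]
      show w u v = ((starRingEnd ℂ) (f0 u) * f0 v).im +
        ∑ i, ((starRingEnd ℂ) (e (π u) i) * e (π v) i).im
      rw [← he2 _ (hπT u hu) _ (hπT v hv), hw u hu v hv, hf0, hf0]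
      simp
      ring

theorem ND.lin_equiv {T : Submodule ℝ E} {w : Bil E} (h : ND T w) :
    ∃ (b : ℕ) (e : T ≃ₗ[ℝ] (Fin b → ℂ)),
      ∀ u v : T, w u v = ∑ i, ((starRingEnd ℂ) (e u i) * e v i).im := by
  obtain ⟨b, e, he1, he2⟩ := ND.lin_coord _ T le_rfl h
  refine ⟨b, LinearEquiv.ofBijective (e.comp T.subtype) ⟨?_, fun z => ?_⟩,
    fun u v => he2 u u.2 v v.2⟩
  · rw [injective_iff_map_eq_zero]
    intro u hu
    refine Subtype.ext (h.2 u u.2 fun v hv => ?_)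
    have h1 : e u = 0 := hu
    rw [he2 u u.2 v hv, h1]
    simp
  · obtain ⟨u, hu, hz⟩ := he1 z
    exact ⟨⟨u, hu⟩, hz⟩

theorem ND.even {T : Submodule ℝ E} {w : Bil E} (h : ND T w) : Even (Module.finrank ℝ T) := by
  obtain ⟨b, e, -⟩ := h.lin_equiv
  rw [e.finrank_eq, Module.finrank_pi_fintype]
  simp

/-- An alternating form tamed by some endomorphism is nondegenerate. -/
theorem ND.of_tame {T : Submodule ℝ E} {w : Bil E} (h : ∀ u ∈ T, w u u = 0)
    (ht : ∀ u ∈ T, u ≠ 0 → ∃ v ∈ T, w u v ≠ 0) : ND T w := by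
  refine ⟨h, fun u hu h0 => ?_⟩
  by_contra hn
  obtain ⟨v, hv, hv0⟩ := ht u hu hn
  exact hv0 (h0 v hv)

/-- `ds ∧ a + w` is nondegenerate iff `a ≠ 0` and `w` is nondegenerate on `ker a`. -/
theorem nd_symz_iff {S : Set E} {α : Form1 E} {x : E} :
    ND (T1 S x) (symz α x) ↔ (∃ v ∈ Tan S x, α x v ≠ 0) ∧
      ∀ u ∈ Tan S x, α x u = 0 → (∀ v ∈ Tan S x, α x v = 0 → dF α x u v = 0) → u = 0 := by
  constructor
  · intro h
    have h1 : ∃ v ∈ Tan S x, α x v ≠ 0 := by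
      by_contra hn
      have h2 := h.2 (0, 1) (mem_T1.2 (Tan S x).zero_mem) fun v hv => by
        have h3 : α x v.1 = 0 := by
          by_contra h4
          exact hn ⟨v.1, mem_T1.1 hv, h4⟩
        simp [symz_apply, h3]
      exact one_ne_zero (congrArg Prod.snd h2)
    refine ⟨h1, fun u hu hu0 hd => ?_⟩
    obtain ⟨v₀, hv₀, ha⟩ := h1
    have h2 := h.2 (u, -(dF α x u v₀ / α x v₀)) (mem_T1.2 hu) fun v hv => by
      have h3 := hd (v.1 - (α x v.1 / α x v₀) • v₀)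
        ((Tan S x).sub_mem (mem_T1.1 hv) ((Tan S x).smul_mem _ hv₀))
        (by rw [map_sub, map_smul, smul_eq_mul, div_mul_cancel₀ _ ha, sub_self])
      rw [map_sub, map_smul, smul_eq_mul, sub_eq_zero] at h3
      rw [symz_apply]
      simp only [hu0, h3]
      ring
    exact congrArg Prod.fst h2
  · rintro ⟨⟨v₀, hv₀, ha⟩, h⟩
    refine ⟨fun u _ => ?_, fun u hu h0 => ?_⟩
    · rw [symz_apply, dF_apply]
      ring
    · have h1 : α x u.1 = 0 := by
        simpa [symz_apply] using h0 (0, 1) (mem_T1.2 (Tan S x).zero_mem)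
      have h2 : u.1 = 0 := h u.1 (mem_T1.1 hu) h1 fun v hv hv0 => by
        simpa [symz_apply, hv0] using h0 (v, 0) (mem_T1.2 hv)
      have h3 : u.2 = 0 := by
        simpa [symz_apply, h2, ha] using h0 (v₀, 0) (mem_T1.2 hv₀)
      exact Prod.ext h2 h3

/-- Symplectic basis. -/
theorem ND.exists_basis {η : Bil F} (h : ND ⊤ η) : ∃ (b : ℕ) (e : F ≃L[ℝ] (Fin b → ℂ)),
    ∀ u v, η u v = ∑ i, ((starRingEnd ℂ) (e u i) * e v i).im := by
  obtain ⟨b, e, he⟩ := h.lin_equiv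
  exact ⟨b, (Submodule.topEquiv.symm.trans e).toContinuousLinearEquiv,
    fun u v => he ⟨u, trivial⟩ ⟨v, trivial⟩⟩

/-- Quantitative nondegeneracy, and its stability. -/
theorem ND.exists_bound {T : Submodule ℝ E} {w : Bil E} (h : ND T w) :
    ∃ c > 0, ∀ u ∈ T, ∃ v ∈ T, ‖v‖ ≤ 1 ∧ c * ‖u‖ ≤ w u v := by
  let B : T →L[ℝ] T →L[ℝ] ℝ := w.bilinearComp T.subtypeL T.subtypeL
  have hB : ∀ u v : T, B u v = w u v := fun _ _ => rfl
  have hk : LinearMap.ker (B : T →ₗ[ℝ] T →L[ℝ] ℝ) = ⊥ := by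
    rw [LinearMap.ker_eq_bot']
    intro u hu
    refine Subtype.ext (h.2 u u.2 fun v hv => ?_)
    have h1 : B u = 0 := hu
    rw [← hB u ⟨v, hv⟩, h1]
    rfl
  obtain ⟨K, hK, hA⟩ := LinearMap.exists_antilipschitzWith (𝕜 := ℝ) (E := T) (F := T →L[ℝ] ℝ)
    (B : T →ₗ[ℝ] T →L[ℝ] ℝ) hk
  have hK' : (0 : ℝ) < K := hK
  refine ⟨1 / (2 * K), by positivity, fun u hu => ?_⟩
  by_cases h0 : u = 0
  · exact ⟨0, T.zero_mem, by simp, by simp [h0]⟩
  have h1 : ‖u‖ ≤ K * ‖B ⟨u, hu⟩‖ := by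
    have := hA.le_mul_dist ⟨u, hu⟩ 0
    rw [map_zero, dist_zero_right] at this
    exact this.trans_eq (congrArg _ (dist_zero_right (B ⟨u, hu⟩)))
  have h2 : 0 < ‖u‖ := norm_pos_iff.2 h0
  have h3 : 1 / (2 * K) * ‖u‖ < ‖B ⟨u, hu⟩‖ := by
    rw [div_mul_eq_mul_div, div_lt_iff₀ (by positivity)]
    nlinarith
  obtain ⟨v, hv1, hv2⟩ := (B ⟨u, hu⟩).exists_lt_apply_of_lt_opNorm h3
  rw [hB, Real.norm_eq_abs] at hv2
  rcases lt_abs.1 hv2 with h4 | h4
  · exact ⟨v, v.2, hv1.le, h4.le⟩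
  · refine ⟨-v, T.neg_mem v.2, by rw [norm_neg]; exact hv1.le, ?_⟩
    rw [map_neg]
    exact h4.le

end Pool.Agent.Lib.MP_ccffa6_gt
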