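import Pool.Agent.Lib.MP_ccffa6_gt.K.Lin
import Pool.Agent.Lib.MP_ccffa6_gt.K.Diffeo0

open Set Filter Topology
open scoped ContDiff

noncomputable section

namespace Pool.Agent.Lib.MP_ccffa6_gt

variable {E : Type} [NormedAddCommGroup E] [NormedSpace ℝ E] [FiniteDimensional ℝ E]
  {E' : Type} [NormedAddCommGroup E'] [NormedSpace ℝ E'] [FiniteDimensional ℝ E']
  {F : Type} [NormedAddCommGroup F] [NormedSpace ℝ F] [FiniteDimensional ℝ F]

section

variable {X Y : Type} [TopologicalSpace X] [TopologicalSpace Y]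

theorem htpy_cont {S : Set X} {Ω : X → Bil E'} {A : X → E →L[ℝ] E'} {B : X → F →L[ℝ] E'}
    (h : ContinuousOn Ω S) (hA : ContinuousOn A S) (hB : ContinuousOn B S) :
    ContinuousOn (fun x => (Ω x).bilinearComp (A x) (B x)) S :=
  continuousOn_clm_apply.2 fun _ => continuousOn_clm_apply.2 fun _ =>
    (h.clm_apply (hA.clm_apply continuousOn_const)).clm_apply (hB.clm_apply continuousOn_const)

theorem htpy_comb {S : Set X} {Ω Ω' : X → Bil E} {a b : X → ℝ} (ha : ContinuousOn a S)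
    (hb : ContinuousOn b S) (h : ContinuousOn Ω S) (h' : ContinuousOn Ω' S) :
    ContinuousOn (fun x => a x • Ω x + b x • Ω' x) S :=
  continuousOn_clm_apply.2 fun _ => continuousOn_clm_apply.2 fun _ =>
    (ha.mul ((h.clm_apply continuousOn_const).clm_apply continuousOn_const)).add
      (hb.mul ((h'.clm_apply continuousOn_const).clm_apply continuousOn_const))

/-- A continuous field of injective maps has a continuous left inverse. -/
theorem htpy_left {S : Set X} {A : X → E →L[ℝ] F} (hA : ContinuousOn A S)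
    (hi : ∀ x ∈ S, ∀ u, A x u = 0 → u = 0) :
    ∃ B : X → F →L[ℝ] E, ContinuousOn B S ∧ ∀ x ∈ S, ∀ u, B x (A x u) = u := by
  let e := toEuclidean (E := F)
  let b₀ : Bil (Rd (Module.finrank ℝ F)) := innerSL ℝ
  let b : Bil F := b₀.bilinearComp (e : F →L[ℝ] _) (e : F →L[ℝ] _)
  have hG : ∀ x ∈ S, (b.bilinearComp (A x) (A x)).IsInvertible := fun x hx => by
    have h1 : Function.Injective (b.bilinearComp (A x) (A x) : E →ₗ[ℝ] E →L[ℝ] ℝ) :=
      (injective_iff_map_eq_zero _).2 fun u hu => hi x hx u (e.map_eq_zero_iff.1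
        ((inner_self_eq_zero (𝕜 := ℝ)).1 (DFunLike.congr_fun hu u)))
    refine ⟨(LinearMap.linearEquivOfInjective _ h1 ?_).toContinuousLinearEquiv, by ext; rfl⟩
    rw [← (LinearMap.toContinuousLinearMap (𝕜 := ℝ) (E := E) (F' := ℝ)).finrank_eq]
    exact Subspace.dual_finrank_eq.symm
  have := FiniteDimensional.complete ℝ E
  refine ⟨fun x => (b.bilinearComp (A x) (A x)).inverse.comp
    (b.bilinearComp (ContinuousLinearMap.id ℝ F) (A x)), ContinuousOn.clm_comp (fun x hx => ?_)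
      (htpy_cont continuousOn_const continuousOn_const hA), fun x hx u => ?_⟩
  · exact ((hG x hx).contDiffAt_map_inverse (n := 0)).continuousAt.comp_continuousWithinAt
      (f := fun x => b.bilinearComp (A x) (A x)) (htpy_cont continuousOn_const hA hA x hx)
  · exact (hG x hx).inverse_apply_eq.2 rfl

theorem NDField.htpy {S : Set X} {T : X → Submodule ℝ E} {Ω Ω' : X → Bil E} (h : NDField S T Ω)
    (he : ∀ x ∈ S, ∀ u ∈ T x, ∀ v ∈ T x, Ω x u v = Ω' x u v) : NDHtpy S T Ω Ω' :=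
  ⟨fun q => Ω q.2, ⟨h.cont.comp continuousOn_snd fun _ hq => hq.2, fun _ hq => h.nd _ hq.2⟩,
    fun x hx u hu v hv => ⟨rfl, he x hx u hu v hv⟩⟩

theorem NDHtpy.symm {S : Set X} {T : X → Submodule ℝ E} {Ω Ω' : X → Bil E}
    (h : NDHtpy S T Ω Ω') : NDHtpy S T Ω' Ω := by
  obtain ⟨H, hH, he⟩ := h
  have hm : MapsTo (fun q : ℝ × X => (1 - q.1, q.2)) (Icc 0 1 ×ˢ S) (Icc 0 1 ×ˢ S) :=
    fun q hq => ⟨⟨sub_nonneg.2 hq.1.2, sub_le_self _ hq.1.1⟩, hq.2⟩
  refine ⟨fun q => H (1 - q.1, q.2), ⟨hH.cont.comp (by fun_prop) hm, fun q hq => hH.nd _ (hm hq)⟩,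
    fun x hx u hu v hv => ?_⟩
  simpa using (he x hx u hu v hv).symm

theorem NDHtpy.congr {S : Set X} {T : X → Submodule ℝ E} {Ω₀ Ω₁ Ω₀' Ω₁' : X → Bil E}
    (h : NDHtpy S T Ω₀ Ω₁) (h0 : ∀ x ∈ S, ∀ u ∈ T x, ∀ v ∈ T x, Ω₀ x u v = Ω₀' x u v)
    (h1 : ∀ x ∈ S, ∀ u ∈ T x, ∀ v ∈ T x, Ω₁ x u v = Ω₁' x u v) : NDHtpy S T Ω₀' Ω₁' :=
  let ⟨H, hH, he⟩ := h
  ⟨H, hH, fun x hx u hu v hv => ⟨(he x hx u hu v hv).1.trans (h0 x hx u hu v hv),
    (he x hx u hu v hv).2.trans (h1 x hx u hu v hv)⟩⟩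

/-- The two middle forms agree only on `T`; join them by the straight segment. -/
theorem NDHtpy.trans {S : Set X} {T : X → Submodule ℝ E} {Ω₀ Ω₁ Ω₂ : X → Bil E}
    (h : NDHtpy S T Ω₀ Ω₁) (h' : NDHtpy S T Ω₁ Ω₂) : NDHtpy S T Ω₀ Ω₂ := by
  obtain ⟨H, hH, he⟩ := h
  obtain ⟨G, hG, ge⟩ := h'
  have ha : MapsTo (fun q : ℝ × X => (min 1 (3 * q.1), q.2)) (Icc 0 1 ×ˢ S) (Icc 0 1 ×ˢ S) :=
    fun q hq => ⟨⟨le_min zero_le_one (by linarith [hq.1.1]), min_le_left _ _⟩, hq.2⟩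
  have hb : MapsTo (fun q : ℝ × X => (max 0 (3 * q.1 - 2), q.2)) (Icc 0 1 ×ˢ S) (Icc 0 1 ×ˢ S) :=
    fun q hq => ⟨⟨le_max_left _ _, max_le zero_le_one (by linarith [hq.1.2])⟩, hq.2⟩
  have hs : Continuous fun q : ℝ × X => max 0 (min 1 (3 * q.1 - 1)) := by fun_prop
  refine ⟨fun q => (1 - max 0 (min 1 (3 * q.1 - 1))) • H (min 1 (3 * q.1), q.2) +
    max 0 (min 1 (3 * q.1 - 1)) • G (max 0 (3 * q.1 - 2), q.2),
    ⟨htpy_comb (continuous_const.sub hs).continuousOn hs.continuousOn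
      (hH.cont.comp (by fun_prop) ha) (hG.cont.comp (by fun_prop) hb), fun q hq => ?_⟩,
    fun x hx u hu v hv => ⟨?_, ?_⟩⟩
  · by_cases h1 : 3 * q.1 ≤ 1
    · have : max 0 (min 1 (3 * q.1 - 1)) = 0 := max_eq_left (min_le_of_right_le (by linarith))
      exact (hH.nd _ (ha hq)).congr fun u _ v _ => by simp [this]
    · by_cases h2 : 2 ≤ 3 * q.1
      · have : max 0 (min 1 (3 * q.1 - 1)) = 1 := by
          rw [min_eq_left (by linarith), max_eq_right zero_le_one]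
        exact (hG.nd _ (hb hq)).congr fun u _ v _ => by simp [this]
      · refine (hH.nd (1, q.2) ⟨⟨zero_le_one, le_rfl⟩, hq.2⟩).congr fun u hu v hv => ?_
        rw [min_eq_left (not_le.1 h1).le, max_eq_left (show 3 * q.1 - 2 ≤ 0 by linarith)]
        simp only [add_apply, smul_apply, smul_eq_mul,
          (he _ hq.2 u hu v hv).2, (ge _ hq.2 u hu v hv).1]
        ring
  · simpa using (he x hx u hu v hv).1
  · have h1 : (3 : ℝ) - 2 = 1 := by norm_num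
    have h2 : min (1 : ℝ) (3 - 1) = 1 := by norm_num
    simpa [h1, h2] using (ge x hx u hu v hv).2

theorem NDHtpy.nd_left {S : Set X} {T : X → Submodule ℝ E} {Ω Ω' : X → Bil E}
    (h : NDHtpy S T Ω Ω') {x : X} (hx : x ∈ S) : ND (T x) (Ω x) :=
  let ⟨_, hH, he⟩ := h
  (hH.nd (0, x) ⟨⟨le_rfl, zero_le_one⟩, hx⟩).congr fun u hu v hv => (he x hx u hu v hv).1

/-- Pull-back along a continuous map covered by fibrewise isomorphisms. -/
theorem NDField.comp {S : Set X} {S' : Set Y} {T : X → Submodule ℝ E} {T' : Y → Submodule ℝ E'}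
    {Ω : Y → Bil E'} (h : NDField S' T' Ω) {r : X → Y} (hr : ContinuousOn r S)
    (hm : MapsTo r S S') {Φ : X → E →L[ℝ] E'} (hΦ : ContinuousOn Φ S)
    (hb : ∀ x ∈ S, BijOn (Φ x) (T x) (T' (r x))) :
    NDField S T (fun x => (Ω (r x)).bilinearComp (Φ x) (Φ x)) :=
  ⟨htpy_cont (h.cont.comp hr hm) hΦ hΦ, fun x hx => (h.nd _ (hm hx)).comp (hb x hx)⟩

theorem NDHtpy.comp {S : Set X} {S' : Set Y} {T : X → Submodule ℝ E} {T' : Y → Submodule ℝ E'}
    {Ω Ω' : Y → Bil E'} (h : NDHtpy S' T' Ω Ω') {r : X → Y} (hr : ContinuousOn r S)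
    (hm : MapsTo r S S') {Φ : X → E →L[ℝ] E'} (hΦ : ContinuousOn Φ S)
    (hb : ∀ x ∈ S, BijOn (Φ x) (T x) (T' (r x))) :
    NDHtpy S T (fun x => (Ω (r x)).bilinearComp (Φ x) (Φ x))
      (fun x => (Ω' (r x)).bilinearComp (Φ x) (Φ x)) :=
  let ⟨H, hH, he⟩ := h
  ⟨fun q => (H (q.1, r q.2)).bilinearComp (Φ q.2) (Φ q.2),
    hH.comp (r := fun q : ℝ × X => (q.1, r q.2))
      (continuousOn_fst.prodMk (hr.comp continuousOn_snd fun _ hq => hq.2))
      (fun _ hq => ⟨hq.1, hm hq.2⟩) (hΦ.comp continuousOn_snd fun _ hq => hq.2)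
      fun _ hq => hb _ hq.2,
    fun x hx _ hu _ hv => he _ (hm hx) _ ((hb x hx).mapsTo hu) _ ((hb x hx).mapsTo hv)⟩

/-- A homotopy of the map and of the covering isomorphisms gives a homotopy of forms. -/
theorem NDField.comp_htpy {S : Set X} {S' : Set Y} {T : X → Submodule ℝ E}
    {T' : Y → Submodule ℝ E'} {Ω : Y → Bil E'} (h : NDField S' T' Ω) {r : ℝ × X → Y}
    (hr : ContinuousOn r (Icc 0 1 ×ˢ S)) (hm : MapsTo r (Icc 0 1 ×ˢ S) S')
    {Φ : ℝ × X → E →L[ℝ] E'} (hΦ : ContinuousOn Φ (Icc 0 1 ×ˢ S))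
    (hb : ∀ q ∈ Icc (0 : ℝ) 1 ×ˢ S, BijOn (Φ q) (T q.2) (T' (r q))) :
    NDHtpy S T (fun x => (Ω (r (0, x))).bilinearComp (Φ (0, x)) (Φ (0, x)))
      (fun x => (Ω (r (1, x))).bilinearComp (Φ (1, x)) (Φ (1, x))) :=
  ⟨_, h.comp hr hm hΦ hb, fun _ _ _ _ _ _ => ⟨rfl, rfl⟩⟩

theorem NDField.plus {S : Set X} {T : X → Submodule ℝ E} {Ω : X → Bil E} (h : NDField S T Ω)
    {η : Bil F} (hη : ND ⊤ η) : NDField S (fun x => pl (T x) F) (fun x => osum (Ω x) η) :=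
  ⟨(htpy_cont h.cont continuousOn_const continuousOn_const).add continuousOn_const,
    fun x hx => (h.nd x hx).plus hη⟩

theorem NDHtpy.plus {S : Set X} {T : X → Submodule ℝ E} {Ω Ω' : X → Bil E} (h : NDHtpy S T Ω Ω')
    {η : Bil F} (hη : ND ⊤ η) :
    NDHtpy S (fun x => pl (T x) F) (fun x => osum (Ω x) η) (fun x => osum (Ω' x) η) :=
  let ⟨_, hH, he⟩ := h
  ⟨_, hH.plus hη, fun x hx u hu v hv => by
    have := he x hx u.1 (mem_pl.1 hu) v.1 (mem_pl.1 hv)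
    simp only [osum_apply, this.1, this.2, and_self]⟩

theorem NDHtpy.segment {S : Set X} {T : X → Submodule ℝ E} {Ω Ω' : X → Bil E}
    (h : ContinuousOn Ω S) (h' : ContinuousOn Ω' S)
    (hn : ∀ t ∈ Icc (0 : ℝ) 1, ∀ x ∈ S, ND (T x) ((1 - t) • Ω x + t • Ω' x)) :
    NDHtpy S T Ω Ω' :=
  ⟨fun q => (1 - q.1) • Ω q.2 + q.1 • Ω' q.2,
    ⟨htpy_comb (continuousOn_const.sub continuousOn_fst) continuousOn_fst
      (h.comp continuousOn_snd fun _ hq => hq.2) (h'.comp continuousOn_snd fun _ hq => hq.2),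
      fun q hq => hn q.1 hq.1 q.2 hq.2⟩, fun _ _ _ _ _ _ => by simp⟩

/-- Stability on compact sets, for a continuous field of subspaces given by projectors. -/
theorem NDField.stable {S : Set X} (hS : IsCompact S) {T : X → Submodule ℝ E} {Ω : X → Bil E}
    (h : NDField S T Ω) {P : X → E →L[ℝ] E} (hP : ContinuousOn P S)
    (hT : ∀ x ∈ S, (∀ v, P x v ∈ T x) ∧ ∀ v ∈ T x, P x v = v) :
    ∃ ε > 0, ∀ x ∈ S, ∀ w : Bil E, (∀ u ∈ T x, w u u = 0) →
      (∀ u ∈ T x, ∀ v ∈ T x, |w u v - Ω x u v| ≤ ε * ‖u‖ * ‖v‖) → ND (T x) w := by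
  have hP' : ContinuousOn (fun q : X × E => P q.1) (S ×ˢ Metric.sphere (0 : E) 1) :=
    hP.comp continuousOn_fst fun _ hq => hq.1
  have hΩ : ContinuousOn (fun q : X × E => Ω q.1) (S ×ˢ Metric.sphere (0 : E) 1) :=
    h.cont.comp continuousOn_fst fun _ hq => hq.1
  have hf : ContinuousOn (fun q : X × E => ‖(Ω q.1 q.2).comp (P q.1)‖ + ‖q.2 - P q.1 q.2‖)
      (S ×ˢ Metric.sphere (0 : E) 1) :=
    ((hΩ.clm_apply continuousOn_snd).clm_comp hP').norm.add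
      (continuousOn_snd.sub (hP'.clm_apply continuousOn_snd)).norm
  obtain ⟨c, hc, h1⟩ := (hS.prod (isCompact_sphere (0 : E) 1)).exists_forall_le' hf (a := 0)
    (fun q hq => by
      refine lt_of_le_of_ne (by positivity) fun h0 => ?_
      obtain ⟨h2, h3⟩ := (add_eq_zero_iff_of_nonneg (norm_nonneg _) (norm_nonneg _)).1 h0.symm
      have h4 : q.2 ∈ T q.1 := by
        rw [sub_eq_zero.1 (norm_eq_zero.1 h3)]; exact (hT _ hq.1).1 _
      have h5 := (h.nd _ hq.1).2 _ h4 fun v hv => by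
        rw [← (hT _ hq.1).2 v hv]
        exact DFunLike.congr_fun (norm_eq_zero.1 h2) v
      have h6 := hq.2
      rw [h5] at h6
      simp at h6)
  obtain ⟨M, hM⟩ := hS.exists_bound_of_continuousOn hP
  refine ⟨c / (2 * (|M| + 1)), by positivity, fun x hx w hw hd => ⟨hw, fun u hu h0 => ?_⟩⟩
  by_contra hu0
  have hn : ‖‖u‖⁻¹ • u‖ = 1 := norm_smul_inv_norm (𝕜 := ℝ) hu0
  have hm : ‖u‖⁻¹ • u ∈ T x := (T x).smul_mem _ hu
  have h2 := h1 (x, ‖u‖⁻¹ • u) ⟨hx, mem_sphere_zero_iff_norm.2 hn⟩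
  simp only [(hT x hx).2 _ hm, sub_self, norm_zero, add_zero] at h2
  have h3 : ‖(Ω x (‖u‖⁻¹ • u)).comp (P x)‖ ≤ c / (2 * (|M| + 1)) * |M| := by
    refine ContinuousLinearMap.opNorm_le_bound _ (by positivity) fun v => ?_
    have h4 := hd _ hm _ ((hT x hx).1 v)
    rw [map_smul w, smul_apply, h0 _ ((hT x hx).1 v), smul_zero, zero_sub,
      abs_neg, hn, mul_one] at h4
    refine h4.trans ?_
    rw [mul_assoc]
    exact mul_le_mul_of_nonneg_left (((P x).le_opNorm v).trans (mul_le_mul_of_nonneg_right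
      ((hM x hx).trans (le_abs_self M)) (norm_nonneg v))) (by positivity)
  have h5 : c / (2 * (|M| + 1)) * |M| < c := by
    rw [div_mul_eq_mul_div, div_lt_iff₀ (by positivity)]
    exact mul_lt_mul_of_pos_left (by linarith [abs_nonneg M]) hc
  linarith

/-- Continuous inverse of a field of isomorphisms between subspaces. -/
theorem exists_inverse_field {S : Set X} {T : X → Submodule ℝ E} {T' : X → Submodule ℝ E'}
    {P : X → E →L[ℝ] E} (hP : ContinuousOn P S)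
    (hT : ∀ x ∈ S, (∀ v, P x v ∈ T x) ∧ ∀ v ∈ T x, P x v = v)
    {P' : X → E' →L[ℝ] E'} (hP' : ContinuousOn P' S)
    (hT' : ∀ x ∈ S, (∀ v, P' x v ∈ T' x) ∧ ∀ v ∈ T' x, P' x v = v)
    {Φ : X → E →L[ℝ] E'} (hΦ : ContinuousOn Φ S) (hb : ∀ x ∈ S, BijOn (Φ x) (T x) (T' x)) :
    ∃ Ψ : X → E' →L[ℝ] E, ContinuousOn Ψ S ∧ ∀ x ∈ S, (∀ v, Ψ x v ∈ T x) ∧
      (∀ v ∈ T x, Ψ x (Φ x v) = v) ∧ ∀ v ∈ T' x, Φ x (Ψ x v) = v := by
  have _ := hP'
  have _ := hT'
  obtain ⟨B, hB, hl⟩ := htpy_left (S := S)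
    (A := fun x => ((Φ x).comp (P x)).prod (ContinuousLinearMap.id ℝ E - P x))
    (continuousOn_clm_apply.2 fun v => (hΦ.clm_apply (hP.clm_apply continuousOn_const)).prodMk
      (continuousOn_const.sub (hP.clm_apply continuousOn_const))) fun x hx u hu => by
      have h1 : Φ x (P x u) = 0 := congrArg Prod.fst hu
      have h2 : u = P x u := sub_eq_zero.1 (congrArg Prod.snd hu)
      rw [h2]
      exact (hb x hx).injOn ((hT x hx).1 u) (T x).zero_mem (h1.trans (map_zero _).symm)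
  have h3 : ∀ x ∈ S, ∀ v ∈ T x, P x (B x (Φ x v, 0)) = v := fun x hx v hv => by
    have := hl x hx v
    simp only [ContinuousLinearMap.prod_apply, ContinuousLinearMap.comp_apply,
      sub_apply, ContinuousLinearMap.id_apply, (hT x hx).2 v hv,
      sub_self] at this
    rw [this, (hT x hx).2 v hv]
  refine ⟨fun x => (P x).comp ((B x).comp (ContinuousLinearMap.inl ℝ E' E)),
    hP.clm_comp (hB.clm_comp continuousOn_const), fun x hx =>
      ⟨fun v => (hT x hx).1 _, h3 x hx, fun v hv => ?_⟩⟩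
  obtain ⟨u, hu, rfl⟩ := (hb x hx).surjOn hv
  exact congrArg (Φ x) (h3 x hx u hu)

end

omit [FiniteDimensional ℝ E] [FiniteDimensional ℝ E'] in
theorem htpy_d {S : Set E} {S' : Set E'} {φ : E → E'} {ψ : E' → E} (hd : Diff S S' φ ψ) :
    Continuous fun x => (fderiv ℝ φ x).prodMap (ContinuousLinearMap.id ℝ ℝ) :=
  (hd.smφ.continuous_fderiv (by simp)).prod_mapL ℝ continuous_const

theorem Formal.diff {S : Set E} {S' : Set E'} {φ : E → E'} {ψ : E' → E} (hd : Diff S S' φ ψ)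
    {Ω : E' → Bil (E' × ℝ)} (h : Formal S' Ω) : Formal S (pb2 φ Ω) :=
  h.comp hd.smφ.continuous.continuousOn hd.mapφ (htpy_d hd).continuousOn
    fun _ hx => (hd.tan_bijOn hx).prodMap (bijOn_id univ)

theorem Htpy.diff {S : Set E} {S' : Set E'} {φ : E → E'} {ψ : E' → E} (hd : Diff S S' φ ψ)
    {Ω Ω' : E' → Bil (E' × ℝ)} (h : Htpy S' Ω Ω') : Htpy S (pb2 φ Ω) (pb2 φ Ω') :=
  h.comp hd.smφ.continuous.continuousOn hd.mapφ (htpy_d hd).continuousOn
    fun _ hx => (hd.tan_bijOn hx).prodMap (bijOn_id univ)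

theorem Htpy.stab {S : Set E} {Ω Ω' : E → Bil (E × ℝ)} (h : Htpy S Ω Ω') :
    StabHtpy S Ω Ω' :=
  have h0 : ND ⊤ (0 : Bil (Rd 0)) := ⟨fun _ _ => rfl, fun _ _ _ => Subsingleton.elim _ _⟩
  ⟨Rd 0, _, _, inferInstance, 0, h0, h.plus h0⟩

theorem StabHtpy.symm {S : Set E} {Ω Ω' : E → Bil (E × ℝ)} (h : StabHtpy S Ω Ω') :
    StabHtpy S Ω' Ω :=
  let ⟨K, _, _, hK, η, hη, h⟩ := h
  ⟨K, _, _, hK, η, hη, h.symm⟩

theorem StabHtpy.trans {S : Set E} {Ω₀ Ω₁ Ω₂ : E → Bil (E × ℝ)} (h : StabHtpy S Ω₀ Ω₁)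
    (h' : StabHtpy S Ω₁ Ω₂) : StabHtpy S Ω₀ Ω₂ := by
  obtain ⟨K, _, _, _, η, hη, h⟩ := h
  obtain ⟨K', _, _, _, η', hη', h'⟩ := h'
  let A : ((E × ℝ) × K × K') ≃L[ℝ] ((E × ℝ) × K) × K' :=
    (ContinuousLinearEquiv.prodAssoc ℝ (E × ℝ) K K').symm
  let B : ((E × ℝ) × K × K') ≃L[ℝ] ((E × ℝ) × K') × K :=
    ((ContinuousLinearEquiv.refl ℝ (E × ℝ)).prodCongr (ContinuousLinearEquiv.prodComm ℝ K K')).trans
      (ContinuousLinearEquiv.prodAssoc ℝ (E × ℝ) K' K).symm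
  have h1 := (h.plus hη').comp (T := fun x => pl (T1 S x) (K × K')) continuousOn_id (mapsTo_id S)
    (Φ := fun _ => (A : _ →L[ℝ] _)) continuousOn_const fun x _ =>
      A.toEquiv.bijOn fun v => by simp only [SetLike.mem_coe, mem_pl]; rfl
  have h2 := (h'.plus hη).comp (T := fun x => pl (T1 S x) (K × K')) continuousOn_id (mapsTo_id S)
    (Φ := fun _ => (B : _ →L[ℝ] _)) continuousOn_const fun x _ =>
      B.toEquiv.bijOn fun v => by simp only [SetLike.mem_coe, mem_pl]; rfl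
  have hA : ∀ (w : Bil (E × ℝ)) u v, (osum (osum w η) η').bilinearComp (A : _ →L[ℝ] _)
      (A : _ →L[ℝ] _) u v = osum w (osum η η') u v := fun w u v => by
    simp only [ContinuousLinearMap.bilinearComp_apply, osum_apply]
    exact add_assoc _ _ _
  have hB : ∀ (w : Bil (E × ℝ)) u v, (osum (osum w η') η).bilinearComp (B : _ →L[ℝ] _)
      (B : _ →L[ℝ] _) u v = osum w (osum η η') u v := fun w u v => by
    simp only [ContinuousLinearMap.bilinearComp_apply, osum_apply]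
    exact (add_right_comm _ _ _).trans (add_assoc _ _ _)
  refine ⟨K × K', _, _, inferInstance, osum η η', ?_,
    (h1.congr (fun x _ u _ v _ => hA _ u v) fun x _ u _ v _ => hA _ u v).trans
      (h2.congr (fun x _ u _ v _ => hB _ u v) fun x _ u _ v _ => hB _ u v)⟩
  have := hη.plus hη'
  rwa [pl, Submodule.prod_top] at this

theorem StabHtpy.diff {S : Set E} {S' : Set E'} {φ : E → E'} {ψ : E' → E} (hd : Diff S S' φ ψ)
    {Ω Ω' : E' → Bil (E' × ℝ)} (h : StabHtpy S' Ω Ω') : StabHtpy S (pb2 φ Ω) (pb2 φ Ω') := by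
  obtain ⟨K, _, _, hK, η, hη, h⟩ := h
  refine ⟨K, _, _, hK, η, hη, (h.comp hd.smφ.continuous.continuousOn hd.mapφ
    ((htpy_d hd).prod_mapL ℝ (continuous_const (y := ContinuousLinearMap.id ℝ K))).continuousOn
    fun _ hx => ((hd.tan_bijOn hx).prodMap (bijOn_id univ)).prodMap (bijOn_id univ)).congr
      (fun x _ u _ v _ => ?_) fun x _ u _ v _ => ?_⟩ <;>
  · simp only [ContinuousLinearMap.bilinearComp_apply, osum_apply]
    rfl

theorem Diff.pb2_pb2 {S : Set E} {S' : Set E'} {φ : E → E'} {ψ : E' → E} (hd : Diff S S' φ ψ)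
    (Ω : E → Bil (E × ℝ)) {x : E} (hx : x ∈ S) {u v : E × ℝ} (hu : u ∈ T1 S x) (hv : v ∈ T1 S x) :
    pb2 φ (pb2 ψ Ω) x u v = Ω x u v := by
  rw [pb2_apply, pb2_apply, hd.tan_left hx (mem_T1.1 hu), hd.tan_left hx (mem_T1.1 hv),
    hd.left x hx]

end Pool.Agent.Lib.MP_ccffa6_gt
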