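import Pool.Agent.Lib.MP_ccffa6_gt.K.GLong
import Pool.Agent.Lib.MP_ccffa6_gt.K.Htpy0
import Pool.Agent.Lib.MP_ccffa6_gt.K.Proj

open Set Filter Topology
open scoped ContDiff

noncomputable section

namespace Pool.Agent.Lib.MP_ccffa6_gt

variable {E : Type} [NormedAddCommGroup E] [NormedSpace ℝ E] [FiniteDimensional ℝ E]
  {E' : Type} [NormedAddCommGroup E'] [NormedSpace ℝ E'] [FiniteDimensional ℝ E']
  {F : Type} [NormedAddCommGroup F] [NormedSpace ℝ F] [FiniteDimensional ℝ F]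

omit [FiniteDimensional ℝ E] [FiniteDimensional ℝ E'] in
theorem gl_inl (N : Set E) : Diff N (N ×ˢ {(0 : E')}) (fun x => (x, 0)) Prod.fst :=
  ⟨by fun_prop, contDiff_fst, fun _ hx => ⟨hx, rfl⟩, fun _ hx => hx.1, fun _ _ => rfl,
    fun _ hx => Prod.ext rfl hx.2.symm⟩

omit [FiniteDimensional ℝ E] [FiniteDimensional ℝ E'] in
theorem gl_inr (M : Set E') : Diff M ({(0 : E)} ×ˢ M) (fun y => (0, y)) Prod.snd :=
  ⟨by fun_prop, contDiff_snd, fun _ hx => ⟨rfl, hx⟩, fun _ hx => hx.2, fun _ _ => rfl,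
    fun _ hx => Prod.ext hx.1.symm rfl⟩

omit [FiniteDimensional ℝ E] [FiniteDimensional ℝ E'] in
theorem gl_pb_inl (α : Form1 E) : pb (fun x => (x, (0 : E'))) (pb Prod.fst α) = α :=
  (gc_pb_comp (by fun_prop) contDiff_fst α).symm.trans (gc_pb_id α)

omit [FiniteDimensional ℝ E] [FiniteDimensional ℝ E'] in
theorem gl_pb_inr (α : Form1 E') : pb (fun y => ((0 : E), y)) (pb Prod.snd α) = α :=
  (gc_pb_comp (by fun_prop) contDiff_snd α).symm.trans (gc_pb_id α)

/-- Gluing two completed cobordisms along a diffeomorphism, in the ambient space `E × E'`: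
below `0` the first one (times `0`), then the mapping cylinder `(a t • x, b t • φ x, t)`, then
the second one; finally rescale the height. -/
theorem XCob.glue {n : ℕ} {W : Set (E × ℝ)} {lam : Form1 (E × ℝ)} {N S : Set E} {α β : Form1 E}
    (h : XCob n W lam N α S β) {W' : Set (E' × ℝ)} {lam' : Form1 (E' × ℝ)} {S' M : Set E'}
    {β' γ : Form1 E'} (h' : XCob n W' lam' S' β' M γ) {φ : E → E'} {ψ : E' → E}
    (hd : Diff S S' φ ψ) (he : EqT S β (pb φ β')) :
    ∃ (W'' : Set ((E × E') × ℝ)) (lam'' : Form1 ((E × E') × ℝ)),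
      XCob n W'' lam'' (N ×ˢ {0}) (pb Prod.fst α) ({0} ×ˢ M) (pb Prod.snd γ) := by
  obtain ⟨χ, -, c1, -, -, -, c5, c6⟩ := gc_step
  obtain ⟨c, k⟩ := h.lx
  obtain ⟨c', k'⟩ := h'.lx
  have sφ := hd.smφ
  have sψ := hd.smψ
  have hS : Diff S ({(0 : E)} ×ˢ S') (fun x => (0, φ x)) fun q => q.1 + ψ q.2 :=
    ⟨by fun_prop, by fun_prop, fun _ hx => ⟨rfl, hd.mapφ hx⟩,
      fun q hq => by simpa [show q.1 = 0 from hq.1] using hd.mapψ hq.2,
      fun x hx => by simp [hd.left x hx],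
      fun q hq => Prod.ext hq.1.symm (by simp [show q.1 = 0 from hq.1, hd.right _ hq.2])⟩
  have k1 := k.move (k₀ := 0) (k₁ := 0) (a₁ := 0) (b₁ := 2) (L := 0) (Diff.image
    (φ := fun p : E × ℝ => (((1 - χ (p.2 - 1)) • p.1, χ p.2 • φ p.1), p.2))
    (ψ := fun q : (E × E') × ℝ => (q.1.1 + χ (q.2 - 1) • ψ q.1.2, q.2)) (by fun_prop) (by fun_prop)
    fun p hp => by
      rcases le_total p.2 1 with a | a
      · simp [c5 _ (sub_nonpos.2 a)]
      · simp [c6 _ a, hd.left _ ((k.top p a).1 hp), sub_smul])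
    (gl_inl N) hS (contDiff_pb contDiff_fst h.cN.sm)
    (contDiff_pb contDiff_snd h'.cN.sm) (fun _ _ _ _ => by rw [gl_pb_inl])
    (fun x hx v hv => by
      rw [he x hx v hv, ← gc_pb_comp (by fun_prop) contDiff_snd]; rfl) (by simp) (by simp)
    (fun p hp => by simp [c5 p.2 (by linarith), c5 (p.2 - 1) (by linarith)])
    (fun p hp => by simp [c5 (p.2 - 1) (by linarith)])
    (fun p hp => by simp [c6 p.2 (by linarith), c6 (p.2 - 1) (by linarith)])
    (fun p hp => by simp [c6 (p.2 - 1) (by linarith)]) fun _ => by simp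
  have k2 := k'.move (k₀ := 3) (k₁ := 3) (a₁ := 3) (b₁ := 4) (L := 3) (Diff.image
    (φ := fun p : E' × ℝ => (((0 : E), p.1), p.2 + 3))
    (ψ := fun q : (E × E') × ℝ => (q.1.2, q.2 - 3)) (by fun_prop) (by fun_prop) fun p _ => by simp)
    (gl_inr S') (gl_inr M) (contDiff_pb contDiff_snd h'.cN.sm) (contDiff_pb contDiff_snd h'.cM.sm)
    (fun _ _ _ _ => by rw [gl_pb_inr]) (fun _ _ _ _ => by rw [gl_pb_inr]) (by simp) (by norm_num)
    (fun _ _ => rfl) (fun _ _ => rfl) (fun _ _ => rfl) (fun _ _ => rfl) fun _ => by simp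
  have k3 := k2.smul (c + 3)
  rw [show 0 - 3 + (c + 3) = c - 0 by ring] at k3
  obtain ⟨V, l, k4⟩ := k1.stack k3 (by norm_num) (by norm_num) (by norm_num)
  exact LX.rescale (sub_zero (0 : ℝ) ▸ k4) (by norm_num)

theorem Good.cob {n : ℕ} {W : Set (E × ℝ)} {lam : Form1 (E × ℝ)} {S M : Set E} {β γ : Form1 E}
    (h : XCob n W lam S β M γ) (hg : Good n S β) : Good n M γ := by
  obtain ⟨F, _, _, _, W₀, l₀, N, α, S₁, β₁, φ, ψ, a1, a2, a3, a4⟩ := hg
  obtain ⟨V, l, k⟩ := a1.glue h a3.symm (a4.gc_symm a3)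
  exact ⟨F × E, _, _, inferInstance, V, l, _, _, _, _, _, _, k,
    a2.diff (gl_inl N).symm a1.cN.sm, gl_inr M,
    fun _ _ _ _ => by rw [gl_pb_inr]⟩

theorem Good.path {n : ℕ} {S : Set E} {α : ℝ → Form1 E}
    (hs : ContDiff ℝ ∞ fun q : ℝ × E => α q.1 q.2) (h : ∀ t ∈ Icc (0 : ℝ) 1, CMan n S (α t))
    (hg : Good n S (α 0)) : Good n S (α 1) :=
  have ⟨_, k⟩ := xcob_of_path hs h
  hg.cob k

theorem Good.smul {n : ℕ} {S : Set E} {α : Form1 E} (h : CMan n S α) {g : E → ℝ}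
    (hg : ContDiff ℝ ∞ g) (h0 : ∀ x ∈ S, 0 < g x) (hG : Good n S α) :
    Good n S (fun x => g x • α x) := by
  have hα : ContDiff ℝ ∞ fun x => α x := h.sm
  simpa using Good.path (α := fun t x => (1 - t + t * g x) • α x) (by fun_prop)
    (fun t ht => h.smul (by fun_prop) fun x hx => ne_of_gt (by
      rcases ht.1.eq_or_lt with rfl | a
      · simp
      · linarith [mul_pos a (h0 x hx), ht.2])) (by simpa using hG)

end Pool.Agent.Lib.MP_ccffa6_gt
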