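import Pool.Agent.Lib.MP_ccffa6_gt.K.Level
import Pool.Agent.Lib.MP_45f3cb_gt.FlowC
import Pool.Agent.Lib.MP_45f3cb_gt.FlowD

open Set Filter Topology
open scoped ContDiff

noncomputable section

namespace Pool.Agent.Lib.MP_ccffa6_gt

variable {E : Type} [NormedAddCommGroup E] [NormedSpace ℝ E] [FiniteDimensional ℝ E]
  {E' : Type} [NormedAddCommGroup E'] [NormedSpace ℝ E'] [FiniteDimensional ℝ E']
  {F : Type} [NormedAddCommGroup F] [NormedSpace ℝ F] [FiniteDimensional ℝ F]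

open Pool.Agent.Lib.MP_45f3cb_gt in
/-- Short time version of `IsSub.flow_mem`. -/
theorem IsSub.flow_local {d : ℕ} {S U : Set E} (h : IsSub d S) (hU : IsOpen U) {Y : E → E}
    {Φ : ℝ → E → E} (hΦ : IsFlow Y Φ) (hY : ∀ x ∈ S ∩ U, Y x ∈ Tan S x) {y : E} (hy : y ∈ S)
    (hyU : y ∈ U) : ∀ᶠ s in 𝓝 (0 : ℝ), Φ s y ∈ S := by
  obtain ⟨φ, ψ, hc⟩ := h y hy
  have hsY : ContDiff ℝ ∞ Y := hΦ.smY
  have hZ : ContDiff ℝ ∞ fun z => fderiv ℝ ψ (φ z) (Y (φ z)) :=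
    ((contDiff_infty_iff_fderiv.1 hc.smψ).2.comp hc.smφ).clm_apply (hsY.comp hc.smφ)
  obtain ⟨Z, z1, z2, -, z4⟩ := exists_smooth_nhdsSet (A := {ψ y}) isClosed_singleton isOpen_univ
    (subset_univ _) hZ.contDiffOn
  rw [nhdsSet_singleton] at z2
  obtain ⟨Ψ, hΨ⟩ := exists_isFlow z1 (z4 isCompact_singleton)
  have t1 : Tendsto (fun s => Ψ s (ψ y)) (𝓝 0) (𝓝 (ψ y)) := by
    simpa [hΨ.zero] using (hΨ.cont_z (ψ y)).tendsto 0
  have t2 : Tendsto (fun s => φ (Ψ s (ψ y))) (𝓝 0) (𝓝 y) := by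
    have := (hc.smφ.continuous.tendsto (ψ y)).comp t1
    rwa [hc.self hy] at this
  have t3 : Tendsto (fun s => φ (Ψ s (ψ y))) (𝓝 0) (𝓝[S] y) :=
    tendsto_nhdsWithin_iff.2 ⟨t2, (t1.eventually hc.right).mono fun s hs => hs.1⟩
  obtain ⟨K, hK⟩ := hΦ.lip
  have hd : ∀ᶠ s in 𝓝 (0 : ℝ),
      HasDerivAt (fun s => φ (Ψ s (ψ y))) (Y (φ (Ψ s (ψ y)))) s ∧ φ (Ψ s (ψ y)) ∈ univ := by
    filter_upwards [t1.eventually hc.right, t1.eventually z2, t3.eventually hc.eventually,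
      t2.eventually (hU.mem_nhds hyU)] with s s1 s2 s3 s4
    refine ⟨?_, trivial⟩
    have h1 := (hc.smφ.differentiable (by simp) (Ψ s (ψ y))).hasFDerivAt.comp_hasDerivAt s
      (hΨ.der (ψ y) s)
    have h2 := s3.right_inv_fderiv s1.1 (hY _ ⟨s1.1, s4⟩)
    rw [s1.2] at h2
    rw [s2, h2] at h1
    exact h1
  have he := ODE_solution_unique_of_eventually (v := fun _ => Y) (s := fun _ => univ) (t₀ := 0)
    (g := fun s => Φ s y) (.of_forall fun _ => hK.lipschitzOnWith) hd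
    (.of_forall fun s => ⟨hΦ.der y s, trivial⟩) (by simp [hΨ.zero, hΦ.zero, hc.self hy])
  filter_upwards [he, t1.eventually hc.right] with s s1 s2
  exact s1 ▸ s2.1

/-- Continuous induction along `uIcc 0 t`. -/
theorem uIcc_induction {P : ℝ → Prop} {t : ℝ} (h0 : P 0)
    (ho : ∀ s ∈ uIcc 0 t, P s → ∀ᶠ r in 𝓝 s, r ∈ uIcc 0 t → P r)
    (hc : ∀ s ∈ uIcc 0 t, s ∈ closure {r | r ∈ uIcc 0 t ∧ P r} → P s) :
    ∀ s ∈ uIcc 0 t, P s := by
  have : PreconnectedSpace (uIcc (0 : ℝ) t) := isPreconnected_iff_preconnectedSpace.1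
    isPreconnected_uIcc
  have h1 : IsClopen {s : uIcc (0 : ℝ) t | P s} := by
    refine ⟨?_, isOpen_iff_mem_nhds.2 fun s hs => ?_⟩
    · refine isClosed_of_closure_subset fun s hs => hc s s.2 ?_
      refine map_mem_closure continuous_subtype_val hs fun r hr => ⟨r.2, hr⟩
    · exact (continuous_subtype_val.continuousAt.eventually (ho s s.2 hs)).mono
        fun r hr => hr r.2
  have h2 := h1.eq_univ ⟨⟨0, left_mem_uIcc⟩, h0⟩
  intro s hs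
  exact (h2.symm ▸ mem_univ (⟨s, hs⟩ : uIcc (0 : ℝ) t) : _ ∈ {s : uIcc (0 : ℝ) t | P s})

open Pool.Agent.Lib.MP_45f3cb_gt in
/-- An orbit of a field tangent to `S` stays in `S` as long as it stays in an open set `U` in which
`S` is relatively closed. -/
theorem IsSub.flow_mem {d : ℕ} {S U : Set E} (h : IsSub d S) (hU : IsOpen U)
    (hc : closure S ∩ U ⊆ S) {Y : E → E} {Φ : ℝ → E → E} (hΦ : IsFlow Y Φ)
    (hY : ∀ x ∈ S ∩ U, Y x ∈ Tan S x) {x : E} (hx : x ∈ S) {t : ℝ}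
    (ht : ∀ s ∈ uIcc 0 t, Φ s x ∈ U) : Φ t x ∈ S := by
  refine uIcc_induction (P := fun s => Φ s x ∈ S) (by rwa [hΦ.zero]) (fun s hs hP => ?_)
    (fun s hs hP => hc ⟨map_mem_closure (f := fun r => Φ r x) (hΦ.cont_z x) hP fun r hr => hr.2, ht s hs⟩) t
    right_mem_uIcc
  have h1 : Tendsto (fun r : ℝ => r - s) (𝓝 s) (𝓝 0) := by
    simpa using (continuous_sub_right s).tendsto s
  filter_upwards [h1.eventually (h.flow_local hU hΦ hY hP (ht s hs))] with r hr _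
  rwa [← hΦ.add, sub_add_cancel] at hr

open Pool.Agent.Lib.MP_45f3cb_gt in
theorem Closed.flow_mem {d : ℕ} {S : Set E} (h : Closed d S) {Y : E → E} {Φ : ℝ → E → E}
    (hΦ : IsFlow Y Φ) (hY : ∀ x ∈ S, Y x ∈ Tan S x) {x : E} (hx : x ∈ S) (t : ℝ) :
    Φ t x ∈ S :=
  h.sub.flow_mem isOpen_univ (fun _ hy => h.cpt.isClosed.closure_subset hy.1) hΦ
    (fun y hy => hY y hy.1) hx fun _ _ => trivial

open Pool.Agent.Lib.MP_45f3cb_gt in
/-- A flow whose field is tangent to `W` with `df Y = 1` near a compact slab raises `f` at unit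
speed there. -/
theorem IsSub.flow_level {d : ℕ} {W U : Set E} {f : E → ℝ} {a b : ℝ} (hW : IsSub d W)
    (hf : ContDiff ℝ ∞ f) (hc : IsCompact (W ∩ f ⁻¹' Icc a b)) (hU : IsOpen U)
    (hAU : W ∩ f ⁻¹' Icc a b ⊆ U) {Y : E → E} {Φ : ℝ → E → E} (hΦ : IsFlow Y Φ)
    (hY : ∀ x ∈ W ∩ U, Y x ∈ Tan W x ∧ fderiv ℝ f x (Y x) = 1) {x : E}
    (hx : x ∈ W ∩ f ⁻¹' Icc a b) {t : ℝ} (ht : f x + t ∈ Icc a b) :
    Φ t x ∈ W ∧ f (Φ t x) = f x + t := by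
  have hm : ∀ s ∈ uIcc 0 t, f x + s ∈ Icc a b := fun s hs => by
    have h1 := hx.2.1
    have h2 := hx.2.2
    rcases mem_uIcc.1 hs with h | h <;> constructor <;> linarith [ht.1, ht.2, h.1, h.2]
  have hA : ∀ s ∈ uIcc 0 t, Φ s x ∈ W ∧ f (Φ s x) = f x + s → Φ s x ∈ W ∩ f ⁻¹' Icc a b :=
    fun s hs hP => ⟨hP.1, by rw [mem_preimage, hP.2]; exact hm s hs⟩
  refine uIcc_induction (P := fun s => Φ s x ∈ W ∧ f (Φ s x) = f x + s)
    (by rw [hΦ.zero, add_zero]; exact ⟨hx.1, rfl⟩) (fun s hs hP => ?_) (fun s hs hP => ?_) t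
    right_mem_uIcc
  · have h1 : Tendsto (fun r : ℝ => r - s) (𝓝 s) (𝓝 0) := by
      simpa using (continuous_sub_right s).tendsto s
    have hsU := hAU (hA s hs hP)
    have h2 : ∀ᶠ r in 𝓝 s, Φ r x ∈ W := by
      filter_upwards [h1.eventually (hW.flow_local hU hΦ (fun y hy => (hY y hy).1) hP.1 hsU)]
        with r hr
      rwa [← hΦ.add, sub_add_cancel] at hr
    have h3 : ∀ᶠ r in 𝓝 s, Φ r x ∈ U := (hΦ.cont_z x).continuousAt.eventually (hU.mem_nhds hsU)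
    have h4 := ODE_solution_unique_of_eventually (v := fun (_ : ℝ) (_ : ℝ) => (1 : ℝ))
      (s := fun _ => univ) (t₀ := s) (K := 0) (f := fun r => f (Φ r x)) (g := fun r => f x + r)
      (.of_forall fun _ => (LipschitzWith.const _).lipschitzOnWith)
      (by
        filter_upwards [h2, h3] with r r2 r3
        exact ⟨(hY _ ⟨r2, r3⟩).2 ▸ hΦ.der_comp (hf.differentiable (by simp) _), trivial⟩)
      (.of_forall fun r => ⟨(hasDerivAt_id r).const_add _, trivial⟩) hP.2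
    filter_upwards [h2, h4] with r r2 r4 _ using ⟨r2, r4⟩
  · refine ⟨(hc.isClosed.closure_subset (map_mem_closure (f := fun r => Φ r x) (hΦ.cont_z x) hP
      fun r hr => hA r hr.1 hr.2)).1, ?_⟩
    exact (isClosed_eq (hf.continuous.comp (hΦ.cont_z x))
      (continuous_const.add continuous_id)).closure_subset (closure_mono (fun r hr => hr.2.2) hP)

/-- Near a regular point of `f` on `W` there is a tangent field with `df Y = 1`. -/
theorem IsSub.exists_field_local {d : ℕ} {W : Set E} {f : E → ℝ} (hW : IsSub d W)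
    (hf : ContDiff ℝ ∞ f) {x : E} (hx : x ∈ W) (hr : ∃ v ∈ Tan W x, fderiv ℝ f x v ≠ 0) :
    ∃ g : E → E, ContDiff ℝ ∞ g ∧ ∀ᶠ y in 𝓝[W] x, g y ∈ Tan W y ∧ fderiv ℝ f y (g y) = 1 := by
  obtain ⟨φ, ψ, hc⟩ := hW x hx
  obtain ⟨v, hv, hv0⟩ := hr
  obtain ⟨z, rfl⟩ := (hc.mem_tan hx v).1 hv
  have h1 : ContDiff ℝ ∞ fun y => fderiv ℝ φ (ψ y) z :=
    ((contDiff_infty_iff_fderiv.1 hc.smφ).2.comp hc.smψ).clm_apply contDiff_const
  have h2 : ContDiff ℝ ∞ fun y => fderiv ℝ f y (fderiv ℝ φ (ψ y) z) :=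
    (contDiff_infty_iff_fderiv.1 hf).2.clm_apply h1
  have hO : IsOpen {y | fderiv ℝ f y (fderiv ℝ φ (ψ y) z) ≠ 0} :=
    isOpen_ne_fun h2.continuous continuous_const
  obtain ⟨g, g1, g2⟩ := exists_smooth_nhds hO hv0
    (f := fun y => (fderiv ℝ f y (fderiv ℝ φ (ψ y) z))⁻¹ • fderiv ℝ φ (ψ y) z)
    ((h2.contDiffOn.inv fun y hy => hy).smul h1.contDiffOn)
  refine ⟨g, g1, ?_⟩
  filter_upwards [nhdsWithin_le_nhds g2, nhdsWithin_le_nhds (hO.mem_nhds hv0), hc.eventually,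
    self_mem_nhdsWithin] with y y1 y2 y3 y4
  rw [y1]
  exact ⟨Submodule.smul_mem _ _ ((y3.mem_tan y4 _).2 ⟨z, rfl⟩), by
    rw [map_smul, smul_eq_mul]; exact inv_mul_cancel₀ y2⟩

/-- A compactly supported tangent field with `df Y = 1` near a compact set of regular points. -/
theorem IsSub.exists_field {d : ℕ} {W A : Set E} {f : E → ℝ} (hW : IsSub d W)
    (hf : ContDiff ℝ ∞ f) (hA : IsCompact A) (hAW : A ⊆ W)
    (hr : ∀ x ∈ A, ∃ v ∈ Tan W x, fderiv ℝ f x v ≠ 0) :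
    ∃ (Y : E → E) (U : Set E), ContDiff ℝ ∞ Y ∧ HasCompactSupport Y ∧ IsOpen U ∧ A ⊆ U ∧
      ∀ x ∈ W ∩ U, Y x ∈ Tan W x ∧ fderiv ℝ f x (Y x) = 1 := by
  obtain ⟨Y, U, h1, h2, h3, h4, h5⟩ := exists_smooth_convex (S := W) hA.isClosed
    (C := fun y => {v | v ∈ Tan W y ∧ fderiv ℝ f y v = 1})
    (fun y => (Tan W y).convex.inter ((convex_singleton (1 : ℝ)).linear_preimage
      (fderiv ℝ f y).toLinearMap))
    (fun x hx => hW.exists_field_local hf (hAW hx) (hr x hx))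
  exact ⟨Y, U, h1, h5 hA, h2, h3, h4⟩

open Pool.Agent.Lib.MP_45f3cb_gt in
/-- Product structure of a slab without critical points: a flow which raises `f` at unit speed. -/
theorem exists_level_flow {d : ℕ} {W : Set E} {f : E → ℝ} {a b : ℝ} (hW : IsSub d W)
    (hf : ContDiff ℝ ∞ f) (hab : a ≤ b) (hc : IsCompact (W ∩ f ⁻¹' Icc a b))
    (hr : ∀ x ∈ W ∩ f ⁻¹' Icc a b, ∃ v ∈ Tan W x, fderiv ℝ f x v ≠ 0) :
    ∃ (Y : E → E) (Φ : ℝ → E → E), IsFlow Y Φ ∧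
      (∀ x ∈ W ∩ f ⁻¹' Icc a b, Y x ∈ Tan W x ∧ fderiv ℝ f x (Y x) = 1) ∧
      ∀ x ∈ W ∩ f ⁻¹' Icc a b, ∀ t, f x + t ∈ Icc a b → Φ t x ∈ W ∧ f (Φ t x) = f x + t := by
  obtain ⟨Y, U, h1, h2, h3, h4, h5⟩ := hW.exists_field hf hc inter_subset_left hr
  obtain ⟨Φ, hΦ⟩ := exists_isFlow h1 h2
  exact ⟨Y, Φ, hΦ, fun x hx => h5 x ⟨hx.1, h4 hx⟩,
    fun x hx t ht => hW.flow_level hf hc h3 h4 hΦ h5 hx ht⟩

end Pool.Agent.Lib.MP_ccffa6_gt
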