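import Pool.Agent.Lib.MP_ccffa6_gt.K.Glue
import Pool.Agent.Lib.MP_ccffa6_gt.K.Flow

open Set Filter Topology
open scoped ContDiff

noncomputable section

namespace Pool.Agent.Lib.MP_ccffa6_gt

variable {E : Type} [NormedAddCommGroup E] [NormedSpace ℝ E] [FiniteDimensional ℝ E]
  {E' : Type} [NormedAddCommGroup E'] [NormedSpace ℝ E'] [FiniteDimensional ℝ E']
  {F : Type} [NormedAddCommGroup F] [NormedSpace ℝ F] [FiniteDimensional ℝ F]

/-- A Liouville form on a slab, with the Liouville field pointing upwards along both levels. -/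
structure LSlab (n : ℕ) (W : Set E) (f : E → ℝ) (a b : ℝ) (ν : E → E) (lam : Form1 E) : Prop where
  slab : Slab (2 * n + 2) W f a b ν
  sm : ContDiff ℝ ∞ lam
  nd : ∀ x ∈ W ∩ f ⁻¹' Icc a b, ND (Tan W x) (dF lam x)
  up : ∀ x ∈ W ∩ f ⁻¹' {a, b}, ∀ Z ∈ Tan W x, (∀ v ∈ Tan W x, dF lam x Z v = lam x v) →
    0 < fderiv ℝ f x Z

omit [FiniteDimensional ℝ E] in
theorem Slab.lev_sub {d : ℕ} {W : Set E} {f : E → ℝ} {a b : ℝ} {ν : E → E} (h : Slab d W f a b ν)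
    {c : ℝ} (hc : c = a ∨ c = b) {x : E} (hx : x ∈ Lev W f c) :
    x ∈ W ∩ f ⁻¹' Icc a b ∧ x ∈ W ∩ f ⁻¹' {a, b} := by
  have e : f x = c := hx.2
  rcases hc with rfl | rfl <;> simp [hx.1, e, h.le.le]

/-- The Liouville field. -/
theorem LSlab.field {n : ℕ} {W : Set E} {f : E → ℝ} {a b : ℝ} {ν : E → E} {lam : Form1 E}
    (h : LSlab n W f a b ν lam) : ∃ Z : E → E, ContDiff ℝ ∞ Z ∧ ∀ x ∈ W ∩ f ⁻¹' Icc a b,
      Z x ∈ Tan W x ∧ ∀ v ∈ Tan W x, dF lam x (Z x) v = lam x v := by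
  obtain ⟨Z, U, a1, -, -, a2, a3⟩ := h.slab.sub.exists_dual h.slab.cpt inter_subset_left
    (contDiff_dF h.sm) h.nd (fun x _ u _ => by rw [gc_dF, sub_self]) h.sm
  exact ⟨Z, a1, fun x hx => (a3 x ⟨hx.1, a2 hx⟩).2⟩

theorem LSlab.cMan {n : ℕ} {W : Set E} {f : E → ℝ} {a b : ℝ} {ν : E → E} {lam : Form1 E}
    (h : LSlab n W f a b ν lam) {c : ℝ} (hc : c = a ∨ c = b) : CMan n (Lev W f c) lam := by
  obtain ⟨Z, -, hZ⟩ := h.field
  refine ⟨h.slab.closed hc, h.sm, fun x hx => ?_⟩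
  obtain ⟨m1, m2⟩ := h.slab.lev_sub hc hx
  exact gl_lev (h.nd x m1) (hZ x m1).1 (hZ x m1).2 (σ := 0) (u := 1) (g := fderiv ℝ f x) one_ne_zero
    (by simpa using (h.up x m2 _ (hZ x m1).1 (hZ x m1).2).ne')
    (fun p => by rw [mem_T1, h.slab.mem_tan hc hx, zero_mul]) fun p _ q _ => by
      rw [gc_symz, one_mul, one_mul]

theorem gl_incl {T T' : Submodule ℝ E} {g : E →L[ℝ] ℝ} (hT : ∀ v, v ∈ T' ↔ v ∈ T ∧ g v = 0) {ν : E}
    (h1 : ν ∈ T) (h2 : g ν ≠ 0) : BijOn (incl ν F) (pl (pl T' ℝ) F) (pl T F) := by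
  refine ⟨fun v hv => ?_, fun u hu v hv e => ?_, fun w hw => ?_⟩
  · simpa using T.add_mem ((hT _).1 hv.1.1).1 (T.smul_mem v.1.2 h1)
  · rw [incl_apply, incl_apply, Prod.mk.injEq] at e
    have a : u.1.2 = v.1.2 := by
      simpa [((hT _).1 hu.1.1).2, ((hT _).1 hv.1.1).2, h2] using congrArg g e.1
    exact Prod.ext (Prod.ext (by simpa [a] using e.1) a) e.2
  · refine ⟨((w.1 - (g w.1 / g ν) • ν, g w.1 / g ν), w.2), ⟨⟨(hT _).2 ⟨T.sub_mem hw.1
      (T.smul_mem _ h1), by simp [h2]⟩, trivial⟩, trivial⟩, by simp⟩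

/-- On a level, `symz lam` is `d lam` read through the Liouville field instead of `ν`. -/
theorem LSlab.formal {n : ℕ} {W : Set E} {f : E → ℝ} {a b : ℝ} {ν : E → E} {lam : Form1 E}
    (h : LSlab n W f a b ν lam) {c : ℝ} (hc : c = a ∨ c = b) {η : Bil F} (hη : ND ⊤ η) :
    NDHtpy (Lev W f c) (fun x => pl (T1 (Lev W f c) x) F) (fun x => osum (symz lam x) η)
      (fun x => (osum (dF lam x) η).bilinearComp (incl (ν x) F) (incl (ν x) F)) := by
  obtain ⟨Z, sZ, hZ⟩ := h.field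
  have m {x} (hx : x ∈ Lev W f c) := h.slab.lev_sub hc hx
  have c1 : ContinuousOn (fun q : ℝ × E => (1 - q.1) • Z q.2 + q.1 • ν q.2)
      (Icc 0 1 ×ˢ Lev W f c) :=
    (Continuous.continuousOn (by have := sZ.continuous; fun_prop)).add (continuousOn_fst.smul
      (h.slab.cν.comp continuousOn_snd fun q hq => (m hq.2).2))
  refine (((show NDField (W ∩ f ⁻¹' Icc a b) (Tan W) (dF lam) from
    ⟨(contDiff_dF h.sm).continuous.continuousOn, h.nd⟩).plus hη).comp_htpy continuousOn_snd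
    (fun q hq => (m hq.2).1) (Φ := fun q => incl ((1 - q.1) • Z q.2 + q.1 • ν q.2) F)
    (continuousOn_clm_apply.2 fun v => ?_) fun q hq => ?_).congr (fun x hx u hu v hv => ?_)
    fun x _ u _ v _ => by simp
  · simp only [incl_apply]
    exact (continuousOn_const.add (c1.const_smul _)).prodMk continuousOn_const
  · obtain ⟨z1, z2⟩ := hZ _ (m hq.2).1
    obtain ⟨n1, n2⟩ := h.slab.tν _ (m hq.2).2
    refine gl_incl (h.slab.mem_tan hc hq.2) (Submodule.add_mem _ (Submodule.smul_mem _ _ z1)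
      (Submodule.smul_mem _ _ n1)) (ne_of_gt ?_)
    have := h.up _ (m hq.2).2 _ z1 z2
    rw [map_add, map_smul, map_smul, n2, smul_eq_mul, smul_eq_mul]
    rcases hq.1.2.eq_or_lt with e | e
    · simp [e]
    · linarith [mul_pos (sub_pos.2 e) this, hq.1.1]
  · obtain ⟨z1, z2⟩ := hZ _ (m hx).1
    have u1 := ((h.slab.mem_tan hc hx _).1 hu.1.1).1
    have v1 := ((h.slab.mem_tan hc hx _).1 hv.1.1).1
    have nd := (h.nd _ (m hx).1).1
    simp [gc_symz, z2 _ v1, gl_anti nd u1 z1, z2 _ u1, nd _ z1]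
    ring

/-- Complete the slab: squash collars onto the two levels with the Liouville flow. -/
theorem LSlab.xcob {n : ℕ} {W : Set E} {f : E → ℝ} {a b : ℝ} {ν : E → E} {lam : Form1 E}
    (h : LSlab n W f a b ν lam) : ∃ (W' : Set (E × ℝ)) (lam' : Form1 (E × ℝ)),
      XCob n W' lam' (Lev W f a) lam (Lev W f b) lam := by
  obtain ⟨Z, sZ, hZ⟩ := h.field
  have sf := h.slab.sm
  have ab := sub_pos.2 h.slab.le
  obtain ⟨ε, e0, e1⟩ := (h.slab.cpt.inter_right (isClosed_le ((sf.continuous_fderiv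
    (by simp)).clm_apply sZ.continuous) (continuous_const (y := (0 : ℝ))))).exists_forall_le'
    (f := fun x => min (f x - a) (b - f x)) (a := 0)
    (Continuous.continuousOn (by have := sf.continuous; fun_prop)) fun x hx => by
      have := mt (fun m => h.up x ⟨hx.1.1, m⟩ _ (hZ x hx.1).1 (hZ x hx.1).2) (not_lt.2 hx.2)
      simp only [mem_preimage, mem_insert_iff, mem_singleton_iff, not_or] at this
      exact lt_min (sub_pos.2 (hx.1.2.1.lt_of_ne' this.1)) (sub_pos.2 (hx.1.2.2.lt_of_ne this.2))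
  obtain ⟨Ψ, ψ, s1, s2, s3, s4, s5, s6, s7, s8, s9, s10⟩ :=
    gl_cut (δ := min (1 / 4) (ε / (4 * (b - a)))) (by positivity) (min_le_left _ _)
  set δ := min (1 / 4) (ε / (4 * (b - a)))
  have hδ : δ * (4 * (b - a)) ≤ ε := (le_div_iff₀ (by positivity)).1 (min_le_right _ _)
  have δ0 : 0 < δ := by positivity
  obtain ⟨k, hk⟩ : ∃ k, k * Ψ 1 = b - a := ⟨_, div_mul_cancel₀ _ (by positivity)⟩
  have k0 : 0 < k := by by_contra hc; nlinarith
  have k1 : k * δ < ε := by nlinarith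
  have r (s) : 0 ≤ Ψ s ∧ Ψ s ≤ Ψ 1 :=
    ⟨(s5 _ (min_le_right s 0)).2 ▸ s8 (min_le_left s 0),
      (s6 _ (le_max_right s 1)).2 ▸ s8 (le_max_left s 1)⟩
  let G : E × ℝ → ℝ := fun p => f p.1 - (a + k * Ψ p.2)
  have sG : ContDiff ℝ ∞ G := by fun_prop
  have dG (p v : E × ℝ) : fderiv ℝ G p v = fderiv ℝ f p.1 v.1 - k * ψ p.2 * v.2 := by
    rw [show fderiv ℝ G p = _ from (((sf.differentiable (by simp) p.1).hasFDerivAt.comp p
      hasFDerivAt_fst).sub (((s2 p.2).const_mul k).const_add a |>.hasFDerivAt.comp p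
        hasFDerivAt_snd)).fderiv]
    simp [mul_comm]
  have mem (p : E × ℝ) : p ∈ W ×ˢ univ ∩ G ⁻¹' {0} ↔ p.1 ∈ W ∧ f p.1 = a + k * Ψ p.2 := by
    simp [G, sub_eq_zero]
  have m1 {p : E × ℝ} (h1 : p.1 ∈ W) (h2 : f p.1 = a + k * Ψ p.2) : p.1 ∈ W ∩ f ⁻¹' Icc a b :=
    ⟨h1, by nlinarith [r p.2], by nlinarith [r p.2]⟩
  have pos {p : E × ℝ} (h1 : p.1 ∈ W) (h2 : f p.1 = a + k * Ψ p.2) :
      k * ψ p.2 + (1 - ψ p.2) * fderiv ℝ f p.1 (Z p.1) ≠ 0 := by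
    rcases (s3 p.2).2.eq_or_lt with e | e
    · simp [e, k0.ne']
    refine ne_of_gt (add_pos_of_nonneg_of_pos (mul_nonneg k0.le (s3 _).1)
      (mul_pos (sub_pos.2 e) (lt_of_not_ge fun hc => ?_)))
    have t := le_min_iff.1 (e1 _ ⟨m1 h1 h2, hc⟩)
    rcases lt_or_ge p.2 δ with c | c
    · nlinarith [s9 _ c.le]
    · nlinarith [s10 _ (le_of_not_ge fun c' => e.ne (s4 _ c c'))]
  have hW : IsSub (2 * n + 1 + 1 + 1) (W ×ˢ (univ : Set ℝ)) := gc_prod h.slab.sub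
  have reg (p) (hp : p ∈ W ×ˢ (univ : Set ℝ)) (h0 : G p = 0) (w : ℝ) :
      ∃ v ∈ Tan (W ×ˢ (univ : Set ℝ)) p, fderiv ℝ G p v = w := by
    have h2 := (mem p).1 ⟨hp, h0⟩
    have := pos h2.1 h2.2
    refine ⟨(w / (k * ψ p.2 + (1 - ψ p.2) * fderiv ℝ f p.1 (Z p.1))) • ((1 - ψ p.2) • Z p.1, -1),
      Submodule.smul_mem _ _ ?_, ?_⟩
    · rw [gc_tan_prod h.slab.sub hp.1]
      exact mem_T1.2 (Submodule.smul_mem _ _ (hZ _ (m1 h2.1 h2.2)).1)
    · rw [map_smul, dG, map_smul, smul_eq_mul, smul_eq_mul]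
      field_simp
      ring
  have sl : ContDiff ℝ ∞ fun p : E × ℝ => lam p.1 := h.sm.comp contDiff_fst
  refine ⟨W ×ˢ univ ∩ G ⁻¹' {0}, cyl (fun s => s - Ψ s) fun p => lam p.1,
    ⟨hW.level sG (by simp) reg, h.slab.closed (Or.inl rfl), h.slab.closed (Or.inr rfl), ?_,
      fun p hp => by rw [mem, (s5 _ hp).2, mul_zero, add_zero]; rfl,
      fun p hp => by rw [mem, (s6 _ hp).2, hk, add_sub_cancel]; rfl⟩,
    h.cMan (Or.inl rfl), h.cMan (Or.inr rfl), cyl_sm (by fun_prop) sl, fun p hp => ?_,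
    fun p _ hp v _ => by rw [cyl_apply, (s5 _ hp).2, sub_zero],
    -Ψ 1, fun p _ hp v _ => by rw [cyl_apply, (s6 _ hp).2, sub_eq_add_neg]⟩
  · convert (h.slab.cpt.prod (isCompact_Icc (a := (0 : ℝ)) (b := 1))).inter_right
      ((isClosed_singleton (x := 0)).preimage sG.continuous) using 1
    exact Subset.antisymm (fun p hp => ⟨⟨m1 hp.1.1.1 ((mem p).1 hp.1).2, hp.2.2⟩, hp.1.2⟩)
      fun p hp => ⟨⟨⟨hp.1.1.1, trivial⟩, hp.2⟩, trivial, hp.1.2⟩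
  · obtain ⟨h1, h2⟩ := (mem p).1 hp
    refine gl_lev (h.nd _ (m1 h1 h2)) (hZ _ (m1 h1 h2)).1 (hZ _ (m1 h1 h2)).2 (Real.exp_ne_zero _)
      (pos h1 h2) (fun v => ?_) fun u _ v _ =>
        dF_cyl_const ((hasDerivAt_id p.2).sub (s2 p.2)) h.sm u v
    rw [(Chart.level hW sG (e := 2 * n + 1 + 1) (by simp) hp.1 hp.2 (reg p hp.1 hp.2)).2,
      gc_tan_prod h.slab.sub h1, mem_T1, dG, sub_eq_zero]

theorem LSlab.good {n : ℕ} {W : Set E} {f : E → ℝ} {a b : ℝ} {ν : E → E} {lam : Form1 E}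
    (h : LSlab n W f a b ν lam) (hg : Good n (Lev W f a) lam) : Good n (Lev W f b) lam :=
  have ⟨_, _, k⟩ := h.xcob
  hg.cob k

end Pool.Agent.Lib.MP_ccffa6_gt
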