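import Pool.Agent.Lib.MP_ccffa6_gt.K.Lin

open Set Filter Topology
open scoped ContDiff

noncomputable section

namespace Pool.Agent.Lib.MP_ccffa6_gt

variable {E : Type} [NormedAddCommGroup E] [NormedSpace ℝ E] [FiniteDimensional ℝ E]
  {E' : Type} [NormedAddCommGroup E'] [NormedSpace ℝ E'] [FiniteDimensional ℝ E']
  {F : Type} [NormedAddCommGroup F] [NormedSpace ℝ F] [FiniteDimensional ℝ F]

theorem liny_rank (b : ℕ) : Module.finrank ℝ (Fin b → ℂ) = b + b := by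
  rw [Module.finrank_pi_fintype]
  simp [mul_two]

omit [FiniteDimensional ℝ E] in
theorem liny_prj (T : Submodule ℝ E) : ∃ P : E →ₗ[ℝ] T, ∀ u : T, P u = u := by
  obtain ⟨P, hP⟩ := T.subtype.exists_leftInverse_of_injective T.ker_subtype
  exact ⟨P, fun u => DFunLike.congr_fun hP u⟩

omit [FiniteDimensional ℝ E] [FiniteDimensional ℝ E'] in
theorem liny_inj {T : Submodule ℝ E} {T' : Submodule ℝ E'} {A : E →L[ℝ] E'}
    (hm : ∀ v ∈ T, A v ∈ T') (hi : ∀ v ∈ T, A v = 0 → v = 0) :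
    Function.Injective ((A : E →ₗ[ℝ] E').restrict hm) :=
  (injective_iff_map_eq_zero _).2 fun u hu => Subtype.ext (hi u u.2 (congrArg Subtype.val hu))

/-- The standard form on `Fin b → ℂ`. -/
theorem exists_std (b : ℕ) : ∃ η : Bil (Fin b → ℂ), ND ⊤ η ∧
    ∀ u v, η u v = ∑ i, ((starRingEnd ℂ) (u i) * v i).im := by
  let a : Bil ℂ := Complex.reCLM.smulRight Complex.imCLM - Complex.imCLM.smulRight Complex.reCLM
  have h : ∀ u v : Fin b → ℂ, (∑ i, a.bilinearComp (ContinuousLinearMap.proj i)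
      (ContinuousLinearMap.proj i) : Bil (Fin b → ℂ)) u v =
      ∑ i, ((starRingEnd ℂ) (u i) * v i).im := by
    intro u v
    simp only [sum_apply]
    refine Finset.sum_congr rfl fun i _ => ?_
    simp [a, sub_eq_add_neg]
  refine ⟨_, ⟨fun u _ => ?_, fun u _ hu => ?_⟩, h⟩
  · rw [h]
    refine Finset.sum_eq_zero fun i _ => ?_
    simp [mul_comm]
  · have h1 := hu (fun i => Complex.I * u i) trivial
    have h2 : ∀ i, ((starRingEnd ℂ) (u i) * (Complex.I * u i)).im = Complex.normSq (u i) := by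
      intro i
      simp [Complex.normSq_apply]
    rw [h] at h1
    simp only [h2] at h1
    funext i
    exact Complex.normSq_eq_zero.1 ((Finset.sum_eq_zero_iff_of_nonneg
      fun j _ => Complex.normSq_nonneg (u j)).1 h1 i (Finset.mem_univ i))

theorem exists_nd_of_even (h : Even (Module.finrank ℝ F)) : ∃ η : Bil F, ND ⊤ η := by
  obtain ⟨b, hb⟩ := h
  obtain ⟨η, hη, -⟩ := exists_std b
  let e : F ≃L[ℝ] (Fin b → ℂ) := ContinuousLinearEquiv.ofFinrankEq (by rw [hb, liny_rank])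
  refine ⟨_, hη.comp (T := ⊤) (A := (e : F →L[ℝ] (Fin b → ℂ))) ?_⟩
  exact ⟨fun _ _ => trivial, e.injective.injOn, fun y _ => ⟨e.symm y, trivial, by simp⟩⟩

/-- Linear Darboux theorem. -/
theorem ND.exists_equiv {η : Bil F} {η' : Bil E} (h : ND ⊤ η) (h' : ND ⊤ η')
    (hd : Module.finrank ℝ F = Module.finrank ℝ E) :
    ∃ e : F ≃L[ℝ] E, ∀ u v, η' (e u) (e v) = η u v := by
  obtain ⟨b, e, he⟩ := h.exists_basis
  obtain ⟨b', e', he'⟩ := h'.exists_basis
  obtain rfl : b = b' := by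
    rw [e.toLinearEquiv.finrank_eq, e'.toLinearEquiv.finrank_eq, liny_rank, liny_rank] at hd
    omega
  exact ⟨e.trans e'.symm, fun u v => by simp [he, he']⟩

theorem ND.exists_iso {T : Submodule ℝ E} {T' : Submodule ℝ E'} {w : Bil E} {w' : Bil E'}
    (h : ND T w) (h' : ND T' w') (hd : Module.finrank ℝ T = Module.finrank ℝ T') :
    ∃ A : E →L[ℝ] E', BijOn A T T' ∧ ∀ u ∈ T, ∀ v ∈ T, w' (A u) (A v) = w u v := by
  obtain ⟨b, e, he⟩ := h.lin_equiv
  obtain ⟨b', e', he'⟩ := h'.lin_equiv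
  obtain rfl : b = b' := by
    rw [e.finrank_eq, e'.finrank_eq, liny_rank, liny_rank] at hd
    omega
  obtain ⟨P, hP⟩ := liny_prj T
  let A : E →ₗ[ℝ] E' := T'.subtype ∘ₗ (e.trans e'.symm : T →ₗ[ℝ] T') ∘ₗ P
  have hA : ∀ u : T, LinearMap.toContinuousLinearMap A u = (e'.symm (e u) : T') := fun u => by
    simp [A, hP]
  refine ⟨LinearMap.toContinuousLinearMap A, ⟨fun u hu => ?_, fun u hu v hv huv => ?_,
    fun y hy => ?_⟩, fun u hu v hv => ?_⟩
  · rw [hA ⟨u, hu⟩]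
    exact Subtype.property _
  · rw [hA ⟨u, hu⟩, hA ⟨v, hv⟩] at huv
    exact congrArg Subtype.val (e.injective (e'.symm.injective (Subtype.ext huv)))
  · refine ⟨e.symm (e' ⟨y, hy⟩), Subtype.property _, ?_⟩
    rw [hA]
    simp
  · rw [hA ⟨u, hu⟩, hA ⟨v, hv⟩, he', he ⟨u, hu⟩ ⟨v, hv⟩]
    simp

theorem ND.open {T : Submodule ℝ E} {w : Bil E} (h : ND T w) : ∃ ε > 0, ∀ w' : Bil E,
    (∀ u ∈ T, w' u u = 0) → ‖w' - w‖ < ε → ND T w' := by
  obtain ⟨c, hc, H⟩ := h.exists_bound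
  refine ⟨c, hc, fun w' h1 h2 => ⟨h1, fun u hu h0 => ?_⟩⟩
  obtain ⟨v, hv, hv1, h3⟩ := H u hu
  by_contra hne
  have h4 : 0 < ‖u‖ := norm_pos_iff.2 hne
  have h5 : w u v = -((w' - w) u v) := by simp [h0 v hv]
  have h6 := (w' - w).le_opNorm₂ u v
  have h7 : -((w' - w) u v) ≤ ‖(w' - w) u v‖ := neg_le_abs _
  have h8 : ‖w' - w‖ * ‖u‖ * ‖v‖ ≤ ‖w' - w‖ * ‖u‖ := mul_le_of_le_one_right (by positivity) hv1
  have h9 := mul_lt_mul_of_pos_right h2 h4
  linarith

theorem bijOn_of_inj {T : Submodule ℝ E} {T' : Submodule ℝ E'} {A : E →L[ℝ] E'}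
    (hd : Module.finrank ℝ T = Module.finrank ℝ T') (hm : ∀ v ∈ T, A v ∈ T')
    (hi : ∀ v ∈ T, A v = 0 → v = 0) : BijOn A T T' := by
  have h1 := liny_inj hm hi
  refine ⟨hm, fun u hu v hv h => ?_, fun y hy => ?_⟩
  · exact congrArg Subtype.val (@h1 ⟨u, hu⟩ ⟨v, hv⟩ (Subtype.ext h))
  · obtain ⟨u, hu⟩ := (LinearMap.injective_iff_surjective_of_finrank_eq_finrank hd).1 h1 ⟨y, hy⟩
    exact ⟨u, u.2, congrArg Subtype.val hu⟩

theorem finrank_eq_of_bijOn {T : Submodule ℝ E} {T' : Submodule ℝ E'} {A : E →L[ℝ] E'}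
    (h : BijOn A T T') : Module.finrank ℝ T = Module.finrank ℝ T' := by
  have hm : ∀ v ∈ T, A v ∈ T' := h.mapsTo
  refine (LinearEquiv.ofBijective ((A : E →ₗ[ℝ] E').restrict hm) ⟨liny_inj hm fun v hv h0 =>
    h.injOn hv T.zero_mem (h0.trans (map_zero A).symm), fun y => ?_⟩).finrank_eq
  obtain ⟨u, hu, e⟩ := h.surjOn y.2
  exact ⟨⟨u, hu⟩, Subtype.ext e⟩

theorem finrank_pl (T : Submodule ℝ E) :
    Module.finrank ℝ (pl T F) = Module.finrank ℝ T + Module.finrank ℝ F := by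
  rw [← Module.finrank_prod, ← finrank_top ℝ (T × F)]
  refine (finrank_eq_of_bijOn (A := T.subtypeL.prodMap (ContinuousLinearMap.id ℝ F))
    ⟨fun u _ => mem_pl.2 u.1.2, fun u _ v _ h => ?_, fun y hy => ?_⟩).symm
  · have h2 := congrArg Prod.snd h
    exact Prod.ext (Subtype.ext (congrArg Prod.fst h)) h2
  · exact ⟨(⟨y.1, mem_pl.1 hy⟩, y.2), trivial, rfl⟩

theorem exists_prj (T : Submodule ℝ E) :
    ∃ P : E →L[ℝ] E, (∀ v, P v ∈ T) ∧ ∀ v ∈ T, P v = v := by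
  obtain ⟨P, hP⟩ := liny_prj T
  exact ⟨LinearMap.toContinuousLinearMap (T.subtype ∘ₗ P), fun v => (P v).2,
    fun v hv => congrArg Subtype.val (hP ⟨v, hv⟩)⟩

/-- Close projectors have isomorphic ranges. -/
theorem prj_bijOn {T T' : Submodule ℝ E} {P P' : E →L[ℝ] E}
    (h : (∀ v, P v ∈ T) ∧ ∀ v ∈ T, P v = v) (h' : (∀ v, P' v ∈ T') ∧ ∀ v ∈ T', P' v = v)
    (hn : ‖P - P'‖ < 1) : BijOn P' T T' := by
  have key : ∀ {S : Submodule ℝ E} {Q Q' : E →L[ℝ] E}, (∀ v ∈ S, Q v = v) → ‖Q - Q'‖ < 1 →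
      ∀ v ∈ S, Q' v = 0 → v = 0 := by
    intro S Q Q' h1 h2 v hv h0
    by_contra hne
    have h3 := (Q - Q').le_opNorm v
    have h4 : (Q - Q') v = v := by simp [h1 v hv, h0]
    have h5 := mul_lt_mul_of_pos_right h2 (norm_pos_iff.2 hne)
    rw [h4] at h3
    linarith
  have i₁ := key h.2 hn
  have i₂ := key h'.2 (by rwa [norm_sub_rev])
  exact bijOn_of_inj (le_antisymm
    (LinearMap.finrank_le_finrank_of_injective (liny_inj (fun v _ => h'.1 v) i₁))
    (LinearMap.finrank_le_finrank_of_injective (liny_inj (fun v _ => h.1 v) i₂)))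
    (fun v _ => h'.1 v) i₁

/-- A positive definite symmetric form. -/
theorem exists_posdef : ∃ b : Bil E, (∀ u v, b u v = b v u) ∧ ∀ u, u ≠ 0 → 0 < b u u := by
  let e := (toEuclidean (E := E)).toContinuousLinearMap
  refine ⟨(innerSL ℝ : _ →L[ℝ] _ →L[ℝ] ℝ).bilinearComp e e,
    fun u v => real_inner_comm (e v) (e u),
    fun u hu => (real_inner_self_pos (x := e u)).2 fun h => hu ?_⟩
  exact (toEuclidean (E := E)).injective (h.trans (map_zero _).symm)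

/-- A bilinear form with trivial left kernel is invertible as a map to the dual. -/
theorem isInvertible_of_ker {w : Bil E} (h : ∀ u, (∀ v, w u v = 0) → u = 0) :
    w.IsInvertible := by
  have hi : Function.Injective (w : E →ₗ[ℝ] E →L[ℝ] ℝ) :=
    (injective_iff_map_eq_zero _).2 fun u hu => h u fun v => DFunLike.congr_fun hu v
  have hd : Module.finrank ℝ E = Module.finrank ℝ (E →L[ℝ] ℝ) := by
    rw [← (LinearMap.toContinuousLinearMap : (E →ₗ[ℝ] ℝ) ≃ₗ[ℝ] E →L[ℝ] ℝ).finrank_eq]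
    exact Subspace.dual_finrank_eq.symm
  exact ⟨(LinearEquiv.ofBijective _ ⟨hi,
    (LinearMap.injective_iff_surjective_of_finrank_eq_finrank hd).1 hi⟩).toContinuousLinearEquiv,
    rfl⟩

end Pool.Agent.Lib.MP_ccffa6_gt
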