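import Pool.Agent.Lib.MP_ccffa6_gt.K.Glue
import Pool.Agent.Lib.MP_ccffa6_gt.Iface

open Set Filter Topology
open scoped ContDiff

noncomputable section

namespace Pool.Agent.Lib.MP_ccffa6_gt

variable {E : Type} [NormedAddCommGroup E] [NormedSpace ℝ E] [FiniteDimensional ℝ E]
  {E' : Type} [NormedAddCommGroup E'] [NormedSpace ℝ E'] [FiniteDimensional ℝ E']
  {F : Type} [NormedAddCommGroup F] [NormedSpace ℝ F] [FiniteDimensional ℝ F]

theorem SGood.diff {n : ℕ} {S : Set E} {S' : Set E'} {φ : E → E'} {ψ : E' → E}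
    (hd : Diff S S' φ ψ) {Ω : E' → Bil (E' × ℝ)} (h : SGood n S' Ω) : SGood n S (pb2 φ Ω) := by
  obtain ⟨β, h1, h2, h3⟩ := h
  exact ⟨pb φ β, h1.diff hd, h2.diff hd fun _ _ _ _ => rfl,
    funext (symz_pb hd.smφ h1.sm) ▸ h3.diff hd⟩

theorem SGood.stab {n : ℕ} {S : Set E} {Ω Ω' : E → Bil (E × ℝ)} (h : SGood n S Ω)
    (h' : StabHtpy S Ω Ω') : SGood n S Ω' :=
  h.imp fun _ k => ⟨k.1, k.2.1, k.2.2.trans h'⟩

theorem KGood.diff {n : ℕ} {η : Bil F} {S : Set E} {S' : Set E'} {φ : E → E'} {ψ : E' → E}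
    (hd : Diff S S' φ ψ) {Ω : E' → Bil (E' × ℝ)} (h : KGood n F η S' Ω) :
    KGood n F η S (pb2 φ Ω) := by
  obtain ⟨β, h1, h2, h3⟩ := h
  refine ⟨pb φ β, h1.diff hd, h2.diff hd fun _ _ _ _ => rfl, (h3.comp hd.smφ.continuous.continuousOn
    hd.mapφ (Φ := fun x => ((fderiv ℝ φ x).prodMap (ContinuousLinearMap.id ℝ ℝ)).prodMap
      (ContinuousLinearMap.id ℝ F)) (continuousOn_clm_apply.2 fun v => ?_) fun x hx =>
    ((hd.tan_bijOn hx).prodMap (bijOn_id univ)).prodMap (bijOn_id univ)).congr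
    (fun x _ u _ v _ => by simp [symz_pb hd.smφ h1.sm, pb2_apply, Prod.map])
    fun x _ u _ v _ => by simp [pb2_apply, Prod.map]⟩
  exact ((((hd.smφ.continuous_fderiv (by simp)).clm_apply continuous_const).prodMk
    continuous_const).prodMk continuous_const).continuousOn

theorem KGood.htpy {n : ℕ} {η : Bil F} {S : Set E} {Ω Ω' : E → Bil (E × ℝ)} (h : KGood n F η S Ω)
    (h' : NDHtpy S (fun x => pl (T1 S x) F) (fun x => osum (Ω x) η) (fun x => osum (Ω' x) η)) :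
    KGood n F η S Ω' :=
  h.imp fun _ k => ⟨k.1, k.2.1, k.2.2.trans h'⟩

theorem nd_zero : ND (⊤ : Submodule ℝ (Rd 0)) 0 :=
  ⟨fun _ _ => rfl, fun _ _ _ => Subsingleton.elim _ _⟩

theorem kGood_zero {n : ℕ} {S : Set E} {Ω : E → Bil (E × ℝ)} :
    KGood n (Rd 0) 0 S Ω ↔ ∃ β : Form1 E, CMan n S β ∧ Good n S β ∧ Htpy S (symz β) Ω :=
  exists_congr fun _ => and_congr_right fun _ => and_congr_right fun _ =>
    ⟨fun h => (h.comp continuousOn_id (mapsTo_id _) (T := T1 S)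
      (Φ := fun _ => ContinuousLinearMap.inl ℝ _ _) continuousOn_const fun _ _ =>
        ⟨fun _ hv => ⟨hv, trivial⟩, fun _ _ _ _ e => congrArg Prod.fst e, fun v hv =>
          ⟨v.1, hv.1, Prod.ext rfl (Subsingleton.elim _ _)⟩⟩).congr
      (fun _ _ _ _ _ _ => by simp) fun _ _ _ _ _ _ => by simp, fun h => h.plus nd_zero⟩

omit [FiniteDimensional ℝ E] in
theorem KGood.sGood {n : ℕ} {η : Bil F} (hη : ND ⊤ η) {S : Set E} {Ω : E → Bil (E × ℝ)}
    (h : KGood n F η S Ω) : SGood n S Ω :=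
  h.imp fun _ k => ⟨k.1, k.2.1, F, _, _, ‹_›, η, hη, k.2.2⟩

/-- `(v, k, k') ↦ ((v, k), k')` -/
def asc (E E' F : Type) [NormedAddCommGroup E] [NormedSpace ℝ E] [NormedAddCommGroup E']
    [NormedSpace ℝ E'] [NormedAddCommGroup F] [NormedSpace ℝ F] : E × E' × F →L[ℝ] (E × E') × F :=
  (ContinuousLinearEquiv.prodAssoc ℝ E E' F).symm

omit [FiniteDimensional ℝ E] [FiniteDimensional ℝ E'] [FiniteDimensional ℝ F] in
@[simp] theorem asc_apply (v : E × E' × F) : asc E E' F v = ((v.1, v.2.1), v.2.2) := rfl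

omit [FiniteDimensional ℝ E] [FiniteDimensional ℝ E'] [FiniteDimensional ℝ F] in
theorem asc_bij (T : Submodule ℝ E) : BijOn (asc E E' F) (pl T (E' × F)) (pl (pl T E') F) :=
  ⟨fun _ hv => ⟨⟨hv.1, trivial⟩, trivial⟩,
    (ContinuousLinearEquiv.prodAssoc ℝ E E' F).symm.injective.injOn,
    fun v hv => ⟨(v.1.1, v.1.2, v.2), ⟨hv.1.1, trivial⟩, rfl⟩⟩

theorem NDHtpy.asc {X : Type} [TopologicalSpace X] {S : Set X} {T : X → Submodule ℝ E}
    {A B : X → Bil (E × E')} (h : NDHtpy S (fun x => pl (T x) E') A B) {η : Bil F} (hη : ND ⊤ η) :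
    NDHtpy S (fun x => pl (T x) (E' × F))
      (fun x => (osum (A x) η).bilinearComp (asc E E' F) (asc E E' F))
      fun x => (osum (B x) η).bilinearComp (asc E E' F) (asc E E' F) :=
  (h.plus hη).comp continuousOn_id (mapsTo_id _) continuousOn_const fun _ _ => asc_bij _

theorem NDHtpy.swap {X : Type} [TopologicalSpace X] {S : Set X} {T : X → Submodule ℝ E}
    {A B : X → Bil E} {η' : Bil E'} {η : Bil F} (hη : ND ⊤ η)
    (h : NDHtpy S (fun x => pl (T x) E') (fun x => osum (A x) η') fun x => osum (B x) η') :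
    NDHtpy S (fun x => pl (T x) (F × E')) (fun x => osum (A x) (osum η η'))
      fun x => osum (B x) (osum η η') :=
  ((h.asc hη).comp continuousOn_id (mapsTo_id _) (Φ := fun _ => (ContinuousLinearMap.id ℝ E).prodMap
    (ContinuousLinearEquiv.prodComm ℝ F E')) continuousOn_const fun _ _ => (bijOn_id _).prodMap
      (ContinuousLinearEquiv.prodComm ℝ F E').bijective.bijOn_univ).congr
    (fun _ _ _ _ _ _ => by simp; ring) fun _ _ _ _ _ _ => by simp; ring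

theorem MStepK.plus {n : ℕ} {η : Bil E'} {W : Set E} {f : E → ℝ} {a b : ℝ}
    {Ωa Ωb : E → Bil (E × ℝ)} (h : MStepK n E' η W f a b Ωa Ωb) {η' : Bil F} (hη : ND ⊤ η') :
    MStepK n (E' × F) (osum η η') W f a b Ωa Ωb := by
  obtain ⟨ν, Ω, h1, h2, h3, h4, h5, h6, h7⟩ := h
  exact ⟨ν, fun x => (osum (Ω x) η').bilinearComp (asc E E' F) (asc E E' F), h1, h2, h3, h4,
    (h5.plus hη).comp continuousOn_id (mapsTo_id _) continuousOn_const fun _ _ => asc_bij _,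
    (h6.asc hη).congr (fun _ _ _ _ _ _ => by simp [add_assoc]) fun _ _ _ _ _ _ => by simp,
    (h7.asc hη).congr (fun _ _ _ _ _ _ => by simp [add_assoc]) fun _ _ _ _ _ _ => by simp⟩

theorem eli_of_eliK {n : ℕ} (h : ELIKStmt n) : ELIStmt n := by
  rintro E _ _ _ W f a b Ωa Ωb ⟨K, _, _, _, η, hη, hm⟩ ⟨β, h1, h2, K', _, _, _, η', hη', h3⟩
  have k : ND ⊤ (osum η η') := by simpa [pl] using hη.plus hη'
  exact (h E (K × K') _ W f a b Ωa Ωb k (hm.plus hη') ⟨β, h1, h2, h3.swap hη⟩).sGood k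

theorem K_main (n : ℕ) : KStmt n := by
  refine fun E _ _ _ N α h => ⟨fun hy => ⟨α, h, Good.base h hy,
    Htpy.stab (h.formal.htpy fun _ _ _ _ _ _ => rfl)⟩, ?_⟩
  rintro hT ⟨F, _, _, _, W, lam, N', α', S₁, β₁, φ, ψ, a1, a2, a3, a4⟩ hD
  exact hT F W lam N' α' S₁ β₁ a1 a2 (hD.map φ N (LeftInvOn.injOn a3.left) (fun _ _ _ k => k.map)
    fun _ _ _ k => a3.cMap a4 k)

end Pool.Agent.Lib.MP_ccffa6_gt
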