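import Pool.Agent.Lib.MP_ccffa6_gt.K.Lin

open Set Filter Topology
open scoped ContDiff

noncomputable section

namespace Pool.Agent.Lib.MP_ccffa6_gt

variable {E : Type} [NormedAddCommGroup E] [NormedSpace ℝ E] [FiniteDimensional ℝ E]
  {E' : Type} [NormedAddCommGroup E'] [NormedSpace ℝ E'] [FiniteDimensional ℝ E']
  {F : Type} [NormedAddCommGroup F] [NormedSpace ℝ F] [FiniteDimensional ℝ F]

theorem pb_apply (φ : E → E') (α : Form1 E') (x v : E) :
    pb φ α x v = α (φ x) (fderiv ℝ φ x v) := rfl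

theorem dF_self (α : Form1 E) (x u : E) : dF α x u u = 0 := by
  rw [dF_apply, sub_self]

theorem dF_swap (α : Form1 E) (x u v : E) : dF α x u v = -dF α x v u := by
  rw [dF_apply, dF_apply, neg_sub]

theorem symz_self (α : Form1 E) (x : E) (u : E × ℝ) : symz α x u u = 0 := by
  rw [symz_apply, dF_self]
  ring

theorem ND.neg {T : Submodule ℝ E} {w : Bil E} (h : ND T w) : ND T (-w) :=
  ⟨fun u hu => neg_eq_zero.2 (h.1 u hu), fun u hu h0 => h.2 u hu fun v hv => neg_eq_zero.1 (h0 v hv)⟩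

theorem ND.of_comp {T : Submodule ℝ E} {T' : Submodule ℝ E'} {w : Bil E'} {A : E →L[ℝ] E'}
    (hA : BijOn A T T') (h : ND T (w.bilinearComp A A)) : ND T' w := by
  refine ⟨fun u hu => ?_, fun u hu h0 => ?_⟩ <;> obtain ⟨u, hu', rfl⟩ := hA.surjOn hu
  · exact h.1 u hu'
  · rw [h.2 u hu' fun v hv => h0 _ (hA.mapsTo hv), map_zero]

theorem ND.dual_unique {T : Submodule ℝ E} {w : Bil E} (h : ND T w) {u u' : E} (hu : u ∈ T)
    (hu' : u' ∈ T) (he : ∀ v ∈ T, w u v = w u' v) : u = u' :=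
  sub_eq_zero.1 (h.2 _ (sub_mem hu hu') fun v hv => by rw [map_sub, sub_apply, he v hv, sub_self])

/-- Direct sum over a product of two subspaces. -/
theorem ND.prod {T : Submodule ℝ E} {T' : Submodule ℝ F} {w : Bil E} {η : Bil F} (h : ND T w)
    (h' : ND T' η) : ND (T.prod T') (osum w η) := by
  refine ⟨fun u hu => by rw [osum_apply, h.1 _ hu.1, h'.1 _ hu.2, add_zero], fun u hu h0 => ?_⟩
  refine Prod.ext (h.2 _ hu.1 fun v hv => ?_) (h'.2 _ hu.2 fun v hv => ?_)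
  · simpa using h0 (v, 0) ⟨hv, T'.zero_mem⟩
  · simpa using h0 (0, v) ⟨T.zero_mem, hv⟩

theorem ND.plus_top {w : Bil E} {η : Bil F} (h : ND ⊤ w) (h' : ND ⊤ η) :
    ND ⊤ (osum w η) := by
  rw [← Submodule.prod_top]
  exact h.prod h'

theorem bijOn_pl {T : Submodule ℝ E} {T' : Submodule ℝ E'} {A : E →L[ℝ] E'} (hA : BijOn A T T') :
    BijOn (A.prodMap (ContinuousLinearMap.id ℝ F)) (pl T F) (pl T' F) := by
  refine ⟨fun u hu => mem_pl.2 (hA.mapsTo (mem_pl.1 hu)), fun u hu v hv h => ?_, fun u hu => ?_⟩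
  · exact Prod.ext (hA.injOn (mem_pl.1 hu) (mem_pl.1 hv) (congrArg Prod.fst h))
      (congrArg Prod.snd h :)
  · obtain ⟨v, hv, h⟩ := hA.surjOn (mem_pl.1 hu)
    exact ⟨(v, u.2), mem_pl.2 hv, Prod.ext h rfl⟩

/-- The algebraic form of `symz`: `w + ds ∧ a`. -/
def sz (w : Bil E) (a : E →L[ℝ] ℝ) : Bil (E × ℝ) :=
  w.bilinearComp (ContinuousLinearMap.fst ℝ E ℝ) (ContinuousLinearMap.fst ℝ E ℝ) +
    ((ContinuousLinearMap.snd ℝ E ℝ).smulRight (a.comp (ContinuousLinearMap.fst ℝ E ℝ)) -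
      ((a.comp (ContinuousLinearMap.fst ℝ E ℝ)).smulRight (ContinuousLinearMap.snd ℝ E ℝ)))

theorem symz_eq_sz (α : Form1 E) (x : E) : symz α x = sz (dF α x) (α x) := rfl

theorem sz_apply (w : Bil E) (a : E →L[ℝ] ℝ) (u v : E × ℝ) :
    sz w a u v = w u.1 v.1 + (u.2 * a v.1 - a u.1 * v.2) := by
  simp [sz]

theorem contDiff_sz : ContDiff ℝ ∞ fun q : Bil E × (E →L[ℝ] ℝ) => sz q.1 q.2 := by
  refine contDiff_clm_apply_iff.2 fun u => contDiff_clm_apply_iff.2 fun v => ?_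
  simp only [sz_apply]
  exact ((contDiff_fst.clm_apply contDiff_const).clm_apply contDiff_const).add
    ((contDiff_const.mul (contDiff_snd.clm_apply contDiff_const)).sub
      ((contDiff_snd.clm_apply contDiff_const).mul contDiff_const))

theorem nd_sz_iff {T : Submodule ℝ E} {w : Bil E} {a : E →L[ℝ] ℝ} :
    ND (pl T ℝ) (sz w a) ↔ (∀ u ∈ T, w u u = 0) ∧ (∃ v ∈ T, a v ≠ 0) ∧
      ∀ u ∈ T, a u = 0 → (∀ v ∈ T, a v = 0 → w u v = 0) → u = 0 := by
  constructor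
  · intro h
    have h1 : ∃ v ∈ T, a v ≠ 0 := by
      by_contra hn
      have h2 := h.2 (0, 1) (mem_pl.2 T.zero_mem) fun v hv => by
        have h3 : a v.1 = 0 := by_contra fun h4 => hn ⟨v.1, mem_pl.1 hv, h4⟩
        simp [sz_apply, h3]
      exact one_ne_zero (congrArg Prod.snd h2)
    refine ⟨fun u hu => by simpa [sz_apply] using h.1 (u, 0) (mem_pl.2 hu), h1,
      fun u hu hu0 hd => ?_⟩
    obtain ⟨v₀, hv₀, ha⟩ := h1
    have h2 := h.2 (u, -(w u v₀ / a v₀)) (mem_pl.2 hu) fun v hv => by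
      have h3 := hd (v.1 - (a v.1 / a v₀) • v₀) (T.sub_mem (mem_pl.1 hv) (T.smul_mem _ hv₀))
        (by rw [map_sub, map_smul, smul_eq_mul, div_mul_cancel₀ _ ha, sub_self])
      rw [map_sub, map_smul, smul_eq_mul, sub_eq_zero] at h3
      rw [sz_apply]
      simp only [hu0, h3]
      ring
    exact congrArg Prod.fst h2
  · rintro ⟨hw, ⟨v₀, hv₀, ha⟩, h⟩
    refine ⟨fun u hu => ?_, fun u hu h0 => ?_⟩
    · rw [sz_apply, hw _ (mem_pl.1 hu)]
      ring
    · have h1 : a u.1 = 0 := by simpa [sz_apply] using h0 (0, 1) (mem_pl.2 T.zero_mem)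
      have h2 : u.1 = 0 := h u.1 (mem_pl.1 hu) h1 fun v hv hv0 => by
        simpa [sz_apply, hv0] using h0 (v, 0) (mem_pl.2 hv)
      have h3 : u.2 = 0 := by simpa [sz_apply, h2, ha] using h0 (v₀, 0) (mem_pl.2 hv₀)
      exact Prod.ext h2 h3

omit [FiniteDimensional ℝ E] in
theorem linx_skew {T : Submodule ℝ E} {w : Bil E} (h : ∀ u ∈ T, w u u = 0) {u v : E} (hu : u ∈ T)
    (hv : v ∈ T) : w u v = -w v u := by
  have h1 := h _ (add_mem hu hv)
  simp only [map_add, add_apply, h u hu, h v hv] at h1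
  linarith

/-- Every alternating form on `T ⊕ ℝ` is of the form `sz w a`. -/
theorem eq_sz {T : Submodule ℝ E} {Ω : Bil (E × ℝ)} (h : ∀ u ∈ pl T ℝ, Ω u u = 0)
    {u v : E × ℝ} (hu : u ∈ pl T ℝ) (hv : v ∈ pl T ℝ) :
    Ω u v = sz (Ω.bilinearComp (ContinuousLinearMap.inl ℝ E ℝ) (ContinuousLinearMap.inl ℝ E ℝ))
      ((Ω (0, 1)).comp (ContinuousLinearMap.inl ℝ E ℝ)) u v := by
  have e : ∀ y : E × ℝ, y = (y.1, 0) + y.2 • ((0, 1) : E × ℝ) := fun y => by simp
  have h0 : ((0, 1) : E × ℝ) ∈ pl T ℝ := mem_pl.2 T.zero_mem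
  have h1 := linx_skew h (u := (u.1, 0)) (mem_pl.2 (mem_pl.1 hu)) h0
  rw [sz_apply]
  conv_lhs => rw [e u, e v]
  simp only [map_add, map_smul, add_apply, smul_apply, smul_eq_mul, h _ h0, h1,
    ContinuousLinearMap.bilinearComp_apply, ContinuousLinearMap.comp_apply,
    ContinuousLinearMap.inl_apply]
  ring

/-- If `Z` is dual to `a` then `sz w a` is `w` read through `(u, s) ↦ u + s Z`. -/
theorem sz_eq_of_dual {T : Submodule ℝ E} {w : Bil E} {a : E →L[ℝ] ℝ} (h : ∀ u ∈ T, w u u = 0)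
    {Z : E} (hZ : Z ∈ T) (ha : ∀ v ∈ T, w Z v = a v) {u v : E × ℝ} (hu : u.1 ∈ T) (hv : v.1 ∈ T) :
    sz w a u v = w (u.1 + u.2 • Z) (v.1 + v.2 • Z) := by
  simp only [sz_apply, map_add, map_smul, add_apply, smul_apply, smul_eq_mul, h Z hZ,
    linx_skew h hu hZ, ha _ hu, ha _ hv]
  ring

theorem contDiff_osum : ContDiff ℝ ∞ fun q : Bil E × Bil F => osum q.1 q.2 := by
  refine contDiff_clm_apply_iff.2 fun u => contDiff_clm_apply_iff.2 fun v => ?_
  simp only [osum_apply]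
  exact ((contDiff_fst.clm_apply contDiff_const).clm_apply contDiff_const).add
    ((contDiff_snd.clm_apply contDiff_const).clm_apply contDiff_const)

theorem contDiff_bilinearComp :
    ContDiff ℝ ∞ fun q : Bil E' × (E →L[ℝ] E') => (q.1.bilinearComp q.2 q.2 : Bil E) :=
  contDiff_clm_apply_iff.2 fun _ => contDiff_clm_apply_iff.2 fun _ =>
    (contDiff_fst.clm_apply (contDiff_snd.clm_apply contDiff_const)).clm_apply
      (contDiff_snd.clm_apply contDiff_const)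

theorem contDiff_prodMap_id : ContDiff ℝ ∞ fun A : E →L[ℝ] E' =>
    A.prodMap (ContinuousLinearMap.id ℝ F) :=
  contDiff_clm_apply_iff.2 fun _ => (contDiff_id.clm_apply contDiff_const).prodMk contDiff_const

theorem contDiff_incl : ContDiff ℝ ∞ fun ν : E => incl ν F := by
  refine contDiff_clm_apply_iff.2 fun v => ?_
  simp only [incl_apply]
  exact (contDiff_const.add (contDiff_id.const_smul _)).prodMk contDiff_const

end Pool.Agent.Lib.MP_ccffa6_gt
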