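import Pool.Agent.Lib.MP_ccffa6_gt.K.Tan

open Set Filter Topology
open scoped ContDiff

noncomputable section

namespace Pool.Agent.Lib.MP_ccffa6_gt

variable {E : Type} [NormedAddCommGroup E] [NormedSpace ℝ E] [FiniteDimensional ℝ E]
  {E' : Type} [NormedAddCommGroup E'] [NormedSpace ℝ E'] [FiniteDimensional ℝ E']
  {F : Type} [NormedAddCommGroup F] [NormedSpace ℝ F] [FiniteDimensional ℝ F]

theorem Tan.univ (x : E) : Tan (univ : Set E) x = ⊤ := by
  exact Tan.of_mem_nhds univ_mem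

theorem Tan.inter_nhds {S U : Set E} {x : E} (hU : U ∈ 𝓝 x) : Tan (S ∩ U) x = Tan S x := by
  unfold Tan
  rw [tangentConeAt_inter_nhds hU]

theorem Tan.mono_nhds {S S' : Set E} {x : E} (h : ∀ᶠ y in 𝓝[S] x, y ∈ S') :
    Tan S x ≤ Tan S' x := by
  exact Submodule.span_mono (tangentConeAt_mono_nhds (nhdsWithin_le_iff.2 h))

theorem tanx_curve {S : Set E} {I : Set ℝ} {γ : ℝ → E} {t : ℝ} {v : E} (h : HasDerivAt γ v t)
    (hI : UniqueDiffWithinAt ℝ I t) (hS : ∀ᶠ s in 𝓝[I] t, γ s ∈ S) : v ∈ Tan S (γ t) := by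
  have h1 : (1 : ℝ) ∈ Tan I t := Submodule.subset_span (by
    rw [tangentConeAt_eq_univ (uniqueDiffWithinAt_iff_accPt.1 hI)]
    exact mem_univ _)
  have h2 := Tan.map h.differentiableAt hS h1
  rwa [fderiv_apply_one_eq_deriv, h.deriv] at h2

/-- One sided curves are enough. -/
theorem Tan.curve_right {S : Set E} {γ : ℝ → E} {t : ℝ} {v : E} (h : HasDerivAt γ v t)
    (hS : ∀ᶠ s in 𝓝[>] t, γ s ∈ S) : v ∈ Tan S (γ t) := by
  exact tanx_curve h (uniqueDiffWithinAt_Ioi t) hS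

theorem Tan.curve_left {S : Set E} {γ : ℝ → E} {t : ℝ} {v : E} (h : HasDerivAt γ v t)
    (hS : ∀ᶠ s in 𝓝[<] t, γ s ∈ S) : v ∈ Tan S (γ t) := by
  exact tanx_curve h (uniqueDiffWithinAt_Iio t) hS

/-- A map of an open set into `S` has its derivative in the tangent spaces. -/
theorem Tan.fderiv_mem {S : Set E} {f : F → E} {y : F} (hf : DifferentiableAt ℝ f y)
    (h : ∀ᶠ z in 𝓝 y, f z ∈ S) (v : F) : fderiv ℝ f y v ∈ Tan S (f y) := by
  refine Tan.map (S := Set.univ) hf (by rwa [nhdsWithin_univ]) ?_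
  rw [Tan.univ]
  trivial

theorem Tan.fderiv_eq_zero {S : Set E} {f : E → E'} {x v : E} {c : E'} (hx : x ∈ S)
    (hf : DifferentiableAt ℝ f x) (h : ∀ᶠ y in 𝓝[S] x, f y = c) (hv : v ∈ Tan S x) :
    fderiv ℝ f x v = 0 := by
  rw [Tan.fderiv_congr (g := fun _ => c) hx hf (differentiableAt_const c) h hv]
  simp

theorem Tan.prod_eq {S : Set E} {S' : Set E'} {x : E} {y : E'} (hx : x ∈ S) (hy : y ∈ S') :
    Tan (S ×ˢ S') (x, y) = (Tan S x).prod (Tan S' y) := by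
  apply le_antisymm
  · intro v hv
    have h1 := Tan.map (S := S ×ˢ S') (S' := S) (f := (Prod.fst : E × E' → E)) differentiableAt_fst
      (eventually_nhdsWithin_of_forall fun z hz => hz.1) hv
    have h2 := Tan.map (S := S ×ˢ S') (S' := S') (f := (Prod.snd : E × E' → E'))
      differentiableAt_snd (eventually_nhdsWithin_of_forall fun z hz => hz.2) hv
    rw [fderiv_fst] at h1
    rw [fderiv_snd] at h2
    exact ⟨h1, h2⟩
  · rintro ⟨a, b⟩ ⟨ha, hb⟩
    have h1 := Tan.map (S' := S ×ˢ S') (f := fun z : E => (z, y)) (by fun_prop)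
      (eventually_nhdsWithin_of_forall fun z hz => ⟨hz, hy⟩) ha
    have h2 := Tan.map (S' := S ×ˢ S') (f := fun z : E' => (x, z)) (by fun_prop)
      (eventually_nhdsWithin_of_forall fun z hz => ⟨hx, hz⟩) hb
    rw [(hasFDerivAt_prodMk_left x y).fderiv] at h1
    rw [(hasFDerivAt_prodMk_right x y).fderiv] at h2
    simpa using Submodule.add_mem _ h1 h2

theorem Tan.prod_univ {S : Set E} {p : E × F} (hp : p.1 ∈ S) :
    Tan (S ×ˢ (Set.univ : Set F)) p = pl (Tan S p.1) F := by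
  have := Tan.prod_eq hp (mem_univ p.2)
  rw [Tan.univ] at this
  exact this

theorem Tan.singleton (x : E) : Tan ({x} : Set E) x = ⊥ := by
  refine eq_bot_iff.2 fun v hv => ?_
  have := Tan.fderiv_eq_zero (f := id) (c := x) (mem_singleton x) differentiableAt_id
    (eventually_nhdsWithin_of_forall fun z hz => hz) hv
  simpa using this

theorem Chart.tendsto {S : Set E} {x : E} {φ : F → E} {ψ : E → F} (h : Chart S x φ ψ)
    (hx : x ∈ S) : Tendsto φ (𝓝 (ψ x)) (𝓝[S] x) := by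
  refine tendsto_nhdsWithin_iff.2 ⟨?_, h.right.mono fun z hz => hz.1⟩
  have := h.smφ.continuous.tendsto (ψ x)
  rwa [h.self hx] at this

theorem Chart.map_nhds {S : Set E} {x : E} {φ : F → E} {ψ : E → F} (h : Chart S x φ ψ)
    (hx : x ∈ S) : map φ (𝓝 (ψ x)) = 𝓝[S] x := by
  refine le_antisymm (h.tendsto hx) ?_
  have h1 : Tendsto ψ (𝓝[S] x) (𝓝 (ψ x)) :=
    (h.smψ.continuous.tendsto x).mono_left nhdsWithin_le_nhds
  calc 𝓝[S] x = map (φ ∘ ψ) (𝓝[S] x) :=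
        ((map_congr (m₁ := φ ∘ ψ) (m₂ := id) h.left).trans map_id).symm
    _ ≤ map φ (𝓝 (ψ x)) := map_mono h1

theorem Chart.map_nhds_inv {S : Set E} {x : E} {φ : F → E} {ψ : E → F} (h : Chart S x φ ψ)
    (hx : x ∈ S) : map ψ (𝓝[S] x) = 𝓝 (ψ x) := by
  rw [← h.map_nhds hx, map_map]
  exact (map_congr (m₁ := ψ ∘ φ) (m₂ := id) (h.right.mono fun z hz => hz.2)).trans map_id

theorem Chart.eventually_model {S : Set E} {x : E} {φ : F → E} {ψ : E → F} (h : Chart S x φ ψ)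
    (hx : x ∈ S) : ∀ᶠ z in 𝓝 (ψ x), φ z ∈ S ∧ ψ (φ z) = z ∧ Chart S (φ z) φ ψ := by
  filter_upwards [h.right, (h.tendsto hx).eventually h.eventually] with z h1 h2
  exact ⟨h1.1, h1.2, h2⟩

theorem Chart.injective_fderiv {S : Set E} {x : E} {φ : F → E} {ψ : E → F} (h : Chart S x φ ψ)
    (hx : x ∈ S) : Function.Injective (fderiv ℝ φ (ψ x)) := by
  exact Function.LeftInverse.injective (h.left_inv_fderiv hx)

theorem Chart.bijOn_fderiv {S : Set E} {x : E} {φ : F → E} {ψ : E → F} (h : Chart S x φ ψ)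
    (hx : x ∈ S) : BijOn (fderiv ℝ φ (ψ x)) (⊤ : Submodule ℝ F) (Tan S x) := by
  refine ⟨fun z _ => (h.mem_tan hx _).2 ⟨z, rfl⟩, (h.injective_fderiv hx).injOn, fun v hv => ?_⟩
  obtain ⟨z, hz⟩ := (h.mem_tan hx v).1 hv
  exact ⟨z, trivial, hz⟩

theorem Chart.equiv {S : Set E} {x : E} {φ : F → E} {ψ : E → F} (h : Chart S x φ ψ)
    (e : F ≃L[ℝ] E') : Chart S x (φ ∘ e.symm) (e ∘ ψ) := by
  refine ⟨h.smφ.comp e.symm.contDiff, e.contDiff.comp h.smψ, h.left.mono fun y hy => ?_, ?_⟩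
  · simpa using hy
  · have h1 : Tendsto e.symm (𝓝 (e (ψ x))) (𝓝 (ψ x)) := by
      simpa using e.symm.continuous.tendsto (e (ψ x))
    filter_upwards [h1.eventually h.right] with z hz
    exact ⟨hz.1, by simp [hz.2]⟩

theorem isSub_of_chart {d : ℕ} {S : Set E} (hd : Module.finrank ℝ F = d)
    (h : ∀ x ∈ S, ∃ (φ : F → E) (ψ : E → F), Chart S x φ ψ) : IsSub d S := by
  intro x hx
  obtain ⟨φ, ψ, hc⟩ := h x hx
  exact hc.toRd hd

/-- A tangent vector extends to a smooth field which is tangent near the point. -/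
theorem IsSub.exists_tan_field {d : ℕ} {S : Set E} (h : IsSub d S) {x v : E} (hx : x ∈ S)
    (hv : v ∈ Tan S x) :
    ∃ V : E → E, ContDiff ℝ ∞ V ∧ V x = v ∧ ∀ᶠ y in 𝓝[S] x, V y ∈ Tan S y := by
  obtain ⟨φ, ψ, hc⟩ := h x hx
  refine ⟨fun y => fderiv ℝ φ (ψ y) (fderiv ℝ ψ x v), ?_, hc.right_inv_fderiv hx hv, ?_⟩
  · exact ((hc.smφ.fderiv_right (m := ∞) (by simp)).comp hc.smψ).clm_apply contDiff_const
  · filter_upwards [hc.eventually, self_mem_nhdsWithin] with y h1 h2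
    exact (h1.mem_tan h2 _).2 ⟨_, rfl⟩

/-- Local smooth projector field. -/
theorem IsSub.exists_proj_local {d : ℕ} {S : Set E} (h : IsSub d S) {x : E} (hx : x ∈ S) :
    ∃ P : E → E →L[ℝ] E, ContDiff ℝ ∞ P ∧
      ∀ᶠ y in 𝓝[S] x, (∀ v, P y v ∈ Tan S y) ∧ ∀ v ∈ Tan S y, P y v = v := by
  obtain ⟨φ, ψ, hc⟩ := h x hx
  refine ⟨fun y => (fderiv ℝ φ (ψ y)).comp (fderiv ℝ ψ y), ?_, ?_⟩
  · exact ((hc.smφ.fderiv_right (m := ∞) (by simp)).comp hc.smψ).clm_comp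
      (hc.smψ.fderiv_right (m := ∞) (by simp))
  · filter_upwards [hc.eventually, self_mem_nhdsWithin] with y h1 h2
    exact ⟨fun v => (h1.mem_tan h2 _).2 ⟨_, rfl⟩, fun v hv => h1.right_inv_fderiv h2 hv⟩

end Pool.Agent.Lib.MP_ccffa6_gt
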