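import Pool.Agent.Lib.MP_ccffa6_gt.K.GCalc

open Set Filter Topology
open scoped ContDiff

noncomputable section

namespace Pool.Agent.Lib.MP_ccffa6_gt

variable {E : Type} [NormedAddCommGroup E] [NormedSpace ℝ E] [FiniteDimensional ℝ E]
  {E' : Type} [NormedAddCommGroup E'] [NormedSpace ℝ E'] [FiniteDimensional ℝ E']
  {F : Type} [NormedAddCommGroup F] [NormedSpace ℝ F] [FiniteDimensional ℝ F]

theorem gc_tan_end {d : ℕ} {W : Set (E × ℝ)} {N : Set E} (hW : IsSub (d + 1) W) (hN : IsSub d N)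
    {p : E × ℝ} (hp : p ∈ W) (h1 : p.1 ∈ N) {k : ℝ} (hk : k ≠ 0)
    (h : ∀ x ∈ N, ∀ t ∈ Icc (0 : ℝ) 1, (x, p.2 + t * k) ∈ W) : Tan W p = T1 N p.1 := by
  refine (Submodule.eq_of_le_of_finrank_eq (fun v hv => ?_) ?_).symm
  · have a1 := Tan.map (S' := W) (f := fun x => (x, p.2)) (by fun_prop)
      (eventually_nhdsWithin_of_forall fun x hx => by simpa using h x hx 0 (by simp)) hv.1
    rw [(hasFDerivAt_prodMk_left (𝕜 := ℝ) p.1 p.2).fderiv] at a1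
    have a2 : (p.1, p.2 + k) - p ∈ Tan W p := by
      refine Submodule.subset_span (mem_tangentConeAt_of_segment_subset ?_)
      rw [segment_eq_image']
      rintro _ ⟨t, ht, rfl⟩
      convert h _ h1 t ht using 1
      ext <;> simp
    convert (Tan W p).add_mem a1 ((Tan W p).smul_mem (v.2 / k) a2) using 1
    ext <;> simp [hk]
  · rw [hW.finrank hp, ← gc_tan_prod hN h1, (gc_prod hN).finrank ⟨h1, trivial⟩]

theorem Cob.tan_bot {d : ℕ} {W : Set (E × ℝ)} {N M : Set E} (h : Cob d W N M) {p : E × ℝ}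
    (hp : p ∈ W) (h0 : p.2 ≤ 0) : Tan W p = T1 N p.1 :=
  gc_tan_end h.sub h.clN.sub hp ((h.bot p h0).1 hp) (k := -1) (by simp) fun x hx t ht =>
    (h.bot _ (by simp only; linarith [ht.1])).2 hx

theorem Cob.tan_top {d : ℕ} {W : Set (E × ℝ)} {N M : Set E} (h : Cob d W N M) {p : E × ℝ}
    (hp : p ∈ W) (h1 : 1 ≤ p.2) : Tan W p = T1 M p.1 :=
  gc_tan_end h.sub h.clM.sub hp ((h.top p h1).1 hp) one_ne_zero fun x hx t ht =>
    (h.top _ (by simp only; linarith [ht.1])).2 hx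

omit [NormedSpace ℝ E] [FiniteDimensional ℝ E] in
theorem gc_closed {W : Set (E × ℝ)} {N M : Set E} {a b : ℝ} (hN : IsClosed N) (hM : IsClosed M)
    (hc : IsClosed (W ∩ univ ×ˢ Icc a b)) (h0 : ∀ p : E × ℝ, p.2 ≤ a → (p ∈ W ↔ p.1 ∈ N))
    (h1 : ∀ p : E × ℝ, b ≤ p.2 → (p ∈ W ↔ p.1 ∈ M)) : IsClosed W := by
  convert ((hN.prod (isClosed_Iic (a := a))).union (hM.prod (isClosed_Ici (a := b)))).union hc
  ext p
  refine ⟨fun hp => ?_, ?_⟩
  · rcases le_total p.2 a with a0 | a0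
    · exact Or.inl (Or.inl ⟨(h0 p a0).1 hp, a0⟩)
    rcases le_total b p.2 with a1 | a1
    · exact Or.inl (Or.inr ⟨(h1 p a1).1 hp, a1⟩)
    · exact Or.inr ⟨hp, trivial, a0, a1⟩
  · rintro ((hp | hp) | hp)
    exacts [(h0 p hp.2).2 hp.1, (h1 p hp.2).2 hp.1, hp.1]

omit [FiniteDimensional ℝ E] in
theorem Cob.isClosed {d : ℕ} {W : Set (E × ℝ)} {N M : Set E} (h : Cob d W N M) : IsClosed W :=
  gc_closed h.clN.cpt.isClosed h.clM.cpt.isClosed h.cpt.isClosed h.bot h.top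

theorem gc_step : ∃ χ χ' : ℝ → ℝ, ContDiff ℝ ∞ χ ∧ (∀ s, HasDerivAt χ (χ' s) s) ∧ (∀ s, 0 ≤ χ' s) ∧
    (∀ s, χ s ∈ Icc (0 : ℝ) 1) ∧ (∀ s ≤ 0, χ s = 0) ∧ ∀ s, 1 ≤ s → χ s = 1 :=
  ⟨Real.smoothTransition, deriv Real.smoothTransition, Real.smoothTransition.contDiff,
    fun s => ((Real.smoothTransition.contDiff (n := 1)).differentiable (by simp) s).hasDerivAt,
    fun _ => Real.smoothTransition.monotone.deriv_nonneg,
    fun s => ⟨Real.smoothTransition.nonneg s, Real.smoothTransition.le_one s⟩,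
    fun _ => Real.smoothTransition.zero_of_nonpos, fun _ => Real.smoothTransition.one_of_one_le⟩

/-- Reeb fields of a path of contact forms. -/
theorem gc_reeb {n : ℕ} {S : Set E} {α : ℝ → Form1 E}
    (hs : ContDiff ℝ ∞ fun q : ℝ × E => α q.1 q.2) (h : ∀ t ∈ Icc (0 : ℝ) 1, CMan n S (α t)) :
    ∃ R : E × ℝ → E, Continuous R ∧ ∀ x ∈ S, ∀ t ∈ Icc (0 : ℝ) 1, IsReeb S (α t) x (R (x, t)) := by
  have hS := (h 0 (by simp)).cl
  have hw := (gc_symz_sm hs).comp (f := fun p : E × ℝ => (p.2, p.1)) (by fun_prop)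
  obtain ⟨X, U, a1, -, -, a2, a3⟩ := (gc_prod hS.sub).exists_dual (hS.cpt.prod isCompact_Icc)
    (prod_mono_right (subset_univ (Icc (0 : ℝ) 1))) (w := fun p => symz (α p.2) p.1) hw
    (fun p hp => gc_tan_prod hS.sub hp.1 ▸ (h _ hp.2).nd _ hp.1)
    (fun p _ u _ => by rw [gc_symz, gc_dF]; ring)
    (g := fun _ => -ContinuousLinearMap.snd ℝ E ℝ) contDiff_const
  refine ⟨fun p => (X p).1, a1.continuous.fst, fun x hx t ht => ?_⟩
  obtain ⟨-, b1, b2⟩ := a3 (x, t) ⟨⟨hx, trivial⟩, a2 ⟨hx, ht⟩⟩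
  rw [gc_tan_prod hS.sub hx] at b1 b2
  have c1 : α t x (X (x, t)).1 = 1 := by
    simpa [gc_symz] using b2 (0, 1) ⟨Submodule.zero_mem _, trivial⟩
  have c2 (v) (hv : v ∈ Tan S x) := b2 (v, 0) ⟨hv, trivial⟩
  have c3 : (X (x, t)).2 = 0 := by simpa [gc_symz, gc_dF, c1] using c2 _ b1.1
  exact ⟨b1.1, c1, fun v hv => by simpa [gc_symz, c3] using c2 v hv⟩

/-- The cylinder with the form `e^(g t) α_t`: choose `g' ` large on `[0,1]`, `g = t` for `t ≤ 0`,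
`g = t + c` for `t ≥ 1`, and reparametrise the path so that it is constant near the ends. -/
theorem xcob_of_path {n : ℕ} {S : Set E} {α : ℝ → Form1 E}
    (hs : ContDiff ℝ ∞ fun q : ℝ × E => α q.1 q.2) (h : ∀ t ∈ Icc (0 : ℝ) 1, CMan n S (α t)) :
    ∃ lam : Form1 (E × ℝ), XCob n (S ×ˢ univ) lam S (α 0) S (α 1) := by
  obtain ⟨R, r1, r2⟩ := gc_reeb hs h
  obtain ⟨χ, χ', c1, c2, c3, c4, c5, c6⟩ := gc_step
  have hS := (h 0 (by simp)).cl
  let A : E × ℝ → E →L[ℝ] ℝ := fun p => α p.2 p.1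
  have hA : ContDiff ℝ ∞ A := hs.comp (contDiff_snd.prodMk contDiff_fst)
  have hc : Continuous fun p => fderiv ℝ A p (0, 1) (R p) :=
    ((hA.continuous_fderiv (by simp)).clm_apply continuous_const).clm_apply r1
  obtain ⟨K, hK⟩ := ((hS.cpt.prod (isCompact_Icc (a := (0 : ℝ)) (b := 1))).image hc).bddBelow
  have hB : ContDiff ℝ ∞ fun p : E × ℝ => A (p.1, χ p.2) := by fun_prop
  refine ⟨cyl (fun s => s - K * χ s) fun p => A (p.1, χ p.2), ⟨gc_prod hS.sub, hS, hS, ?_,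
    fun p _ => by simp, fun p _ => by simp⟩, h 0 (by simp), h 1 (by simp),
    cyl_sm (by fun_prop) hB, fun p hp => ?_, fun p _ h0 v _ => by simp [cyl_apply, A, c5 _ h0],
    -K, fun p _ h1 v _ => by simp [cyl_apply, A, c6 _ h1, sub_eq_add_neg]⟩
  · simpa [prod_inter_prod] using hS.cpt.prod isCompact_Icc
  · obtain ⟨b1, b2, b3⟩ := r2 _ hp.1 _ (c4 p.2)
    rw [gc_tan_prod hS.sub hp.1]
    refine gl_cyl ((h _ (c4 p.2)).nd _ hp.1) (fun u _ v _ => gc_symz _ _ u v) (Real.exp_ne_zero _)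
      (fun u _ v _ => dF_cyl ((hasDerivAt_id p.2).sub ((c2 p.2).const_mul K))
        (hB.differentiable (by simp) p) u v) b1 b3 b2 (ne_of_gt ?_)
    have d := ((hA.differentiable (by simp) (p.1, χ p.2)).hasFDerivAt.comp p
      (hasFDerivAt_fst.prodMk ((c2 p.2).hasFDerivAt.comp p hasFDerivAt_snd))).fderiv
    have e : ((0 : E), χ' p.2) = χ' p.2 • ((0 : E), (1 : ℝ)) := by simp
    have k := mul_le_mul_of_nonneg_left (hK ⟨(p.1, χ p.2), ⟨hp.1, c4 _⟩, rfl⟩) (c3 p.2)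
    rw [show fderiv ℝ (fun p : E × ℝ => A (p.1, χ p.2)) p = _ from d]
    simp only [A] at k
    simp [A, b2, e, -Prod.smul_mk]
    linarith

theorem Good.base {n : ℕ} {S : Set E} {α : Form1 E} (h : CMan n S α) (hy : Hyp S α) :
    Good n S α := by
  obtain ⟨lam, hl⟩ := xcob_of_path (α := fun _ => α) (h.sm.comp contDiff_snd) fun _ _ => h
  exact ⟨E, _, _, ‹_›, _, lam, S, α, S, α, id, id, hl, hy, Diff.refl S, fun _ _ _ _ => by
    rw [gc_pb_id]⟩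

theorem Good.diff {n : ℕ} {S : Set E} {S' : Set E'} {φ : E → E'} {ψ : E' → E}
    (hd : Diff S S' φ ψ) {α : Form1 E} {β : Form1 E'} (he : EqT S α (pb φ β)) (h : Good n S' β) :
    Good n S α := by
  obtain ⟨F, _, _, _, W, lam, N, α', S₁, β₁, φ', ψ', a1, a2, a3, a4⟩ := h
  refine ⟨F, _, _, ‹_›, W, lam, N, α', S₁, β₁, _, _, a1, a2, hd.trans a3, fun x hx v hv => ?_⟩
  rw [he x hx v hv, gc_pb_comp hd.smφ a3.smφ]
  exact a4 _ (hd.mapφ hx) _ ((hd.tan_bijOn hx).1 hv)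

theorem Good.congr {n : ℕ} {S : Set E} {α β : Form1 E} (he : EqT S α β) (h : Good n S β) :
    Good n S α :=
  h.diff (Diff.refl S) (by rwa [gc_pb_id])

theorem htpy_of_path {n : ℕ} {S : Set E} {α : ℝ → Form1 E}
    (hs : ContDiff ℝ ∞ fun q : ℝ × E => α q.1 q.2) (h : ∀ t ∈ Icc (0 : ℝ) 1, CMan n S (α t)) :
    Htpy S (symz (α 0)) (symz (α 1)) :=
  ⟨fun q => symz (α q.1) q.2, ⟨(gc_symz_sm hs).continuous.continuousOn,
    fun _ hq => (h _ hq.1).nd _ hq.2⟩, fun _ _ _ _ _ _ => ⟨rfl, rfl⟩⟩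

end Pool.Agent.Lib.MP_ccffa6_gt
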