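import Pool.Agent.Lib.MP_ccffa6_gt.K.Level

/-! Families of smooth maps which depend continuously on a parameter in the `C¹` topology, and maps
close to the identity. -/

open Set Filter Topology
open scoped ContDiff

noncomputable section

namespace Pool.Agent.Lib.MP_ccffa6_gt

variable {E : Type} [NormedAddCommGroup E] [NormedSpace ℝ E]
  {E' : Type} [NormedAddCommGroup E'] [NormedSpace ℝ E']
  {F : Type} [NormedAddCommGroup F] [NormedSpace ℝ F]
  {P Q : Type} [TopologicalSpace P] [TopologicalSpace Q]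

/-- Maps smooth on `O`, jointly continuous together with their first derivative. -/
structure PFam (O : Set E) (g : P → E → F) : Prop where
  sm : ∀ t, ContDiffOn ℝ ∞ (g t) O
  c0 : ContinuousOn (fun z : P × E => g z.1 z.2) (univ ×ˢ O)
  c1 : ContinuousOn (fun z : P × E => fderiv ℝ (g z.1) z.2) (univ ×ˢ O)

theorem PFam.diff {O : Set E} {g : P → E → F} (h : PFam O g) (hO : IsOpen O) (t : P) {x : E}
    (hx : x ∈ O) : DifferentiableAt ℝ (g t) x :=
  ((h.sm t).contDiffAt (hO.mem_nhds hx)).differentiableAt (by simp)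

theorem PFam.const {O : Set E} (hO : IsOpen O) {f : E → F} (hf : ContDiffOn ℝ ∞ f O) :
    PFam O (fun _ : P => f) :=
  ⟨fun _ => hf, hf.continuousOn.comp continuousOn_snd fun _ hz => hz.2,
    (hf.continuousOn_fderiv_of_isOpen hO (by simp)).comp continuousOn_snd fun _ hz => hz.2⟩

theorem PFam.mono {O O' : Set E} {g : P → E → F} (h : PFam O g) (hO : O' ⊆ O) : PFam O' g :=
  ⟨fun t => (h.sm t).mono hO, h.c0.mono (prod_mono_right hO), h.c1.mono (prod_mono_right hO)⟩

theorem PFam.reparam {O : Set E} {g : P → E → F} (h : PFam O g) {τ : Q → P} (hτ : Continuous τ) :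
    PFam O (fun q => g (τ q)) :=
  ⟨fun _ => h.sm _,
    h.c0.comp (f := fun z : Q × E => (τ z.1, z.2)) (by fun_prop) fun _ hz => ⟨trivial, hz.2⟩,
    h.c1.comp (f := fun z : Q × E => (τ z.1, z.2)) (by fun_prop) fun _ hz => ⟨trivial, hz.2⟩⟩

theorem PFam.congr {O : Set E} {g g' : P → E → F} (h : PFam O g) (hO : IsOpen O)
    (he : ∀ t, ∀ x ∈ O, g' t x = g t x) : PFam O g' :=
  ⟨fun t => (h.sm t).congr (he t), h.c0.congr fun z hz => he z.1 z.2 hz.2,
    h.c1.congr fun z hz =>
      Filter.EventuallyEq.fderiv_eq (mem_of_superset (hO.mem_nhds hz.2) (he z.1))⟩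

theorem PFam.union {O O' : Set E} {g : P → E → F} (h : PFam O g) (h' : PFam O' g) (hO : IsOpen O)
    (hO' : IsOpen O') : PFam (O ∪ O') g :=
  ⟨fun t => (h.sm t).union_of_isOpen (h'.sm t) hO hO',
    prod_union ▸ h.c0.union_of_isOpen h'.c0 (isOpen_univ.prod hO) (isOpen_univ.prod hO'),
    prod_union ▸ h.c1.union_of_isOpen h'.c1 (isOpen_univ.prod hO) (isOpen_univ.prod hO')⟩

theorem PFam.comp {O : Set E} {O' : Set E'} {g : P → E' → F} {k : P → E → E'} (h : PFam O' g)
    (h' : PFam O k) (hO' : IsOpen O') (hO : IsOpen O) (hm : ∀ t, MapsTo (k t) O O') :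
    PFam O (fun t x => g t (k t x)) := by
  have hc : ContinuousOn (fun z : P × E => (z.1, k z.1 z.2)) (univ ×ˢ O) :=
    continuousOn_fst.prodMk h'.c0
  have hm' : MapsTo (fun z : P × E => (z.1, k z.1 z.2)) (univ ×ˢ O) (univ ×ˢ O') :=
    fun z hz => ⟨trivial, hm z.1 hz.2⟩
  refine ⟨fun t => (h.sm t).comp (h'.sm t) (hm t), h.c0.comp hc hm', ?_⟩
  refine ((h.c1.comp hc hm').clm_comp h'.c1).congr fun z hz => ?_
  exact fderiv_comp z.2 (h.diff hO' z.1 (hm z.1 hz.2)) (h'.diff hO z.1 hz.2)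

theorem PFam.prod {O : Set E} {g : P → E → F} {k : P → E → E'} (h : PFam O g) (h' : PFam O k)
    (hO : IsOpen O) : PFam O (fun t x => (g t x, k t x)) := by
  refine ⟨fun t => (h.sm t).prodMk (h'.sm t), h.c0.prodMk h'.c0, ?_⟩
  refine (((ContinuousLinearMap.prodₗᵢ ℝ).continuous.comp_continuousOn
    (h.c1.prodMk h'.c1))).congr fun z hz => ?_
  exact (h.diff hO z.1 hz.2).fderiv_prodMk (h'.diff hO z.1 hz.2)

theorem PFam.map {O : Set E} {k : P → E → E'} (h : PFam O k) (hO : IsOpen O) {f : E' → F}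
    (hf : ContDiff ℝ ∞ f) : PFam O (fun t x => f (k t x)) :=
  (PFam.const isOpen_univ hf.contDiffOn).comp h isOpen_univ hO fun _ _ _ => trivial

theorem PFam.add {O : Set E} {g k : P → E → F} (h : PFam O g) (h' : PFam O k) (hO : IsOpen O) :
    PFam O (fun t x => g t x + k t x) :=
  (h.prod h' hO).map hO (f := fun z => z.1 + z.2) (by fun_prop)

theorem PFam.sub {O : Set E} {g k : P → E → F} (h : PFam O g) (h' : PFam O k) (hO : IsOpen O) :
    PFam O (fun t x => g t x - k t x) :=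
  (h.prod h' hO).map hO (f := fun z => z.1 - z.2) (by fun_prop)

theorem PFam.smul {O : Set E} {g : P → E → ℝ} {k : P → E → F} (h : PFam O g) (h' : PFam O k)
    (hO : IsOpen O) : PFam O (fun t x => g t x • k t x) :=
  (h.prod h' hO).map hO (f := fun z => z.1 • z.2) (by fun_prop)

/-- Cutting off a family. -/
theorem PFam.cut {O : Set E} {k : P → E → F} (h : PFam O k) (hO : IsOpen O) {χ : E → ℝ}
    (hχ : ContDiff ℝ ∞ χ) (hs : tsupport χ ⊆ O) : PFam univ (fun t x => χ x • k t x) := by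
  have h1 : PFam O (fun t x => χ x • k t x) := (PFam.const hO hχ.contDiffOn).smul h hO
  have ho := (isClosed_tsupport χ).isOpen_compl
  have h2 : PFam (tsupport χ)ᶜ (fun t x => χ x • k t x) :=
    (PFam.const ho (f := fun _ => (0 : F)) contDiffOn_const).congr ho fun t x hx => by
      rw [image_eq_zero_of_notMem_tsupport hx, zero_smul]
  have h3 := h1.union h2 hO ho
  rwa [eq_univ_of_forall (s := O ∪ (tsupport χ)ᶜ) fun x => (em (x ∈ tsupport χ)).imp
    (fun hx => hs hx) id] at h3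

theorem PFam.contDiff {g : P → E → F} (h : PFam univ g) (t : P) : ContDiff ℝ ∞ (g t) :=
  contDiffOn_univ.1 (h.sm t)

theorem PFam.cont0 {g : P → E → F} (h : PFam univ g) : Continuous fun z : P × E => g z.1 z.2 := by
  simpa only [univ_prod_univ, continuousOn_univ] using h.c0

theorem PFam.cont1 {g : P → E → F} (h : PFam univ g) :
    Continuous fun z : P × E => fderiv ℝ (g z.1) z.2 := by
  simpa only [univ_prod_univ, continuousOn_univ] using h.c1

/-- A compactly supported family through the identity is close to the identity. -/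
theorem PFam.near_id {m : P → E → E} (h : PFam univ m) {K V : Set E} (hK : IsCompact K)
    (hV : IsOpen V) (hKV : K ⊆ V) (ho : ∀ t, ∀ x ∉ K, m t x = x) {t₀ : P} (h0 : ∀ x, m t₀ x = x) :
    ∀ᶠ t in 𝓝 t₀, (∀ x, ‖fderiv ℝ (m t) x - ContinuousLinearMap.id ℝ E‖ ≤ 1 / 2) ∧
      MapsTo (m t) K V := by
  have h1 := hK.eventually_forall_of_forall_eventually (x₀ := t₀)
    (P := fun t x => ‖fderiv ℝ (m t) x - ContinuousLinearMap.id ℝ E‖ < 1 / 2 ∧ m t x ∈ V)
    fun y hy => by
      refine Filter.Eventually.and ?_ ?_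
      · refine (isOpen_lt (h.cont1.sub continuous_const).norm continuous_const).mem_nhds ?_
        simp [show m t₀ = id from funext h0]
      · exact h.cont0.continuousAt.eventually (hV.mem_nhds (by simpa [h0] using hKV hy))
  filter_upwards [h1] with t ht
  refine ⟨fun x => ?_, fun x hx => (ht x hx).2⟩
  by_cases hx : x ∈ K
  · exact (ht x hx).1.le
  · have : m t =ᶠ[𝓝 x] id := mem_of_superset (hK.isClosed.isOpen_compl.mem_nhds hx) (ho t)
    simp [this.fderiv_eq]

theorem injective_of_near_id {L : E →L[ℝ] E} (h : ‖L - ContinuousLinearMap.id ℝ E‖ ≤ 1 / 2) :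
    Function.Injective L := by
  refine (injective_iff_map_eq_zero L).2 fun v hv => ?_
  have h1 := (L - ContinuousLinearMap.id ℝ E).le_of_opNorm_le h v
  simp only [sub_apply, hv, ContinuousLinearMap.id_apply, zero_sub,
    norm_neg] at h1
  exact norm_eq_zero.1 (by linarith [norm_nonneg v])

/-- A smooth map which is `C¹` close to the identity is a diffeomorphism. -/
theorem exists_inverse_of_near_id [FiniteDimensional ℝ E] {H : E → E} (hH : ContDiff ℝ ∞ H)
    (h : ∀ x, ‖fderiv ℝ H x - ContinuousLinearMap.id ℝ E‖ ≤ 1 / 2) :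
    ∃ J : E → E, ContDiff ℝ ∞ J ∧ (∀ x, J (H x) = x) ∧ ∀ y, H (J y) = y := by
  have hd := hH.differentiable (by simp)
  have h1 : ApproximatesLinearOn H (ContinuousLinearEquiv.refl ℝ E : E →L[ℝ] E) univ (1 / 2) := by
    refine LipschitzOnWith.approximatesLinearOn (LipschitzWith.lipschitzOnWith ?_)
    refine lipschitzWith_of_nnnorm_fderiv_le (𝕜 := ℝ) (hd.sub (ContinuousLinearMap.differentiable _))
      fun x => ?_
    rw [fderiv_sub (hd x) (ContinuousLinearMap.differentiableAt _), ContinuousLinearMap.fderiv]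
    exact_mod_cast h x
  have h2 : Subsingleton E ∨
      (1 / 2 : NNReal) < ‖((ContinuousLinearEquiv.refl ℝ E).symm : E →L[ℝ] E)‖₊⁻¹ := by
    rcases subsingleton_or_nontrivial E with hE | hE
    · exact Or.inl hE
    · right
      simp only [ContinuousLinearEquiv.refl_symm, ContinuousLinearEquiv.coe_refl,
        ContinuousLinearMap.nnnorm_id, inv_one]
      norm_num
  let e := h1.toHomeomorph H h2
  have he : (e : E → E) = H := rfl
  refine ⟨e.symm, e.contDiff_symm (f₀' := fun x => (LinearEquiv.ofInjectiveEndo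
    (fderiv ℝ H x).toLinearMap (injective_of_near_id (h x))).toContinuousLinearEquiv)
    (fun x => (hd x).hasFDerivAt) hH, e.symm_apply_apply, e.apply_symm_apply⟩

/-- A map which is an injective immersion along a compact set has a smooth inverse near it. -/
theorem exists_inverse_near [FiniteDimensional ℝ E] {C O : Set E} (hC : IsCompact C)
    (hO : IsOpen O) (hCO : C ⊆ O) {G : E → E} (hG : ContDiffOn ℝ ∞ G O) (hi : InjOn G C)
    (hd : ∀ p ∈ C, Function.Injective (fderiv ℝ G p)) :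
    ∃ (γ : E → E) (O' : Set E), ContDiff ℝ ∞ γ ∧ IsOpen O' ∧ G '' C ⊆ O' ∧
      (∀ y ∈ O', γ y ∈ O ∧ G (γ y) = y) ∧ ∀ᶠ x in 𝓝ˢ C, γ (G x) = x := by
  obtain ⟨g, g1, g2, -⟩ := exists_smooth_nhdsSet hC.isClosed hO hCO hG
  have g3 : ∀ p ∈ C, g =ᶠ[𝓝 p] G := fun p hp => nhds_le_nhdsSet hp g2
  obtain ⟨γ, V, γ1, hV, hCV, γ2⟩ := (isSub_of_isOpen (E := E) isOpen_univ).left_inverse hC
    (subset_univ _) g1 (fun p hp v _ hv => hd p hp (by rw [← (g3 p hp).fderiv_eq, hv, map_zero]))
    fun p hp q hq h => hi hp hq (by rw [← (g3 p hp).eq_of_nhds, ← (g3 q hq).eq_of_nhds, h])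
  have h1 : ∀ᶠ x in 𝓝ˢ C, x ∈ O ∧ γ (G x) = x := by
    filter_upwards [g2, hV.mem_nhdsSet.2 hCV, hO.mem_nhdsSet.2 hCO] with x x1 x2 x3
    exact ⟨x3, x1 ▸ γ2 x ⟨trivial, x2⟩⟩
  refine ⟨γ, interior (G '' {x | x ∈ O ∧ γ (G x) = x}), γ1, isOpen_interior, ?_, ?_,
    h1.mono fun x hx => hx.2⟩
  · rintro _ ⟨p, hp, rfl⟩
    have h2 : HasStrictFDerivAt G (fderiv ℝ G p) p :=
      (hG.contDiffAt (hO.mem_nhds (hCO hp))).hasStrictFDerivAt (by simp)
    rw [mem_interior_iff_mem_nhds, ← h2.map_nhds_eq_of_surj (LinearMap.range_eq_top.2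
      (LinearMap.injective_iff_surjective.1 (hd p hp)))]
    exact image_mem_map (nhds_le_nhdsSet hp h1)
  · intro y hy
    obtain ⟨x, hx, rfl⟩ := interior_subset hy
    rw [hx.2]
    exact ⟨hx.1, rfl⟩

end Pool.Agent.Lib.MP_ccffa6_gt
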