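import Pool.Agent.Lib.MP_ccffa6_gt.Defs

/-!
Linear algebra and cut-off functions for the gluing lemmas.
-/

open Set Filter Topology
open scoped ContDiff

noncomputable section

namespace Pool.Agent.Lib.MP_ccffa6_gt

variable {V : Type} [NormedAddCommGroup V] [NormedSpace ℝ V] {T : Submodule ℝ V} {w : Bil V}

theorem gl_anti (h : ∀ u ∈ T, w u u = 0) {u v : V} (hu : u ∈ T) (hv : v ∈ T) : w u v = -w v u := by
  have := h _ (T.add_mem hu hv)
  simp only [map_add, add_apply, h u hu, h v hv] at this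
  linarith

/-- the form `k (w + u ds ∧ l)` on the graph `g v = σ s` -/
theorem gl_lev (h : ND T w) {l g : V →L[ℝ] ℝ} {Z : V} (hZ : Z ∈ T) (hl : ∀ v ∈ T, w Z v = l v)
    {σ u k : ℝ} (hk : k ≠ 0) (h0 : σ + u * g Z ≠ 0) {T' : Submodule ℝ (V × ℝ)}
    (hT : ∀ p, p ∈ T' ↔ p.1 ∈ T ∧ g p.1 = σ * p.2) {B : Bil (V × ℝ)}
    (hB : ∀ p ∈ T', ∀ q ∈ T', B p q = k * (w p.1 q.1 + u * (p.2 * l q.1 - l p.1 * q.2))) :
    ND T' B := by
  refine ⟨fun p hp => by rw [hB p hp p hp, h.1 _ ((hT p).1 hp).1]; ring, fun p hp hq => ?_⟩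
  obtain ⟨h1, h2⟩ := (hT p).1 hp
  have hm := T.add_mem h1 (T.smul_mem (u * p.2) hZ)
  have e (v) (hv : v ∈ T) (t) (ht : g v = σ * t) : w (p.1 + (u * p.2) • Z) v = u * l p.1 * t := by
    have h3 := (hT (v, t)).2 ⟨hv, ht⟩
    have := hq _ h3
    rw [hB p hp _ h3, mul_eq_zero, or_iff_right hk] at this
    simp only [map_add, map_smul, add_apply, smul_apply,
      smul_eq_mul, hl v hv]
    linarith
  have eZ : w (p.1 + (u * p.2) • Z) Z = -l p.1 := by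
    simp [h.1 Z hZ, gl_anti h.1 h1 hZ, hl _ h1]
  have h4 : l p.1 = 0 := by
    have := e _ (T.smul_mem σ hZ) (g Z) (by simp)
    rw [map_smul, eZ, smul_eq_mul] at this
    exact (mul_eq_zero.1 (show l p.1 * (σ + u * g Z) = 0 by linarith)).resolve_right h0
  have h5 := h.2 _ hm fun v hv => by
    by_cases hσ : σ = 0
    · have hc : g Z ≠ 0 := fun hc => h0 (by simp [hσ, hc])
      have := e _ (T.sub_mem hv (T.smul_mem (g v / g Z) hZ)) 0 (by simp [hc])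
      rw [map_sub, map_smul, eZ, h4] at this
      simpa using this
    · rw [e v hv (g v / σ) (by field_simp), h4]; ring
  have h6 : p.2 = 0 := by
    have := congrArg g h5
    rw [map_add, map_smul, h2, map_zero, smul_eq_mul] at this
    exact (mul_eq_zero.1 (show p.2 * (σ + u * g Z) = 0 by linarith)).resolve_right h0
  exact Prod.ext (by simpa [h6] using h5) h6

/-- the form `k (w + ds ∧ g)` on `T ⊕ ℝ`, if `w + ds ∧ a` is nondegenerate with Reeb vector `R` -/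
theorem gl_cyl {a g : V →L[ℝ] ℝ} {A B : Bil (V × ℝ)} (h : ND (pl T ℝ) A)
    (hA : ∀ p ∈ pl T ℝ, ∀ q ∈ pl T ℝ, A p q = w p.1 q.1 + (p.2 * a q.1 - a p.1 * q.2))
    {k : ℝ} (hk : k ≠ 0)
    (hB : ∀ p ∈ pl T ℝ, ∀ q ∈ pl T ℝ, B p q = k * (w p.1 q.1 + (p.2 * g q.1 - g p.1 * q.2)))
    {R : V} (hR : R ∈ T) (h1 : ∀ v ∈ T, w R v = 0) (h2 : a R = 1) (h3 : g R ≠ 0) :
    ND (pl T ℝ) B := by
  have m {v} (hv : v ∈ T) (t : ℝ) : (v, t) ∈ pl T ℝ := ⟨hv, trivial⟩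
  have h0 (v) (hv : v ∈ T) : w v v = 0 := by simpa [hA _ (m hv 0) _ (m hv 0)] using h.1 _ (m hv 0)
  refine ⟨fun p hp => by rw [hB p hp p hp, h0 _ hp.1]; ring, fun p hp hq => ?_⟩
  have e (v) (hv : v ∈ T) (t) : w p.1 v + (p.2 * g v - g p.1 * t) = 0 := by
    have := hq _ (m hv t)
    rwa [hB p hp _ (m hv t), mul_eq_zero, or_iff_right hk] at this
  have h4 : p.2 = 0 := by simpa [gl_anti h0 hp.1 hR, h1 _ hp.1, h3] using e R hR 0
  have h5 : g p.1 = 0 := by simpa using e 0 T.zero_mem 1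
  have hm := T.sub_mem hp.1 (T.smul_mem (a p.1) hR)
  have h6 := h.2 _ (m hm 0) fun q hq => by
    have := e q.1 hq.1 0
    rw [hA _ (m hm 0) q hq]
    simp only [h4, zero_mul, mul_zero, sub_zero, add_zero] at this
    simp [this, h1 _ hq.1, h2]
  have h7 : p.1 = a p.1 • R := sub_eq_zero.1 (congrArg Prod.fst h6)
  rw [h7, map_smul, smul_eq_mul, mul_eq_zero, or_iff_left h3] at h5
  exact Prod.ext (by rw [h7, h5, zero_smul]; rfl) h4

/-- a primitive of a cut-off function -/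
theorem gl_cut {δ : ℝ} (h0 : 0 < δ) (h1 : δ ≤ 1 / 4) : ∃ Ψ ψ : ℝ → ℝ, ContDiff ℝ ∞ Ψ ∧
    (∀ s, HasDerivAt Ψ (ψ s) s) ∧ (∀ s, 0 ≤ ψ s ∧ ψ s ≤ 1) ∧ (∀ s, δ ≤ s → s ≤ 1 - δ → ψ s = 1) ∧
    (∀ s ≤ 0, ψ s = 0 ∧ Ψ s = 0) ∧ (∀ s, 1 ≤ s → ψ s = 0 ∧ Ψ s = Ψ 1) ∧ 1 / 2 ≤ Ψ 1 ∧ Monotone Ψ ∧
    (∀ s ≤ δ, Ψ s ≤ δ) ∧ ∀ s, 1 - δ ≤ s → Ψ 1 - δ ≤ Ψ s := by
  let ψ : ℝ → ℝ := fun s => Real.smoothTransition (s / δ) * Real.smoothTransition ((1 - s) / δ)
  have hψ : ContDiff ℝ ∞ ψ := (Real.smoothTransition.contDiff.comp (by fun_prop)).mul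
    (Real.smoothTransition.contDiff.comp (by fun_prop))
  have hd (s) : HasDerivAt (fun s => ∫ t in (0 : ℝ)..s, ψ t) (ψ s) s :=
    hψ.continuous.integral_hasStrictDerivAt 0 s |>.hasDerivAt
  have p0 (s) : 0 ≤ ψ s := mul_nonneg (Real.smoothTransition.nonneg _) (Real.smoothTransition.nonneg _)
  have p1 (s) : ψ s ≤ 1 := mul_le_one₀ (Real.smoothTransition.le_one _)
    (Real.smoothTransition.nonneg _) (Real.smoothTransition.le_one _)
  have q1 (s) (a : δ ≤ s) (b : s ≤ 1 - δ) : ψ s = 1 := by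
    simp only [ψ]
    rw [Real.smoothTransition.one_of_one_le ((one_le_div h0).2 a),
      Real.smoothTransition.one_of_one_le ((one_le_div h0).2 (by linarith)), one_mul]
  have z0 (s) (a : s ≤ 0) : ψ s = 0 := mul_eq_zero_of_left
    (Real.smoothTransition.zero_of_nonpos (div_nonpos_of_nonpos_of_nonneg a h0.le)) _
  have z1 (s) (a : 1 ≤ s) : ψ s = 0 := mul_eq_zero_of_right _
    (Real.smoothTransition.zero_of_nonpos (div_nonpos_of_nonpos_of_nonneg (by linarith) h0.le))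
  set Ψ := fun s => ∫ t in (0 : ℝ)..s, ψ t
  have hi (a b) : Ψ b - Ψ a = ∫ t in a..b, ψ t := intervalIntegral.integral_interval_sub_left
    (hψ.continuous.intervalIntegrable _ _) (hψ.continuous.intervalIntegrable _ _)
  have hc (a b c) (hab : a ≤ b) (h : ∀ t ∈ Icc a b, ψ t = c) : Ψ b - Ψ a = (b - a) * c := by
    rw [hi, intervalIntegral.integral_congr (g := fun _ => c) (by rwa [uIcc_of_le hab])]
    simp
  have hm : Monotone Ψ := monotone_of_deriv_nonneg (fun s => (hd s).differentiableAt)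
    fun s => (hd s).deriv ▸ p0 s
  have hl : Monotone fun s => s - Ψ s := monotone_of_deriv_nonneg
    (fun s => ((hasDerivAt_id s).sub (hd s)).differentiableAt)
    fun s => ((hasDerivAt_id s).sub (hd s)).deriv ▸ sub_nonneg.2 (p1 s)
  have e0 : Ψ 0 = 0 := intervalIntegral.integral_same
  refine ⟨Ψ, ψ, contDiff_infty_iff_deriv.2 ⟨fun s => (hd s).differentiableAt,
    (funext fun s => (hd s).deriv : deriv Ψ = ψ) ▸ hψ⟩, hd, fun s => ⟨p0 s, p1 s⟩, q1,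
    fun s a => ⟨z0 s a, ?_⟩, fun s a => ⟨z1 s a, ?_⟩, ?_, hm, fun s a => ?_, fun s a => ?_⟩
  · linarith [hc s 0 0 a fun t ht => z0 t ht.2]
  · linarith [hc 1 s 0 a fun t ht => z1 t ht.1]
  · linarith [hc δ (1 - δ) 1 (by linarith) fun t ht => q1 t ht.1 ht.2, hm h0.le,
      hm (show 1 - δ ≤ 1 by linarith)]
  · linarith [hm a, hl h0.le]
  · linarith [hm a, hl (show 1 - δ ≤ 1 by linarith)]

end Pool.Agent.Lib.MP_ccffa6_gt
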