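import Pool.Agent.Lib.MP_ccffa6_gt.K.Forms0
import Pool.Agent.Lib.MP_ccffa6_gt.K.GLin

/-!
Forms on cylinders, and small facts on pull-backs.
-/

open Set Filter Topology
open scoped ContDiff

noncomputable section

namespace Pool.Agent.Lib.MP_ccffa6_gt

variable {E E' : Type} [NormedAddCommGroup E] [NormedSpace ℝ E] [NormedAddCommGroup E']
  [NormedSpace ℝ E'] {d n : ℕ} {S : Set E} {S' : Set E'} {x : E} {φ : E → E'} {ψ : E' → E}
  {α β : Form1 E} {γ : Form1 E'}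

/-- the form `e ^ u A` on `E × ℝ` -/
def cyl (u : ℝ → ℝ) (A : E × ℝ → E →L[ℝ] ℝ) : Form1 (E × ℝ) :=
  fun p => Real.exp (u p.2) • (A p).comp (ContinuousLinearMap.fst ℝ E ℝ)

theorem cyl_apply (u : ℝ → ℝ) (A : E × ℝ → E →L[ℝ] ℝ) (p v : E × ℝ) :
    cyl u A p v = Real.exp (u p.2) * A p v.1 := rfl

theorem cyl_sm {u : ℝ → ℝ} {A : E × ℝ → E →L[ℝ] ℝ} (hu : ContDiff ℝ ∞ u) (hA : ContDiff ℝ ∞ A) :
    ContDiff ℝ ∞ (cyl u A) :=
  (hu.comp contDiff_snd).exp.smul (hA.clm_comp contDiff_const)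

theorem gc_dF (α : Form1 E) (x u v : E) : dF α x u v = fderiv ℝ α x u v - fderiv ℝ α x v u := rfl

theorem gc_symz (α : Form1 E) (x : E) (p q : E × ℝ) :
    symz α x p q = dF α x p.1 q.1 + (p.2 * α x q.1 - α x p.1 * q.2) := by
  simp [symz]

theorem dF_cyl {u : ℝ → ℝ} {A : E × ℝ → E →L[ℝ] ℝ} {p : E × ℝ} {u' : ℝ} (hu : HasDerivAt u u' p.2)
    (hA : DifferentiableAt ℝ A p) (v w : E × ℝ) :
    dF (cyl u A) p v w = Real.exp (u p.2) * (dF (fun x => A (x, p.2)) p.1 v.1 w.1 +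
      (v.2 * (u' • A p + fderiv ℝ A p (0, 1)) w.1 - (u' • A p + fderiv ℝ A p (0, 1)) v.1 * w.2)) := by
  have h1 := (hu.hasFDerivAt.comp p hasFDerivAt_snd).exp.smul
    (hA.hasFDerivAt.clm_comp (hasFDerivAt_const (ContinuousLinearMap.fst ℝ E ℝ) p))
  have h2 := (show HasFDerivAt A _ (p.1, p.2) from hA.hasFDerivAt).comp p.1
    (hasFDerivAt_prodMk_left (𝕜 := ℝ) p.1 p.2)
  have e (v : E × ℝ) : fderiv ℝ A p v = fderiv ℝ A p (v.1, 0) + v.2 • fderiv ℝ A p (0, 1) := by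
    rw [← map_smul, ← map_add]; simp
  rw [gc_dF, gc_dF, show fderiv ℝ (cyl u A) p = _ from h1.fderiv,
    show fderiv ℝ (fun x => A (x, p.2)) p.1 = _ from h2.fderiv]
  simp [e v, e w]
  ring

theorem dF_cyl_const {u : ℝ → ℝ} {p : E × ℝ} {u' : ℝ} (hu : HasDerivAt u u' p.2)
    (hα : ContDiff ℝ ∞ α) (v w : E × ℝ) :
    dF (cyl u fun q => α q.1) p v w = Real.exp (u p.2) * (dF α p.1 v.1 w.1 +
      u' * (v.2 * α p.1 w.1 - α p.1 v.1 * w.2)) := by
  have h : HasFDerivAt (fun q : E × ℝ => α q.1) _ p :=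
    ((hα.differentiable (by simp)) p.1).hasFDerivAt.comp p hasFDerivAt_fst
  rw [dF_cyl hu h.differentiableAt, h.fderiv]
  simp
  ring

theorem gc_dF_smul (hα : ContDiff ℝ ∞ α) (k : ℝ) (x u v : E) :
    dF (k • α) x u v = k * dF α x u v := by
  rw [gc_dF, gc_dF, fderiv_const_smul (hα.differentiable (by simp) x)]
  simp [mul_sub]

theorem ND.gc_map {T : Submodule ℝ E} {T' : Submodule ℝ E'} {B : Bil E} {B' : Bil E'} (h : ND T' B')
    (L : E →L[ℝ] E') (hL : BijOn L T T') {k : ℝ} (hk : k ≠ 0)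
    (e : ∀ u ∈ T, ∀ v ∈ T, B u v = k * B' (L u) (L v)) : ND T B :=
  ⟨fun u hu => by rw [e u hu u hu, h.1 _ (hL.1 hu), mul_zero], fun u hu hv =>
    hL.2.1 hu T.zero_mem ((h.2 _ (hL.1 hu) fun w hw => by
      obtain ⟨v, h1, rfl⟩ := hL.2.2 hw
      exact (mul_eq_zero.1 ((e u hu v h1).symm.trans (hv v h1))).resolve_left hk).trans
        (map_zero L).symm)⟩

/-- maps which agree on a closed half space have the same derivative there -/
theorem gc_half {f g : E × ℝ → E'} (hf : ContDiff ℝ ∞ f) {g' : E × ℝ →L[ℝ] E'} {p : E × ℝ}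
    (hg : HasFDerivAt g g' p) {I : Set ℝ} (hI : UniqueDiffOn ℝ I) (hp : p.2 ∈ I)
    (e : ∀ q : E × ℝ, q.2 ∈ I → f q = g q) : fderiv ℝ f p = g' :=
  ((uniqueDiffOn_univ.prod hI) p ⟨trivial, hp⟩).eq
    (hf.differentiable (by simp) p).hasFDerivAt.hasFDerivWithinAt
    (hg.hasFDerivWithinAt.congr (fun q hq => e q hq.2) (e p hp))

theorem gc_pb_comp {E'' : Type} [NormedAddCommGroup E''] [NormedSpace ℝ E''] {φ' : E' → E''}
    (hφ : ContDiff ℝ ∞ φ) (hφ' : ContDiff ℝ ∞ φ') (θ : Form1 E'') :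
    pb (φ' ∘ φ) θ = pb φ (pb φ' θ) := by
  funext x
  rw [pb, fderiv_comp x (hφ'.differentiable (by simp) _) (hφ.differentiable (by simp) _)]
  rfl

theorem gc_pb_id (α : Form1 E) : pb id α = α := by
  funext x
  rw [pb, fderiv_id]
  rfl

variable [FiniteDimensional ℝ E] [FiniteDimensional ℝ E']

theorem gc_symz_sm {X : Type} [NormedAddCommGroup X] [NormedSpace ℝ X] {a : X → Form1 E}
    (ha : ContDiff ℝ ∞ fun q : X × E => a q.1 q.2) :
    ContDiff ℝ ∞ fun q : X × E => symz (a q.1) q.2 := by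
  have h : ContDiff ℝ ∞ fun q : X × E => fderiv ℝ (a q.1) q.2 :=
    ContDiff.fderiv (f := fun q : X × E => a q.1) (m := ∞)
      (ha.comp (contDiff_fst.fst.prodMk contDiff_snd)) contDiff_snd (by simp)
  refine contDiff_clm_apply_iff.2 fun u => contDiff_clm_apply_iff.2 fun v => ?_
  simp only [gc_symz, gc_dF]
  fun_prop

theorem Diff.gc_nd (h : Diff S S' φ ψ) (hγ : ContDiff ℝ ∞ γ) (hx : x ∈ S)
    (nd : ND (Tan S' (φ x)) (dF γ (φ x))) : ND (Tan S x) (dF (pb φ γ) x) :=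
  nd.gc_map _ (h.tan_bijOn hx) one_ne_zero fun u _ v _ => by
    rw [dF_pb (h.smφ.contDiffAt.of_le (by norm_cast)) (hγ.differentiable (by simp) _), one_mul]

theorem EqT.gc_symm (h : Diff S S' φ ψ) (e : EqT S α (pb φ γ)) : EqT S' γ (pb ψ α) := by
  intro y hy v hv
  have h1 := e _ (h.mapψ hy) _ ((h.symm.tan_bijOn hy).1 hv)
  have h2 := h.symm.tan_left hy hv
  simp only [pb, ContinuousLinearMap.comp_apply] at h1 ⊢
  rw [h1, h2, h.right y hy]

theorem gc_prod (h : IsSub d S) : IsSub (d + 1) (S ×ˢ (univ : Set ℝ)) := by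
  simpa using h.prod (isSub_of_isOpen (isOpen_univ (X := ℝ)))

theorem gc_tan_prod (h : IsSub d S) {p : E × ℝ} (hp : p.1 ∈ S) :
    Tan (S ×ˢ (univ : Set ℝ)) p = T1 S p.1 := by
  rw [show p = (p.1, p.2) from rfl, h.tan_prod (isSub_of_isOpen isOpen_univ) hp trivial,
    Tan.of_mem_nhds univ_mem]
  rfl

theorem gc_dF_congr (hS : IsSub d S) (hα : ContDiff ℝ ∞ α) (hβ : ContDiff ℝ ∞ β) (hx : x ∈ S)
    (h : ∀ᶠ y in 𝓝[S] x, ∀ v ∈ Tan S y, α y v = β y v) (nd : ND (Tan S x) (dF β x)) :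
    ND (Tan S x) (dF α x) := by
  obtain ⟨c, c', hc⟩ := hS x hx
  exact nd.congr fun u hu v hv => (hc.dF_congr hx (hα.differentiable (by simp) _)
    (hβ.differentiable (by simp) _) h hu hv).symm

end Pool.Agent.Lib.MP_ccffa6_gt
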