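import Pool.Agent.Lib.MP_ccffa6_gt.K.Cyl0

/-!
Exact cobordisms whose ends start at arbitrary heights: transport, scaling and stacking.
-/

open Set Filter Topology
open scoped ContDiff

noncomputable section

namespace Pool.Agent.Lib.MP_ccffa6_gt

variable {E : Type} [NormedAddCommGroup E] [NormedSpace ℝ E]
  {G : Type} [NormedAddCommGroup G] [NormedSpace ℝ G]

/-- Completed exact cobordism, cylindrical below `a` and above `b`. -/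
structure LX (n : ℕ) (a b c₀ c₁ : ℝ) (W : Set (E × ℝ)) (lam : Form1 (E × ℝ)) (N : Set E)
    (α : Form1 E) (M : Set E) (β : Form1 E) : Prop where
  sub : IsSub (2 * n + 1 + 1) W
  cN : CMan n N α
  cM : CMan n M β
  cpt : ∀ A B : ℝ, IsCompact (W ∩ univ ×ˢ Icc A B)
  bot : ∀ p : E × ℝ, p.2 ≤ a → (p ∈ W ↔ p.1 ∈ N)
  top : ∀ p : E × ℝ, b ≤ p.2 → (p ∈ W ↔ p.1 ∈ M)
  sm : ContDiff ℝ ∞ lam
  nd : ∀ p ∈ W, ND (Tan W p) (dF lam p)
  lb : ∀ p ∈ W, p.2 ≤ a → ∀ v ∈ Tan W p, lam p v = Real.exp (p.2 + c₀) * α p.1 v.1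
  lt : ∀ p ∈ W, b ≤ p.2 → ∀ v ∈ Tan W p, lam p v = Real.exp (p.2 + c₁) * β p.1 v.1

variable {n : ℕ} {a b c₀ c₁ : ℝ} {W W' : Set (E × ℝ)} {lam lam' : Form1 (E × ℝ)} {N M S : Set E}
  {α β γ : Form1 E}

theorem LX.xcob (h : LX n 0 1 0 c₁ W lam N α M β) : XCob n W lam N α M β :=
  ⟨⟨h.sub, h.cN.cl, h.cM.cl, h.cpt 0 1, h.bot, h.top⟩, h.cN, h.cM, h.sm, h.nd,
    by simpa using h.lb, c₁, h.lt⟩

theorem LX.smul (h : LX n a b c₀ c₁ W lam N α M β) (k : ℝ) :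
    LX n a b (c₀ + k) (c₁ + k) W (Real.exp k • lam) N α M β :=
  ⟨h.sub, h.cN, h.cM, h.cpt, h.bot, h.top, h.sm.const_smul (Real.exp k),
    fun p hp => (h.nd p hp).gc_map (ContinuousLinearMap.id ℝ _) (bijOn_id _) (Real.exp_ne_zero k)
      fun u _ v _ => gc_dF_smul h.sm _ p u v,
    fun p hp h0 v hv => by
      simp only [Pi.smul_apply, smul_apply, h.lb p hp h0 v hv, Real.exp_add, smul_eq_mul]; ring,
    fun p hp h0 v hv => by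
      simp only [Pi.smul_apply, smul_apply, h.lt p hp h0 v hv, Real.exp_add, smul_eq_mul]; ring⟩

variable [FiniteDimensional ℝ E] [FiniteDimensional ℝ G]

omit [FiniteDimensional ℝ E] in
theorem XCob.lx (h : XCob n W lam N α M β) : ∃ c, LX n 0 1 0 c W lam N α M β := by
  obtain ⟨c, hc⟩ := h.top
  refine ⟨c, h.cob.sub, h.cN, h.cM, fun A B => ?_, h.cob.bot, h.cob.top, h.sm, h.nd,
    by simpa using h.bot, hc⟩
  refine (((h.cN.cl.cpt.union h.cM.cl.cpt).prod (isCompact_Icc (a := A) (b := B))).union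
    h.cob.cpt).of_isClosed_subset (h.cob.isClosed.inter (isClosed_univ.prod isClosed_Icc))
    fun p hp => ?_
  rcases le_total p.2 0 with a0 | a0
  · exact Or.inl ⟨Or.inl ((h.cob.bot p a0).1 hp.1), hp.2.2⟩
  rcases le_total 1 p.2 with a1 | a1
  · exact Or.inl ⟨Or.inr ((h.cob.top p a1).1 hp.1), hp.2.2⟩
  · exact Or.inr ⟨hp.1, trivial, a0, a1⟩

/-- One end of a transported cobordism. -/
theorem gl_end {W₁ : Set (G × ℝ)} {Φ : E × ℝ → G × ℝ} {Ψ : G × ℝ → E × ℝ} (hd : Diff W W₁ Φ Ψ)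
    {N₁ : Set G} {φ : E → G} {ψ : G → E} (hN : Diff N N₁ φ ψ) {α₁ : Form1 G}
    (he : EqT N α (pb φ α₁)) {I : Set ℝ} (hI : UniqueDiffOn ℝ I) {k c : ℝ}
    (c4 : UniqueDiffOn ℝ ((fun s => s + k) ⁻¹' I))
    (h1 : ∀ p : E × ℝ, p.2 + k ∈ I → Φ p = (φ p.1, p.2 + k))
    (h2 : ∀ q : G × ℝ, q.2 ∈ I → Ψ q = (ψ q.1, q.2 - k))
    (h3 : ∀ p : E × ℝ, p.2 + k ∈ I → (p ∈ W ↔ p.1 ∈ N))
    (h4 : ∀ p ∈ W, p.2 + k ∈ I → Tan W p = T1 N p.1)
    (h5 : ∀ p ∈ W, p.2 + k ∈ I → ∀ v ∈ Tan W p, lam p v = Real.exp (p.2 + c) * α p.1 v.1) :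
    (∀ q : G × ℝ, q.2 ∈ I → (q ∈ W₁ ↔ q.1 ∈ N₁)) ∧ ∀ q ∈ W₁, q.2 ∈ I → ∀ v ∈ Tan W₁ q,
      pb Ψ lam q v = Real.exp (q.2 + (c - k)) * α₁ q.1 v.1 := by
  have m (q : G × ℝ) (hq : q.2 ∈ I) : (Ψ q).2 + k ∈ I := by simpa [h2 q hq] using hq
  have a (q : G × ℝ) (hq : q.2 ∈ I) : q ∈ W₁ ↔ q.1 ∈ N₁ := by
    refine ⟨fun h => ?_, fun h => ?_⟩
    · rw [← hd.right q h, h1 _ (m q hq)]
      exact hN.mapφ ((h3 _ (m q hq)).1 (hd.mapψ h))
    · have := hd.mapφ ((h3 _ (m q hq)).2 (by rw [h2 q hq]; exact hN.mapψ h))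
      rwa [h1 _ (m q hq), h2 q hq, hN.right _ h, sub_add_cancel] at this
  refine ⟨a, fun q hq hI' v hv => ?_⟩
  have b1 := (hd.symm.tan_bijOn hq).1 hv
  have b2 := gc_half hd.smψ (((hN.smψ.differentiable (by simp) q.1).hasFDerivAt.comp q
    hasFDerivAt_fst).prodMk (hasFDerivAt_snd.sub_const k)) hI hI' h2
  have b3 : v ∈ T1 N₁ q.1 := by
    have c1 := h4 _ (hd.mapψ hq) (m q hI') ▸ b1
    have c2 := (hN.tan_bijOn ((h3 _ (m q hI')).1 (hd.mapψ hq))).1 c1.1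
    have c3 := hd.symm.tan_left hq hv
    rw [gc_half hd.smφ (((hN.smφ.differentiable (by simp) _).hasFDerivAt.comp _
      hasFDerivAt_fst).prodMk (hasFDerivAt_snd.add_const k)) c4 (m q hI') h1] at c3
    have c5 : φ (Ψ q).1 = q.1 := by rw [h2 q hI', hN.right _ ((a q hI').1 hq)]
    rw [c5] at c2
    exact mem_T1.2 (by rw [← c3]; exact c2)
  rw [pb, ContinuousLinearMap.comp_apply, h5 _ (hd.mapψ hq) (m q hI') _ b1, b2, h2 q hI',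
    he.gc_symm hN _ ((a q hI').1 hq) _ b3.1, sub_add, sub_eq_add_neg q.2, neg_sub]
  rfl

/-- Transport along a diffeomorphism which is a product on the two ends. -/
theorem LX.move (h : LX n a b c₀ c₁ W lam N α M β) {W₁ : Set (G × ℝ)} {Φ : E × ℝ → G × ℝ}
    {Ψ : G × ℝ → E × ℝ} (hd : Diff W W₁ Φ Ψ) {N₁ M₁ : Set G} {φ₀ φ₁ : E → G} {ψ₀ ψ₁ : G → E}
    (hN : Diff N N₁ φ₀ ψ₀) (hM : Diff M M₁ φ₁ ψ₁) {α₁ β₁ : Form1 G} (sα : ContDiff ℝ ∞ α₁)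
    (sβ : ContDiff ℝ ∞ β₁) (eα : EqT N α (pb φ₀ α₁)) (eβ : EqT M β (pb φ₁ β₁)) {a₁ b₁ k₀ k₁ : ℝ}
    (ha : a₁ ≤ a + k₀) (hb : b + k₁ ≤ b₁)
    (h1 : ∀ p : E × ℝ, p.2 + k₀ ≤ a₁ → Φ p = (φ₀ p.1, p.2 + k₀))
    (h2 : ∀ q : G × ℝ, q.2 ≤ a₁ → Ψ q = (ψ₀ q.1, q.2 - k₀))
    (h3 : ∀ p : E × ℝ, b₁ ≤ p.2 + k₁ → Φ p = (φ₁ p.1, p.2 + k₁))
    (h4 : ∀ q : G × ℝ, b₁ ≤ q.2 → Ψ q = (ψ₁ q.1, q.2 - k₁))
    {L : ℝ} (h5 : ∀ q, |(Ψ q).2 - q.2| ≤ L) :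
    LX n a₁ b₁ (c₀ - k₀) (c₁ - k₁) W₁ (pb Ψ lam) N₁ α₁ M₁ β₁ := by
  obtain ⟨e1, e2⟩ := gl_end hd hN eα (uniqueDiffOn_Iic a₁) (by simpa using uniqueDiffOn_Iic _) h1 h2
    (fun p hp => h.bot p (by linarith [mem_Iic.1 hp]))
    (fun p hp h0 => gc_tan_end h.sub h.cN.cl.sub hp ((h.bot p (by linarith [mem_Iic.1 h0])).1 hp)
      (k := -1) (by simp) fun x hx t ht =>
        (h.bot _ (by simp only; linarith [ht.1, mem_Iic.1 h0])).2 hx)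
    fun p hp h0 => h.lb p hp (by linarith [mem_Iic.1 h0])
  obtain ⟨e3, e4⟩ := gl_end hd hM eβ (uniqueDiffOn_Ici b₁) (by simpa using uniqueDiffOn_Ici _) h3 h4
    (fun p hp => h.top p (by linarith [mem_Ici.1 hp]))
    (fun p hp h0 => gc_tan_end h.sub h.cM.cl.sub hp ((h.top p (by linarith [mem_Ici.1 h0])).1 hp)
      one_ne_zero fun x hx t ht => (h.top _ (by simp only; linarith [ht.1, mem_Ici.1 h0])).2 hx)
    fun p hp h0 => h.lt p hp (by linarith [mem_Ici.1 h0])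
  refine ⟨hd.isSub h.sub, (h.cN.diff hN.symm).congr sα fun y hy v hv =>
    (eα.gc_symm hN y hy v hv).symm, (h.cM.diff hM.symm).congr sβ fun y hy v hv =>
    (eβ.gc_symm hM y hy v hv).symm, fun A B => ?_, e1, e3, contDiff_pb hd.smψ h.sm,
    fun q hq => hd.symm.gc_nd h.sm hq (h.nd _ (hd.mapψ hq)), e2, e4⟩
  rw [show W₁ ∩ univ ×ˢ Icc A B = Φ '' (W ∩ univ ×ˢ Icc (A - L) (B + L)) ∩ univ ×ˢ Icc A B from
    Subset.antisymm (fun q hq => ⟨⟨Ψ q, ⟨hd.mapψ hq.1, trivial, ?_⟩, hd.right q hq.1⟩, hq.2⟩)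
      (inter_subset_inter_left _ (image_subset_iff.2 fun p hp => hd.mapφ hp.1))]
  · exact ((h.cpt _ _).image hd.smφ.continuous).inter_right (isClosed_univ.prod isClosed_Icc)
  constructor <;> linarith [abs_le.1 (h5 q), hq.2.2.1, hq.2.2.2]

/-- Stacking two cobordisms in the same ambient space. -/
theorem LX.stack {a' b' c : ℝ} (h : LX n a b c₀ c W lam N α S β)
    (h' : LX n a' b' c c₁ W' lam' S β M γ) (h0 : a ≤ b) (h1 : b + 1 ≤ a') (h2 : a' ≤ b') :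
    ∃ W'' lam'', LX n a b' c₀ c₁ W'' lam'' N α M γ := by
  obtain ⟨χ, -, c1, -, -, -, c5, c6⟩ := gc_step
  let V : Set (E × ℝ) := {p | p.2 < a' ∧ p ∈ W ∨ b < p.2 ∧ p ∈ W'}
  have ov (p : E × ℝ) (p0 : b < p.2) (p1 : p.2 < a') : p ∈ W ↔ p ∈ W' :=
    (h.top p p0.le).trans (h'.bot p p1.le).symm
  have v0 (p : E × ℝ) (hp : p.2 < a') : p ∈ V ↔ p ∈ W :=
    ⟨fun hv => hv.elim (·.2) fun hv => (ov p hv.1 hp).2 hv.2, fun hv => Or.inl ⟨hp, hv⟩⟩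
  have v1 (p : E × ℝ) (hp : b < p.2) : p ∈ V ↔ p ∈ W' :=
    ⟨fun hv => hv.elim (fun hv => (ov p hp hv.1).1 hv.2) (·.2), fun hv => Or.inr ⟨hp, hv⟩⟩
  have o0 (p : E × ℝ) (hp : p.2 < a') : ∀ᶠ q in 𝓝 p, q.2 < a' :=
    (isOpen_lt continuous_snd continuous_const).mem_nhds hp
  have o1 (p : E × ℝ) (hp : b < p.2) : ∀ᶠ q in 𝓝 p, b < q.2 :=
    (isOpen_lt continuous_const continuous_snd).mem_nhds hp
  have w0 (p : E × ℝ) (hp : p.2 < a') : V =ᶠ[𝓝 p] W := (o0 p hp).mono fun q hq => propext (v0 q hq)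
  have w1 (p : E × ℝ) (hp : b < p.2) : V =ᶠ[𝓝 p] W' := (o1 p hp).mono fun q hq => propext (v1 q hq)
  have hV : IsSub (2 * n + 1 + 1) V := IsSub.of_local fun p hp =>
    hp.elim (fun hp => ⟨W, h.sub, w0 p hp.1⟩) fun hp => ⟨W', h'.sub, w1 p hp.1⟩
  let l : Form1 (E × ℝ) := fun p => (1 - χ (p.2 - b)) • lam p + χ (p.2 - b) • lam' p
  have sl : ContDiff ℝ ∞ l :=
    have : ContDiff ℝ ∞ fun p : E × ℝ => χ (p.2 - b) := by fun_prop
    ((contDiff_const.sub this).smul h.sm).add (this.smul h'.sm)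
  have lv (p) (hp : p ∈ V) (p0 : b < p.2) (p1 : p.2 < a') (v) (hv : v ∈ Tan V p) :
      lam p v = lam' p v := by
    rw [h.lt p ((v0 p p1).1 hp) p0.le v (Tan.congr (w0 p p1) ▸ hv),
      h'.lb p ((v1 p p0).1 hp) p1.le v (Tan.congr (w1 p p0) ▸ hv)]
  have l0 (p) (hp : p ∈ V) (p1 : p.2 < a') (v) (hv : v ∈ Tan V p) : l p v = lam p v := by
    rcases le_or_gt p.2 b with p0 | p0
    · simp [l, c5 _ (sub_nonpos.2 p0)]
    · simp only [l, add_apply, smul_apply, lv p hp p0 p1 v hv, smul_eq_mul]; ring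
  have l1 (p) (hp : p ∈ V) (p0 : b < p.2) (v) (hv : v ∈ Tan V p) : l p v = lam' p v := by
    rcases le_or_gt a' p.2 with p1 | p1
    · simp [l, c6 (p.2 - b) (by linarith)]
    · simp only [l, add_apply, smul_apply, lv p hp p0 p1 v hv, smul_eq_mul]; ring
  refine ⟨V, l, hV, h.cN, h'.cM, fun A B => ?_, fun p hp => (v0 p (by linarith)).trans (h.bot p hp),
    fun p hp => (v1 p (by linarith)).trans (h'.top p hp), sl, fun p hp => ?_,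
    fun p hp p0 v hv => ?_, fun p hp p0 v hv => ?_⟩
  · convert (h.cpt A (min B (b + 1 / 2))).union (h'.cpt (max A (b + 1 / 2)) B) using 1
    ext p
    simp only [mem_inter_iff, mem_prod, mem_univ, true_and, mem_union, mem_Icc, le_min_iff,
      max_le_iff]
    refine ⟨fun ⟨k1, k2, k3⟩ => ?_, ?_⟩
    · rcases le_total p.2 (b + 1 / 2) with k | k
      · exact Or.inl ⟨(v0 p (by linarith)).1 k1, k2, k3, k⟩
      · exact Or.inr ⟨(v1 p (by linarith)).1 k1, ⟨k2, k⟩, k3⟩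
    · rintro (⟨k1, k2, k3, k⟩ | ⟨k1, ⟨k2, k⟩, k3⟩)
      · exact ⟨(v0 p (by linarith)).2 k1, k2, k3⟩
      · exact ⟨(v1 p (by linarith)).2 k1, k2, k3⟩
  · rcases hp with ⟨p1, hw⟩ | ⟨p0, hw⟩
    · refine gc_dF_congr hV sl h.sm ((v0 p p1).2 hw) ?_ (Tan.congr (w0 p p1) ▸ h.nd p hw)
      filter_upwards [self_mem_nhdsWithin, nhdsWithin_le_nhds (o0 p p1)] with q k1 k2 using l0 q k1 k2
    · refine gc_dF_congr hV sl h'.sm ((v1 p p0).2 hw) ?_ (Tan.congr (w1 p p0) ▸ h'.nd p hw)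
      filter_upwards [self_mem_nhdsWithin, nhdsWithin_le_nhds (o1 p p0)] with q k1 k2 using l1 q k1 k2
  · have k : p.2 < a' := by linarith
    rw [l0 p hp k v hv, h.lb p ((v0 p k).1 hp) p0 v (Tan.congr (w0 p k) ▸ hv)]
  · have k : b < p.2 := by linarith
    rw [l1 p hp k v hv, h'.lt p ((v1 p k).1 hp) p0 v (Tan.congr (w1 p k) ▸ hv)]

/-- Rescaling the height. -/
theorem LX.rescale (h : LX n 0 b 0 c₁ W lam N α M β) (hb : 1 ≤ b) :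
    ∃ W' lam', XCob n W' lam' N α M β := by
  obtain ⟨χ, χ', c1, c2, c3, c4, c5, c6⟩ := gc_step
  have d (s) : HasDerivAt (fun s => s + (b - 1) * χ s) (1 + (b - 1) * χ' s) s :=
    (hasDerivAt_id s).add ((c2 s).const_mul _)
  have p (s) : 0 < 1 + (b - 1) * χ' s := by nlinarith [mul_nonneg (sub_nonneg.2 hb) (c3 s)]
  have m := strictMono_of_hasDerivAt_pos d p
  have bd (s) : 0 ≤ (b - 1) * χ s ∧ (b - 1) * χ s ≤ b - 1 :=
    ⟨mul_nonneg (sub_nonneg.2 hb) (c4 s).1, mul_le_of_le_one_right (sub_nonneg.2 hb) (c4 s).2⟩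
  have su : Function.Surjective fun s => s + (b - 1) * χ s := fun t =>
    intermediate_value_univ (t - (b - 1)) t (by fun_prop)
      ⟨by linarith [bd (t - (b - 1))], by linarith [bd t]⟩
  let τ := (m.orderIsoOfSurjective _ su).toHomeomorph
  have tτ (s) : τ s = s + (b - 1) * χ s := rfl
  have sτ : ContDiff ℝ ∞ τ := show ContDiff ℝ ∞ fun s => s + (b - 1) * χ s by fun_prop
  have iτ := τ.contDiff_symm_deriv (fun s => (p s).ne') d sτ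
  refine ⟨_, _, LX.xcob (c₁ := c₁ - (1 - b)) (sub_zero (0 : ℝ) ▸ h.move (k₀ := 0) (k₁ := 1 - b)
    (L := b - 1) (Diff.image (φ := fun p : E × ℝ => (p.1, τ.symm p.2))
      (ψ := fun q : E × ℝ => (q.1, τ q.2))
      (by fun_prop) (by fun_prop) fun p _ => by simp) (Diff.refl N) (Diff.refl M) h.cN.sm h.cM.sm
    (fun _ _ _ _ => by rw [gc_pb_id]) (fun _ _ _ _ => by rw [gc_pb_id]) (by simp) (by simp)
    (fun p hp => ?_) (fun q hq => by simp [tτ, c5 _ hq]) (fun p hp => ?_)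
    (fun q hq => by simp [tτ, c6 _ hq]; ring) fun q => ?_)⟩
  · rw [τ.symm_apply_eq.2 (show p.2 = τ (p.2 + 0) by simp [tτ, c5 p.2 (by simpa using hp)])]
    rfl
  · rw [τ.symm_apply_eq.2 (show p.2 = τ (p.2 + (1 - b)) by rw [tτ, c6 _ hp]; ring)]
    rfl
  · rw [tτ, add_sub_cancel_left, abs_of_nonneg (bd _).1]
    exact (bd _).2

end Pool.Agent.Lib.MP_ccffa6_gt
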