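import Pool.Agent.Lib.MP_ccffa6_gt.K.Level0
import Pool.Agent.Lib.MP_ccffa6_gt.K.Diffeo0

open Set Filter Topology
open scoped ContDiff

noncomputable section

namespace Pool.Agent.Lib.MP_ccffa6_gt

variable {E : Type} [NormedAddCommGroup E] [NormedSpace ℝ E] [FiniteDimensional ℝ E]
  {E' : Type} [NormedAddCommGroup E'] [NormedSpace ℝ E'] [FiniteDimensional ℝ E']
  {F : Type} [NormedAddCommGroup F] [NormedSpace ℝ F] [FiniteDimensional ℝ F]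

/-- Regular level set inside a submanifold, pointwise form. -/
theorem Chart.level {d e : ℕ} {S : Set E} (h : IsSub d S) {G : E → F} (hG : ContDiff ℝ ∞ G)
    (hd : d = e + Module.finrank ℝ F) {x : E} (hx : x ∈ S) (h0 : G x = 0)
    (hs : ∀ w : F, ∃ v ∈ Tan S x, fderiv ℝ G x v = w) :
    (∃ (φ : Rd e → E) (ψ : E → Rd e), Chart (S ∩ G ⁻¹' {0}) x φ ψ) ∧
      ∀ v, v ∈ Tan (S ∩ G ⁻¹' {0}) x ↔ v ∈ Tan S x ∧ fderiv ℝ G x v = 0 := by
  obtain ⟨φ, ψ, hc⟩ := h x hx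
  have hL : ∀ z, fderiv ℝ (G ∘ φ) (ψ x) z = fderiv ℝ G x (fderiv ℝ φ (ψ x) z) :=
    level_comp hG hc.smφ (hc.self hx)
  obtain ⟨P, hP⟩ := level_compl (e := e) (fderiv ℝ (G ∘ φ) (ψ x)) (fun w => by
    obtain ⟨v, hv, rfl⟩ := hs w
    obtain ⟨z, rfl⟩ := (hc.mem_tan hx v).1 hv
    exact ⟨z, hL z⟩) (by rw [finrank_euclideanSpace_fin, hd])
  have sG := hG.comp hc.smφ
  have sH : ContDiff ℝ ∞ fun z => (P z, (G ∘ φ) z) := P.contDiff.prodMk sG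
  have dH : ∀ z, fderiv ℝ (fun z => (P z, (G ∘ φ) z)) (ψ x) z =
      (P z, fderiv ℝ (G ∘ φ) (ψ x) z) := fun z => by
    rw [(P.hasFDerivAt.prodMk (sG.differentiable (by simp) _).hasFDerivAt).fderiv]
    rfl
  obtain ⟨g, sg, h1, h2⟩ := level_ift sH (a := ψ x)
    (by simp only [Module.finrank_prod, finrank_euclideanSpace_fin, hd])
    ((injective_iff_map_eq_zero _).2 fun z hz => by
      rw [dH, Prod.mk_eq_zero] at hz
      exact hP z hz.1 hz.2)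
  have e0 : (G ∘ φ) (ψ x) = 0 := by rw [Function.comp_apply, hc.self hx, h0]
  have e1 : g (P (ψ x), 0) = ψ x := by rw [← e0]; exact h1.self_of_nhds
  rw [e0] at h2
  let i := ContinuousLinearMap.inl ℝ (Rd e) F
  have hc' : Chart (S ∩ G ⁻¹' {0}) x (φ ∘ g ∘ i) (P ∘ ψ) := by
    refine ⟨hc.smφ.comp (sg.comp i.contDiff), P.contDiff.comp hc.smψ, ?_, ?_⟩
    · filter_upwards [nhdsWithin_mono x inter_subset_left hc.left, self_mem_nhdsWithin,
        nhdsWithin_mono x inter_subset_left ((level_tendsto hc).eventually h1)] with y h3 h4 h5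
      have h6 : (G ∘ φ) (ψ y) = 0 := by rw [Function.comp_apply, h3]; exact h4.2
      rw [h6] at h5
      exact (congrArg φ h5).trans h3
    · have t1 : Tendsto (g ∘ i) (𝓝 (P (ψ x))) (𝓝 (ψ x)) :=
        (sg.continuous.comp i.continuous).tendsto' _ _ e1
      filter_upwards [t1.eventually hc.right,
        (i.continuous.tendsto' _ (P (ψ x), 0) rfl).eventually h2] with u h3 h4
      exact ⟨⟨h3.1, congrArg Prod.snd h4⟩, (congrArg P h3.2).trans (congrArg Prod.fst h4)⟩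
  refine ⟨⟨_, _, hc'⟩, fun v => ⟨fun hv => ⟨Tan.mono inter_subset_left hv, ?_⟩, fun hv => ?_⟩⟩
  · rw [Tan.fderiv_congr (g := fun _ => (0 : F)) (mem_inter hx h0) (hG.differentiable (by simp) x)
      (differentiableAt_const _) (eventually_mem_nhdsWithin.mono fun _ hy => hy.2) hv]
    simp
  · obtain ⟨z, rfl⟩ := (hc.mem_tan hx v).1 hv.1
    refine (hc'.mem_tan ⟨hx, h0⟩ _).2 ⟨P z, ?_⟩
    have h3 := level_comp sg sH (a := ψ x) (b := (P (ψ x), 0)) (by rw [e0]) z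
    rw [EventuallyEq.fderiv_eq (f₁ := g ∘ _) (f := id) h1, dH, hL, hv.2, fderiv_id] at h3
    rw [level_comp hc.smφ (sg.comp i.contDiff) (a := (P ∘ ψ) x) e1,
      level_comp sg i.contDiff (a := (P ∘ ψ) x) (b := (P (ψ x), 0)) rfl, i.fderiv]
    exact congrArg _ h3.symm

theorem IsSub.level {d e : ℕ} {S : Set E} (h : IsSub d S) {G : E → F} (hG : ContDiff ℝ ∞ G)
    (hd : d = e + Module.finrank ℝ F)
    (hs : ∀ x ∈ S, G x = 0 → ∀ w : F, ∃ v ∈ Tan S x, fderiv ℝ G x v = w) :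
    IsSub e (S ∩ G ⁻¹' {0}) :=
  fun x hx => (Chart.level h hG hd hx.1 hx.2 (hs x hx.1 hx.2)).1

/-- A submanifold is locally a regular level set. -/
theorem IsSub.exists_eq {d : ℕ} {S : Set E} (h : IsSub d S)
    (hd : Module.finrank ℝ E = d + Module.finrank ℝ F) {x : E} (hx : x ∈ S) :
    ∃ G : E → F, ContDiff ℝ ∞ G ∧ Function.Surjective (fderiv ℝ G x) ∧
      S =ᶠ[𝓝 x] G ⁻¹' {0} := by
  obtain ⟨φ, ψ, hc⟩ := h x hx
  obtain ⟨Q, hQ, hT⟩ := level_quot (F := F) (Tan S x) (by rw [h.finrank hx, hd])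
  have sr := hc.smφ.comp hc.smψ
  have sG : ContDiff ℝ ∞ fun y => Q (y - (φ ∘ ψ) y) := Q.contDiff.comp (contDiff_id.sub sr)
  have dG : fderiv ℝ (fun y => Q (y - (φ ∘ ψ) y)) x = Q := by
    have h1 := Q.hasFDerivAt.comp x
      ((hasFDerivAt_id x).sub (sr.differentiable (by simp) x).hasFDerivAt)
    refine h1.fderiv.trans ?_
    ext v
    have h2 := (hT _).2 ((hc.mem_tan hx _).2 ⟨_, (level_comp hc.smφ hc.smψ rfl v).symm⟩)
    simp [h2]
  obtain ⟨g, -, h1⟩ := level_left (hc.smψ.prodMk sG) (a := x) (by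
    rw [((hc.smψ.differentiable (by simp) x).hasFDerivAt.prodMk
      (sG.differentiable (by simp) x).hasFDerivAt).fderiv, dG]
    refine (injective_iff_map_eq_zero _).2 fun v hv => ?_
    have h2 : fderiv ℝ ψ x v = 0 := congrArg Prod.fst hv
    rw [← hc.right_inv_fderiv hx ((hT v).1 (congrArg Prod.snd hv)), h2, map_zero])
  refine ⟨_, sG, by rwa [dG], ?_⟩
  have t1 : Tendsto (φ ∘ ψ) (𝓝 x) (𝓝 x) := sr.continuous.tendsto' _ _ (hc.self hx)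
  filter_upwards [eventually_nhdsWithin_iff.1 hc.left, h1, t1.eventually h1,
    hc.smψ.continuous.continuousAt.eventually hc.right] with y h2 h3 h4 h5
  refine propext ⟨fun h6 => ?_, fun h6 => ?_⟩
  · exact (congrArg Q (sub_eq_zero.2 (h2 h6).symm)).trans Q.map_zero
  · have h7 : Q (y - (φ ∘ ψ) y) = 0 := h6
    simp only [Function.comp_apply, h5.2, sub_self, map_zero] at h3 h4 h7
    rw [h7, h4] at h3
    exact h3 ▸ h5.1

/-- Inverse function theorem between submanifolds. -/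
theorem IsSub.local_inverse {d : ℕ} {S : Set E} {S' : Set E'} (h : IsSub d S) (h' : IsSub d S')
    {f : E → E'} (hf : ContDiff ℝ ∞ f) {x : E} (hx : x ∈ S) (hm : ∀ᶠ y in 𝓝[S] x, f y ∈ S')
    (hi : ∀ v ∈ Tan S x, fderiv ℝ f x v = 0 → v = 0) :
    ∃ g : E' → E, ContDiff ℝ ∞ g ∧ (∀ᶠ y in 𝓝[S] x, g (f y) = y) ∧
      ∀ᶠ z in 𝓝[S'] (f x), g z ∈ S ∧ f (g z) = z := by
  have hx' : f x ∈ S' := hm.self_of_nhdsWithin hx
  obtain ⟨φ, ψ, hc⟩ := h x hx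
  obtain ⟨φ', ψ', hc'⟩ := h' _ hx'
  obtain ⟨g, sg, h1, h2⟩ := level_ift ((hc'.smψ.comp hf).comp hc.smφ) (a := ψ x) rfl
    (level_comp_inj hc hx (hc'.smψ.comp hf) fun v hv h0 => hi v hv (by
      rw [level_comp hc'.smψ hf rfl] at h0
      rw [← hc'.right_inv_fderiv hx' (Tan.map (hf.differentiable (by simp) x) hm hv), h0,
        map_zero]))
  have e1 := h1.self_of_nhds
  simp only [Function.comp_apply] at h1 h2 e1
  rw [hc.self hx] at h2 e1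
  refine ⟨φ ∘ g ∘ ψ', hc.smφ.comp (sg.comp hc'.smψ), ?_, ?_⟩
  · filter_upwards [hc.left, (level_tendsto hc).eventually h1] with y h3 h4
    rw [h3] at h4
    exact (congrArg φ h4).trans h3
  · have t1 : Tendsto (φ ∘ g ∘ ψ') (𝓝[S'] (f x)) (𝓝[S] x) := (level_tendsto' hc hx).comp
      ((sg.continuous.tendsto' _ _ e1).comp (level_tendsto hc'))
    have t2 : Tendsto f (𝓝[S] x) (𝓝[S'] (f x)) :=
      tendsto_nhdsWithin_iff.2 ⟨hf.continuous.continuousWithinAt, hm⟩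
    filter_upwards [t1.eventually eventually_mem_nhdsWithin, (t2.comp t1).eventually hc'.left,
      (level_tendsto hc').eventually h2, hc'.left] with z h3 h4 h5 h6
    exact ⟨h3, h4.symm.trans ((congrArg φ' h5).trans h6)⟩

/-- An immersion has a local left inverse. -/
theorem IsSub.local_left_inverse {d : ℕ} {S : Set E} (h : IsSub d S)
    {f : E → E'} (hf : ContDiff ℝ ∞ f) {x : E} (hx : x ∈ S)
    (hi : ∀ v ∈ Tan S x, fderiv ℝ f x v = 0 → v = 0) :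
    ∃ g : E' → E, ContDiff ℝ ∞ g ∧ ∀ᶠ y in 𝓝[S] x, g (f y) = y := by
  obtain ⟨φ, ψ, hc⟩ := h x hx
  obtain ⟨g, sg, h1⟩ := level_left (hf.comp hc.smφ) (level_comp_inj hc hx hf hi)
  refine ⟨φ ∘ g, hc.smφ.comp sg, ?_⟩
  filter_upwards [hc.left, (level_tendsto hc).eventually h1] with y h3 h4
  rw [Function.comp_apply, h3] at h4
  exact (congrArg φ h4).trans h3

/-- An immersion which is injective on a compact set is injective near it, with a smooth left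
inverse. -/
theorem IsSub.left_inverse {d : ℕ} {S A : Set E} (h : IsSub d S) (hA : IsCompact A) (hAS : A ⊆ S)
    {f : E → E'} (hf : ContDiff ℝ ∞ f) (hi : ∀ x ∈ A, ∀ v ∈ Tan S x, fderiv ℝ f x v = 0 → v = 0)
    (hinj : InjOn f A) :
    ∃ (g : E' → E) (U : Set E), ContDiff ℝ ∞ g ∧ IsOpen U ∧ A ⊆ U ∧
      ∀ y ∈ S ∩ U, g (f y) = y := by
  have hl := fun x hx => h.local_left_inverse hf (hAS hx) (hi x hx)
  obtain ⟨U₁, o₁, s₁, i₁⟩ := level_injOn hA hAS hf.continuous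
    (fun x hx => (hl x hx).imp fun _ => And.right) hinj
  obtain ⟨U₂, B, o₂, s₂, hB, b₁, b₂⟩ :=
    (h.inter_open o₁).exists_compact_nhds hA (subset_inter hAS s₁)
  have iB := i₁.mono b₁
  obtain ⟨g, U, sg, oU, sU, e, -⟩ := exists_smooth_ext (S := f '' B) (f := Function.invFunOn f B)
    (hA.image hf.continuous).isClosed (by
      rintro _ ⟨x, hx, rfl⟩
      obtain ⟨g, sg, h1⟩ := hl x hx
      obtain ⟨V, oV, xV, h2⟩ := mem_nhdsWithin.1 h1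
      refine ⟨g, sg, ?_⟩
      have h3 : (f '' (B \ V))ᶜ ∈ 𝓝 (f x) := by
        refine ((hB.diff oV).image hf.continuous).isClosed.isOpen_compl.mem_nhds ?_
        rintro ⟨y, hy, h4⟩
        exact hy.2 (iB hy.1 (b₂ ⟨⟨hAS hx, s₁ hx⟩, s₂ hx⟩) h4 ▸ xV)
      filter_upwards [mem_nhdsWithin_of_mem_nhds h3, self_mem_nhdsWithin] with z h4 h5
      obtain ⟨y, hy, rfl⟩ := h5
      have h6 : y ∈ V := by_contra fun h7 => h4 ⟨y, ⟨hy, h7⟩, rfl⟩
      exact (iB.leftInvOn_invFunOn hy).trans (h2 ⟨h6, (b₁ hy).1⟩).symm)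
  refine ⟨g, U₁ ∩ U₂ ∩ f ⁻¹' U, sg, (o₁.inter o₂).inter (oU.preimage hf.continuous),
    fun x hx => ⟨⟨s₁ hx, s₂ hx⟩, sU ⟨x, hx, rfl⟩⟩, fun y hy => ?_⟩
  have h1 : y ∈ B := b₂ ⟨⟨hy.1, hy.2.1.1⟩, hy.2.1.2⟩
  exact (e ⟨⟨y, h1, rfl⟩, hy.2.2⟩).trans (iB.leftInvOn_invFunOn h1)

theorem level_lev {d : ℕ} {W : Set E} {f : E → ℝ} {a b : ℝ} {ν : E → E}
    (h : Slab (d + 1) W f a b ν) {c : ℝ} (hc : c = a ∨ c = b) {x : E} (hx : x ∈ Lev W f c) :
    (∃ (φ : Rd d → E) (ψ : E → Rd d), Chart (Lev W f c) x φ ψ) ∧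
      ∀ v, v ∈ Tan (Lev W f c) x ↔ v ∈ Tan W x ∧ fderiv ℝ f x v = 0 := by
  obtain ⟨h1, h2⟩ := h.tν x ⟨hx.1, level_mem' hc hx.2⟩
  have e : Lev W f c = W ∩ (fun y => f y - c) ⁻¹' {0} := by
    ext y
    exact and_congr_right fun _ => sub_eq_zero.symm
  rw [e, ← fderiv_sub_const c]
  refine Chart.level h.sub (h.sm.sub contDiff_const) (by rw [Module.finrank_self]) hx.1
    (sub_eq_zero.2 hx.2) fun w => ⟨w • ν x, Submodule.smul_mem _ _ h1, ?_⟩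
  rw [fderiv_sub_const, map_smul, h2, smul_eq_mul, mul_one]

theorem Slab.closed {d : ℕ} {W : Set E} {f : E → ℝ} {a b : ℝ} {ν : E → E}
    (h : Slab (d + 1) W f a b ν) {c : ℝ} (hc : c = a ∨ c = b) : Closed d (Lev W f c) := by
  refine ⟨fun x hx => (level_lev h hc hx).1, ?_⟩
  refine h.cpt.of_isClosed_subset ?_ fun x hx => ⟨hx.1, ?_⟩
  · have e : Lev W f c = W ∩ f ⁻¹' Icc a b ∩ f ⁻¹' {c} := by
      ext x
      refine ⟨fun hx => ⟨⟨hx.1, level_mem h.le hc hx.2⟩, hx.2⟩, fun hx => ⟨hx.1.1, hx.2⟩⟩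
    exact e ▸ h.cpt.isClosed.inter (isClosed_singleton.preimage h.sm.continuous)
  · exact level_mem h.le hc hx.2

theorem Slab.mem_tan {d : ℕ} {W : Set E} {f : E → ℝ} {a b : ℝ} {ν : E → E}
    (h : Slab d W f a b ν) {c : ℝ} (hc : c = a ∨ c = b) {x : E} (hx : x ∈ Lev W f c) (v : E) :
    v ∈ Tan (Lev W f c) x ↔ v ∈ Tan W x ∧ fderiv ℝ f x v = 0 := by
  have h1 := h.tν x ⟨hx.1, level_mem' hc hx.2⟩
  rcases d with _ | d
  · have h2 := h1.1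
    rw [Submodule.finrank_eq_zero.1 (h.sub.finrank hx.1), Submodule.mem_bot] at h2
    simpa [h2] using h1.2
  · exact (level_lev h hc hx).2 v

theorem Slab.incl_bijOn {d : ℕ} {W : Set E} {f : E → ℝ} {a b : ℝ} {ν : E → E}
    (h : Slab d W f a b ν) {c : ℝ} (hc : c = a ∨ c = b) {x : E} (hx : x ∈ Lev W f c) :
    BijOn (incl (ν x) F) (pl (T1 (Lev W f c) x) F) (pl (Tan W x) F) := by
  obtain ⟨h1, h2⟩ := h.tν x ⟨hx.1, level_mem' hc hx.2⟩
  have e1 : ∀ v : (E × ℝ) × F, incl (ν x) F v = (v.1.1 + v.1.2 • ν x, v.2) := fun _ => rfl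
  have e2 : ∀ v : (E × ℝ) × F, v ∈ pl (T1 (Lev W f c) x) F ↔
      v.1.1 ∈ Tan W x ∧ fderiv ℝ f x v.1.1 = 0 := fun v => by
    rw [← h.mem_tan hc hx]
    exact ⟨fun h => h.1.1, fun h => ⟨⟨h, trivial⟩, trivial⟩⟩
  refine ⟨fun v hv => ⟨add_mem ((e2 v).1 hv).1 (Submodule.smul_mem _ _ h1), trivial⟩,
    fun u hu v hv huv => ?_, fun u hu => ?_⟩
  · rw [e1, e1, Prod.mk.injEq] at huv
    have h3 := congrArg (fderiv ℝ f x) huv.1
    simp only [map_add, map_smul, ((e2 u).1 hu).2, ((e2 v).1 hv).2, h2, smul_eq_mul, mul_one,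
      zero_add] at h3
    have h4 := huv.1
    rw [h3, add_left_inj] at h4
    exact Prod.ext (Prod.ext h4 h3) huv.2
  · refine ⟨((u.1 - fderiv ℝ f x u.1 • ν x, fderiv ℝ f x u.1), u.2),
      (e2 _).2 ⟨sub_mem hu.1 (Submodule.smul_mem _ _ h1), by simp [h2]⟩, ?_⟩
    rw [e1, sub_add_cancel]

/-- Regular levels give the field `ν`. -/
theorem exists_slab {d : ℕ} {W : Set E} {f : E → ℝ} {a b : ℝ} (hW : IsSub d W)
    (hf : ContDiff ℝ ∞ f) (hab : a < b) (hc : IsCompact (W ∩ f ⁻¹' Icc a b))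
    (hr : ∀ x ∈ W ∩ f ⁻¹' {a, b}, ∃ v ∈ Tan W x, fderiv ℝ f x v ≠ 0) :
    ∃ ν : E → E, ContDiff ℝ ∞ ν ∧ Slab d W f a b ν := by
  have hA : IsClosed (W ∩ f ⁻¹' {a, b}) := by
    have e : W ∩ f ⁻¹' {a, b} = W ∩ f ⁻¹' Icc a b ∩ f ⁻¹' {a, b} := by
      ext x
      exact ⟨fun hx => ⟨⟨hx.1, level_mem hab hx.2 rfl⟩, hx.2⟩, fun hx => ⟨hx.1.1, hx.2⟩⟩
    exact e ▸ hc.isClosed.inter ((toFinite _).isClosed.preimage hf.continuous)
  obtain ⟨ν, U, sν, -, hU, h1, -⟩ := exists_smooth_convex (S := W) hA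
    (C := fun y => {v | v ∈ Tan W y ∧ fderiv ℝ f y v = 1})
    (fun y => (Tan W y).convex.inter ((convex_singleton 1).linear_preimage
      (fderiv ℝ f y : E →ₗ[ℝ] ℝ))) fun x hx => by
      obtain ⟨v, hv, h0⟩ := hr x hx
      obtain ⟨n, sn, rfl, hn⟩ := level_field hW hx.1 hv
      have sc : ContDiff ℝ ∞ fun y => fderiv ℝ f y (n y) :=
        (hf.fderiv_right (m := ∞) (by simp)).clm_apply sn
      have o : IsOpen {y | fderiv ℝ f y (n y) ≠ 0} := isOpen_ne_fun sc.continuous continuous_const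
      obtain ⟨g, sg, e⟩ := exists_smooth_nhds o h0
        ((sc.contDiffOn.inv fun _ hy => hy).smul sn.contDiffOn)
      refine ⟨g, sg, ?_⟩
      filter_upwards [hn, mem_nhdsWithin_of_mem_nhds e, mem_nhdsWithin_of_mem_nhds (o.mem_nhds h0)]
        with y h2 h3 h4
      rw [h3]
      exact ⟨Submodule.smul_mem _ _ h2, (map_smul _ _ _).trans (inv_mul_cancel₀ h4)⟩
  exact ⟨ν, sν, hW, hf, hab, hc, sν.continuous.continuousOn, fun x hx => h1 x ⟨hx.1, hU hx⟩⟩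

/-- A slab can be thickened after shrinking `W` by an open set. -/
theorem Slab.thicken {d : ℕ} {W : Set E} {f : E → ℝ} {a b : ℝ} {ν : E → E}
    (h : Slab d W f a b ν) : ∃ (U : Set E) (ε : ℝ), IsOpen U ∧ 0 < ε ∧
      W ∩ f ⁻¹' Icc a b ⊆ U ∧ IsCompact (W ∩ U ∩ f ⁻¹' Icc (a - ε) (b + ε)) ∧
      ∀ x ∈ W ∩ U, f x ∈ Icc (a - ε) (a + ε) ∪ Icc (b - ε) (b + ε) →
        ∃ v ∈ Tan W x, fderiv ℝ f x v ≠ 0 := by
  obtain ⟨U, B, oU, sU, hB, b₁, b₂⟩ := h.sub.exists_compact_nhds h.cpt inter_subset_left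
  have h1 : ∀ᶠ y in 𝓝ˢ (W ∩ f ⁻¹' {a, b}), y ∈ W → ∃ v ∈ Tan W y, fderiv ℝ f y v ≠ 0 := by
    refine eventually_nhdsSet_iff_forall.2 fun x hx => eventually_nhdsWithin_iff.1 ?_
    obtain ⟨n, sn, e, hn⟩ := level_field h.sub hx.1 (h.tν x hx).1
    have sc : Continuous fun y => fderiv ℝ f y (n y) :=
      (h.sm.continuous_fderiv (by simp)).clm_apply sn.continuous
    filter_upwards [hn, mem_nhdsWithin_of_mem_nhds (sc.continuousAt.eventually_ne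
      (y := 0) (by rw [e, (h.tν x hx).2]; exact one_ne_zero))] with y h2 h3 using ⟨_, h2, h3⟩
  obtain ⟨O, oO, sO, h2⟩ := mem_nhdsSet_iff_exists.1 h1
  have hK := (hB.diff (oU.inter oO)).image h.sm.continuous
  have h3 : ∀ c, c = a ∨ c = b → c ∉ f '' (B \ (U ∩ O)) := by
    rintro _ hc ⟨x, hx, rfl⟩
    exact hx.2 ⟨sU ⟨b₁ hx.1, level_mem h.le hc rfl⟩, sO ⟨b₁ hx.1, hc⟩⟩
  obtain ⟨ε₁, p₁, g₁⟩ := level_gap hK (h3 a (Or.inl rfl))
  obtain ⟨ε₂, p₂, g₂⟩ := level_gap hK (h3 b (Or.inr rfl))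
  have m₁ := min_le_left ε₁ ε₂
  have m₂ := min_le_right ε₁ ε₂
  have p := lt_min p₁ p₂
  generalize min ε₁ ε₂ = ε at *
  have h4 : ∀ x ∈ B, f x ∈ Icc (a - ε) (a + ε) ∪ Icc (b - ε) (b + ε) → x ∈ U ∩ O := by
    intro x hx h5
    by_contra h6
    rcases h5 with h5 | h5
    · exact (g₁ _ ⟨x, ⟨hx, h6⟩, rfl⟩).not_ge (abs_le.2 ⟨by linarith [h5.1], by linarith [h5.2]⟩)
    · exact (g₂ _ ⟨x, ⟨hx, h6⟩, rfl⟩).not_ge (abs_le.2 ⟨by linarith [h5.1], by linarith [h5.2]⟩)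
  refine ⟨U, ε, oU, p, sU, ?_, fun x hx h5 => h2 (h4 x (b₂ hx) h5).2 hx.1⟩
  have e : W ∩ U ∩ f ⁻¹' Icc (a - ε) (b + ε) = B ∩ f ⁻¹' Icc (a - ε) (b + ε) := by
    ext x
    refine ⟨fun hx => ⟨b₂ hx.1, hx.2⟩, fun hx => ⟨⟨b₁ hx.1, ?_⟩, hx.2⟩⟩
    rcases le_total (f x) a with h5 | h5
    · exact (h4 x hx.1 (Or.inl ⟨hx.2.1, by linarith⟩)).1
    rcases le_total (f x) b with h6 | h6
    · exact sU ⟨b₁ hx.1, h5, h6⟩
    · exact (h4 x hx.1 (Or.inr ⟨by linarith, hx.2.2⟩)).1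
  exact e ▸ hB.inter_right (isClosed_Icc.preimage h.sm.continuous)

/-- An injective immersion of a closed manifold is a diffeomorphism onto its image. -/
theorem Closed.exists_diff {d : ℕ} {S : Set E} (h : Closed d S) {φ : E → E'}
    (hφ : ContDiff ℝ ∞ φ) (hi : ∀ x ∈ S, ∀ v ∈ Tan S x, fderiv ℝ φ x v = 0 → v = 0)
    (hinj : InjOn φ S) : ∃ ψ : E' → E, Diff S (φ '' S) φ ψ := by
  obtain ⟨g, U, hg, -, hU, e⟩ := h.sub.left_inverse h.cpt Subset.rfl hφ hi hinj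
  exact ⟨g, Diff.image hφ hg fun x hx => e x ⟨hx, hU hx⟩⟩

end Pool.Agent.Lib.MP_ccffa6_gt
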