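import Pool.Agent.Lib.MP_ccffa6_gt.K.Tan
import Pool.Agent.Lib.MP_ccffa6_gt.K.Ext

open Set Filter Topology Function Module
open scoped ContDiff

noncomputable section

namespace Pool.Agent.Lib.MP_ccffa6_gt

variable {E : Type} [NormedAddCommGroup E] [NormedSpace ℝ E] [FiniteDimensional ℝ E]
  {E' : Type} [NormedAddCommGroup E'] [NormedSpace ℝ E'] [FiniteDimensional ℝ E']
  {F : Type} [NormedAddCommGroup F] [NormedSpace ℝ F] [FiniteDimensional ℝ F]

/-- Inverse function theorem with a globally smooth inverse. -/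
theorem level_ift {f : E → E'} (hf : ContDiff ℝ ∞ f) {a : E} (hd : finrank ℝ E = finrank ℝ E')
    (hi : Injective (fderiv ℝ f a)) : ∃ g : E' → E, ContDiff ℝ ∞ g ∧
      (∀ᶠ y in 𝓝 a, g (f y) = y) ∧ ∀ᶠ z in 𝓝 (f a), f (g z) = z := by
  have := FiniteDimensional.complete ℝ E
  have hD : ∀ y, HasFDerivAt f (fderiv ℝ f y) y := fun y =>
    (hf.differentiable (by simp) y).hasFDerivAt
  let e : E ≃L[ℝ] E' := (LinearMap.linearEquivOfInjective (fderiv ℝ f a : E →ₗ[ℝ] E') hi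
    hd).toContinuousLinearEquiv
  have he : (e : E →L[ℝ] E') = fderiv ℝ f a := by ext v; rfl
  have hU : IsOpen (fderiv ℝ f ⁻¹' range ((↑) : (E ≃L[ℝ] E') → E →L[ℝ] E')) :=
    ContinuousLinearEquiv.isOpen.preimage (hf.continuous_fderiv (by simp))
  let Φ := ((hf.contDiffAt (x := a)).toOpenPartialHomeomorph _ (he ▸ hD a) (by simp)).restrOpen _ hU
  have ha : a ∈ Φ.source := ⟨ContDiffAt.mem_toOpenPartialHomeomorph_source _ _ _, e, he⟩
  have hs : ContDiffOn ℝ ∞ Φ.symm Φ.target := fun z hz => by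
    obtain ⟨e', he'⟩ := (Φ.map_target hz).2
    exact (Φ.contDiffAt_symm (f₀' := e') hz (he' ▸ hD _) hf.contDiffAt).contDiffWithinAt
  obtain ⟨g, hg, h1⟩ := exists_smooth_nhds Φ.open_target (Φ.map_source ha) hs
  refine ⟨g, hg, ?_, ?_⟩
  · filter_upwards [Φ.eventually_left_inverse ha, hf.continuous.continuousAt.eventually h1]
      with y h2 h3 using h3.trans h2
  · filter_upwards [Φ.eventually_right_inverse' ha, h1] with z h2 h3
    rw [h3]
    exact h2

/-- An immersion has a smooth local left inverse. -/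
theorem level_left {f : E → E'} (hf : ContDiff ℝ ∞ f) {a : E} (hi : Injective (fderiv ℝ f a)) :
    ∃ g : E' → E, ContDiff ℝ ∞ g ∧ ∀ᶠ y in 𝓝 a, g (f y) = y := by
  obtain ⟨P, hP⟩ := LinearMap.exists_leftInverse_of_injective (fderiv ℝ f a : E →ₗ[ℝ] E')
    (LinearMap.ker_eq_bot.2 hi)
  let Q : E' →L[ℝ] E := LinearMap.toContinuousLinearMap P
  have h1 := Q.hasFDerivAt.comp a (hf.differentiable (by simp) a).hasFDerivAt
  obtain ⟨g, hg, h2, -⟩ := level_ift (Q.contDiff.comp hf) (a := a) rfl (by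
    rw [h1.fderiv]
    exact LeftInverse.injective (g := id) fun v => LinearMap.congr_fun hP v)
  exact ⟨g ∘ Q, hg.comp Q.contDiff, h2⟩

omit [FiniteDimensional ℝ E] [FiniteDimensional ℝ E'] [FiniteDimensional ℝ F] in
theorem level_comp {f : E → E'} {g : E' → F} (hg : ContDiff ℝ ∞ g) (hf : ContDiff ℝ ∞ f)
    {a : E} {b : E'} (hb : f a = b) (v : E) :
    fderiv ℝ (g ∘ f) a v = fderiv ℝ g b (fderiv ℝ f a v) := by
  rw [fderiv_comp a (hg.differentiable (by simp) _) (hf.differentiable (by simp) _), hb]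
  rfl

omit [FiniteDimensional ℝ E] [FiniteDimensional ℝ F] in
theorem level_tendsto {S : Set E} {x : E} {φ : F → E} {ψ : E → F} (h : Chart S x φ ψ) :
    Tendsto ψ (𝓝[S] x) (𝓝 (ψ x)) := h.smψ.continuous.continuousWithinAt

theorem level_tendsto' {S : Set E} {x : E} {φ : F → E} {ψ : E → F} (h : Chart S x φ ψ)
    (hx : x ∈ S) : Tendsto φ (𝓝 (ψ x)) (𝓝[S] x) := by
  refine tendsto_nhdsWithin_iff.2 ⟨?_, h.right.mono fun _ hz => hz.1⟩
  have := h.smφ.continuous.tendsto (ψ x)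
  rwa [h.self hx] at this

omit [FiniteDimensional ℝ E'] in
theorem level_comp_inj {S : Set E} {x : E} {φ : F → E} {ψ : E → F} (h : Chart S x φ ψ)
    (hx : x ∈ S) {f : E → E'} (hf : ContDiff ℝ ∞ f)
    (hi : ∀ v ∈ Tan S x, fderiv ℝ f x v = 0 → v = 0) : Injective (fderiv ℝ (f ∘ φ) (ψ x)) := by
  refine (injective_iff_map_eq_zero _).2 fun z hz => ?_
  rw [level_comp hf h.smφ (h.self hx)] at hz
  rw [← h.left_inv_fderiv hx z, hi _ ((h.mem_tan hx _).2 ⟨z, rfl⟩) hz, map_zero]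

/-- A tangent vector extends to a local tangent field. -/
theorem level_field {d : ℕ} {S : Set E} (h : IsSub d S) {x v : E} (hx : x ∈ S)
    (hv : v ∈ Tan S x) :
    ∃ n : E → E, ContDiff ℝ ∞ n ∧ n x = v ∧ ∀ᶠ y in 𝓝[S] x, n y ∈ Tan S y := by
  obtain ⟨φ, ψ, hc⟩ := h x hx
  obtain ⟨z, hz⟩ := (hc.mem_tan hx v).1 hv
  refine ⟨fun y => fderiv ℝ φ (ψ y) z, ?_, hz, ?_⟩
  · exact ((hc.smφ.fderiv_right (m := ∞) (by simp)).comp hc.smψ).clm_apply contDiff_const
  · filter_upwards [hc.eventually, self_mem_nhdsWithin] with y h1 h2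
    exact (h1.mem_tan h2 _).2 ⟨z, rfl⟩

omit [FiniteDimensional ℝ F] in
/-- A surjection is completed to an isomorphism. -/
theorem level_compl {e : ℕ} (L : E →L[ℝ] F) (hL : Surjective L)
    (hd : finrank ℝ E = e + finrank ℝ F) :
    ∃ P : E →L[ℝ] Rd e, ∀ v, P v = 0 → L v = 0 → v = 0 := by
  obtain ⟨Q, hQ⟩ := LinearMap.exists_leftInverse_of_injective
    (LinearMap.ker (L : E →ₗ[ℝ] F)).subtype (Submodule.ker_subtype _)
  have h1 := LinearMap.finrank_range_add_finrank_ker (L : E →ₗ[ℝ] F)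
  rw [LinearMap.range_eq_top.2 hL, finrank_top] at h1
  let j : LinearMap.ker (L : E →ₗ[ℝ] F) ≃ₗ[ℝ] Rd e :=
    LinearEquiv.ofFinrankEq _ _ (by rw [finrank_euclideanSpace_fin]; omega)
  refine ⟨LinearMap.toContinuousLinearMap (j.toLinearMap ∘ₗ Q), fun v h2 h3 => ?_⟩
  have h4 : Q v = ⟨v, h3⟩ := LinearMap.congr_fun hQ ⟨v, h3⟩
  have h5 : j (Q v) = 0 := h2
  rw [j.map_eq_zero_iff, h4] at h5
  exact congrArg Subtype.val h5

/-- A subspace is the kernel of a surjection. -/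
theorem level_quot (T : Submodule ℝ E) (hd : finrank ℝ E = finrank ℝ T + finrank ℝ F) :
    ∃ Q : E →L[ℝ] F, Surjective Q ∧ ∀ v, Q v = 0 ↔ v ∈ T := by
  have h1 := T.finrank_quotient_add_finrank
  let j : (E ⧸ T) ≃ₗ[ℝ] F := LinearEquiv.ofFinrankEq _ _ (by omega)
  refine ⟨LinearMap.toContinuousLinearMap (j.toLinearMap ∘ₗ T.mkQ),
    j.surjective.comp T.mkQ_surjective, fun v => ?_⟩
  exact j.map_eq_zero_iff.trans (Submodule.Quotient.mk_eq_zero T)

omit [NormedSpace ℝ E] [FiniteDimensional ℝ E] [NormedSpace ℝ E'] [FiniteDimensional ℝ E'] in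
theorem level_injOn {S A : Set E} (hA : IsCompact A) (hAS : A ⊆ S) {f : E → E'}
    (hf : Continuous f) (hl : ∀ x ∈ A, ∃ g : E' → E, ∀ᶠ y in 𝓝[S] x, g (f y) = y)
    (hinj : InjOn f A) : ∃ U, IsOpen U ∧ A ⊆ U ∧ InjOn f (S ∩ U) := by
  have h1 : IsCompact ((↑) ⁻¹' A : Set S) := by
    rw [Subtype.isCompact_iff, Subtype.image_preimage_coe, inter_eq_right.2 hAS]
    exact hA
  obtain ⟨t, ht, h2, h3⟩ := InjOn.exists_isOpen_superset (f := fun y : S => f y)
    (fun x hx y hy hxy => Subtype.ext (hinj hx hy hxy)) h1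
    (fun _ _ => (hf.comp continuous_subtype_val).continuousAt) fun x hx => by
      obtain ⟨g, hg⟩ := hl x hx
      rw [← map_nhds_subtype_val, eventually_map] at hg
      refine ⟨_, hg, fun y hy z hz hyz => Subtype.ext ?_⟩
      exact hy.symm.trans ((congrArg g hyz).trans hz)
  obtain ⟨U, hU, rfl⟩ := isOpen_induced_iff.1 ht
  refine ⟨U, hU, fun x hx => @h2 ⟨x, hAS hx⟩ hx, fun x hx y hy hxy => ?_⟩
  exact congrArg Subtype.val (@h3 ⟨x, hx.1⟩ hx.2 ⟨y, hy.1⟩ hy.2 hxy)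

theorem level_gap {K : Set ℝ} (hK : IsCompact K) {c : ℝ} (hc : c ∉ K) :
    ∃ ε > 0, ∀ t ∈ K, ε < |t - c| := by
  obtain ⟨ε, hε, h⟩ := Metric.nhds_basis_closedBall.mem_iff.1
    (hK.isClosed.isOpen_compl.mem_nhds hc)
  refine ⟨ε, hε, fun t ht => not_le.1 fun h1 => h ?_ ht⟩
  rwa [Metric.mem_closedBall, Real.dist_eq]

theorem level_mem {a b c t : ℝ} (hab : a < b) (hc : c = a ∨ c = b) (ht : t = c) : t ∈ Icc a b := by
  rcases hc with rfl | rfl <;> rw [ht]
  exacts [left_mem_Icc.2 hab.le, right_mem_Icc.2 hab.le]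

theorem level_mem' {a b c t : ℝ} (hc : c = a ∨ c = b) (ht : t = c) : t ∈ ({a, b} : Set ℝ) :=
  ht ▸ hc

end Pool.Agent.Lib.MP_ccffa6_gt
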