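import Pool.Agent.Lib.MP_ccffa6_gt.K.TanX

open Set Filter Topology
open scoped ContDiff

noncomputable section

namespace Pool.Agent.Lib.MP_ccffa6_gt

variable {E : Type} [NormedAddCommGroup E] [NormedSpace ℝ E] [FiniteDimensional ℝ E]
  {E' : Type} [NormedAddCommGroup E'] [NormedSpace ℝ E'] [FiniteDimensional ℝ E']
  {F : Type} [NormedAddCommGroup F] [NormedSpace ℝ F] [FiniteDimensional ℝ F]

theorem isSub_empty (d : ℕ) : IsSub d (∅ : Set E) := fun _ h => h.elim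

theorem isSub_singleton (x : E) : IsSub 0 ({x} : Set E) := by
  rintro x rfl
  exact ⟨fun _ => x, fun _ => 0, contDiff_const, contDiff_const,
    eventually_nhdsWithin_of_forall fun y hy => Eq.symm hy,
    Eventually.of_forall fun z => ⟨rfl, Subsingleton.elim _ _⟩⟩

theorem isSub_univ : IsSub (Module.finrank ℝ E) (univ : Set E) := isSub_of_isOpen isOpen_univ

theorem IsSub.prod_univ {d : ℕ} {S : Set E} (h : IsSub d S) :
    IsSub (d + 1) (S ×ˢ (univ : Set ℝ)) := by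
  simpa using h.prod (isSub_univ (E := ℝ))

theorem IsSub.prod_open {d : ℕ} {S : Set E} (h : IsSub d S) {U : Set F} (hU : IsOpen U) :
    IsSub (d + Module.finrank ℝ F) (S ×ˢ U) := h.prod (isSub_of_isOpen hU)

theorem Closed.prod {d d' : ℕ} {S : Set E} {S' : Set E'} (h : Closed d S) (h' : Closed d' S') :
    Closed (d + d') (S ×ˢ S') := ⟨h.sub.prod h'.sub, h.cpt.prod h'.cpt⟩

theorem IsSub.union {d : ℕ} {S S' : Set E} (h : IsSub d S) (h' : IsSub d S') (hc : IsClosed S)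
    (hc' : IsClosed S') (hd : Disjoint S S') : IsSub d (S ∪ S') ∧
      (∀ x ∈ S, (S ∪ S' : Set E) =ᶠ[𝓝 x] S) ∧ ∀ x ∈ S', (S ∪ S' : Set E) =ᶠ[𝓝 x] S' := by
  have key : ∀ {S S' : Set E}, IsClosed S' → Disjoint S S' →
      ∀ x ∈ S, (S ∪ S' : Set E) =ᶠ[𝓝 x] S := fun hc hd x hx =>
    Filter.eventuallyEq_set.2 (mem_of_superset (hc.isOpen_compl.mem_nhds (disjoint_left.1 hd hx))
      fun y hy => ⟨fun h => h.resolve_right hy, Or.inl⟩)
  have h2 : ∀ x ∈ S', (S ∪ S' : Set E) =ᶠ[𝓝 x] S' := fun x hx => union_comm S' S ▸ key hc hd.symm x hx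
  exact ⟨IsSub.of_local fun x hx => hx.elim (fun hx => ⟨S, h, key hc' hd x hx⟩)
    fun hx => ⟨S', h', h2 x hx⟩, key hc' hd, h2⟩

theorem Closed.union {d : ℕ} {S S' : Set E} (h : Closed d S) (h' : Closed d S')
    (hd : Disjoint S S') : Closed d (S ∪ S') := ⟨(h.sub.union h'.sub h.cpt.isClosed h'.cpt.isClosed hd).1, h.cpt.union h'.cpt⟩

/-- A relatively open part of a submanifold. -/
theorem IsSub.of_subset {d : ℕ} {S S' : Set E} (h : IsSub d S) (hs : S' ⊆ S)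
    (ho : ∀ x ∈ S', S' ∈ 𝓝[S] x) : IsSub d S' ∧ ∀ x ∈ S', S' =ᶠ[𝓝 x] S := by
  have key : ∀ x ∈ S', S' =ᶠ[𝓝 x] S := fun x hx =>
    Filter.eventuallyEq_set.2 ((eventually_nhdsWithin_iff.1 (ho x hx)).mono
      fun y hy => ⟨fun h => hs h, hy⟩)
  exact ⟨IsSub.of_local fun x hx => ⟨S, h, key x hx⟩, key⟩

omit [FiniteDimensional ℝ E] [FiniteDimensional ℝ E'] [FiniteDimensional ℝ F] in
theorem tany_cont {S : Set E} {x : E} {φ : E' → E} {ψ : E → E'} (c : Chart S x φ ψ)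
    {A : E → E →L[ℝ] F} (hA : ContinuousWithinAt A S x) :
    ContinuousWithinAt (fun y => (A y).comp (fderiv ℝ φ (ψ y))) S x :=
  hA.clm_comp (((c.smφ.continuous_fderiv (by simp)).comp c.smψ.continuous).continuousWithinAt)

/-- Surjectivity on the tangent spaces is an open condition along `S`. -/
theorem IsSub.eventually_surj {d : ℕ} {S : Set E} (h : IsSub d S) {x : E} (hx : x ∈ S)
    {A : E → E →L[ℝ] F} (hA : ContinuousWithinAt A S x) (hs : ∀ w, ∃ v ∈ Tan S x, A x v = w) :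
    ∀ᶠ y in 𝓝[S] x, ∀ w, ∃ v ∈ Tan S y, A y v = w := by
  obtain ⟨φ, ψ, c⟩ := h x hx
  obtain ⟨B, hB⟩ := ((A x).comp (fderiv ℝ φ (ψ x))).exists_rightInverse_of_surjective
    (LinearMap.range_eq_top.2 fun w => by
      obtain ⟨v, hv, rfl⟩ := hs w
      obtain ⟨z, rfl⟩ := (c.mem_tan hx v).1 hv
      exact ⟨z, rfl⟩)
  have := ((tany_cont c hA).clm_comp (continuousWithinAt_const (b := B))).eventually
    (ContinuousLinearMap.isOpen_injective.mem_nhds (by
      beta_reduce; rw [hB]; exact Function.injective_id))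
  filter_upwards [this, c.eventually, self_mem_nhdsWithin] with y h1 cy hy w
  obtain ⟨u, hu⟩ := LinearMap.injective_iff_surjective (f := (((A y).comp
    (fderiv ℝ φ (ψ y))).comp B : F →L[ℝ] F).toLinearMap).1 h1 w
  exact ⟨_, (cy.mem_tan hy _).2 ⟨B u, rfl⟩, hu⟩

/-- Injectivity on the tangent spaces is an open condition along `S`. -/
theorem IsSub.eventually_inj {d : ℕ} {S : Set E} (h : IsSub d S) {x : E} (hx : x ∈ S)
    {A : E → E →L[ℝ] F} (hA : ContinuousWithinAt A S x)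
    (hi : ∀ v ∈ Tan S x, A x v = 0 → v = 0) :
    ∀ᶠ y in 𝓝[S] x, ∀ v ∈ Tan S y, A y v = 0 → v = 0 := by
  obtain ⟨φ, ψ, c⟩ := h x hx
  have := (tany_cont c hA).eventually (ContinuousLinearMap.isOpen_injective.mem_nhds
    ((injective_iff_map_eq_zero _).2 fun z hz => (injective_iff_map_eq_zero _).1
      (c.injective_fderiv hx) z (hi _ ((c.mem_tan hx _).2 ⟨z, rfl⟩) hz)))
  filter_upwards [this, c.eventually, self_mem_nhdsWithin] with y h1 cy hy v hv h0
  obtain ⟨z, rfl⟩ := (cy.mem_tan hy v).1 hv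
  rw [(injective_iff_map_eq_zero _).1 h1 z h0, map_zero]

theorem IsSub.eventually_regular {d : ℕ} {S : Set E} (h : IsSub d S) {x : E} (hx : x ∈ S)
    {a : E → E →L[ℝ] ℝ} (ha : ContinuousWithinAt a S x) (hs : ∃ v ∈ Tan S x, a x v ≠ 0) :
    ∀ᶠ y in 𝓝[S] x, ∃ v ∈ Tan S y, a y v ≠ 0 := by
  obtain ⟨v, hv, h0⟩ := hs
  refine (h.eventually_surj hx ha fun w => ⟨(w / a x v) • v, Submodule.smul_mem _ _ hv, ?_⟩).mono
    fun y hy => (hy 1).imp fun u ⟨h1, h2⟩ => ⟨h1, h2.trans_ne one_ne_zero⟩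
  rw [map_smul, smul_eq_mul, div_mul_cancel₀ _ h0]

end Pool.Agent.Lib.MP_ccffa6_gt
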